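import Pool.Agent.P.MP_25cc86_al.Thick

/-! A finite group generated by a commutator closed normal set of involutions is a 2-group
(the argument of Alperin and Lyons for the theorem of Baer and Suzuki). -/

namespace Pool.Agent.P.MP_25cc86_al

open Subgroup

theorem exists_normalizing {P : Type*} [Group P] [Finite P] [Group.IsNilpotent P] {D : Set P}
    (hD : ∀ d ∈ D, ∀ g, g⁻¹ * d * g ∈ D) (I : Subgroup P) {x0 : P} (h0 : x0 ∈ D) (h1 : x0 ∉ I) :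
    ∃ x ∈ D, x ∉ I ∧ x ∈ normalizer (D ∩ I) := by
  obtain ⟨M, hIM, hM⟩ := Finite.exists_le_maximal (p := fun M : Subgroup P => D ∩ M ⊆ I)
    (a := I) Set.inter_subset_right
  have hlt : M < ⊤ := lt_top_iff_ne_top.2 fun h => h1 (hM.1 ⟨h0, by simp [h]⟩)
  have h2 := Group.normalizerCondition_of_isNilpotent M hlt
  have h3 : ¬ (D ∩ normalizer (M : Set P) ⊆ I) := fun h => h2.not_ge (hM.2 h h2.le)
  obtain ⟨x, ⟨hxD, hxN⟩, hxI⟩ := Set.not_subset.1 h3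
  refine ⟨x, hxD, hxI, fun n => ⟨fun ⟨hn1, hn2⟩ => ?_, fun ⟨hn1, hn2⟩ => ?_⟩⟩
  · have h4 : x * n * x⁻¹ ∈ D := by simpa using hD n hn1 x⁻¹
    exact ⟨h4, hM.1 ⟨h4, (hxN n).1 (hIM hn2)⟩⟩
  · have h4 : n ∈ D := by simpa [mul_assoc] using hD _ hn1 x
    exact ⟨h4, hM.1 ⟨h4, (hxN n).2 (hIM hn2)⟩⟩

variable {G : Type*} [Group G]

theorem exists_normalizing' [Finite G] {D : Set G} (hD : ∀ d ∈ D, ∀ g, g⁻¹ * d * g ∈ D)
    {P : Subgroup G} (hP : IsPGroup 2 P) (Q : Subgroup G) (h : ¬ D ∩ P ⊆ D ∩ Q) :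
    ∃ x ∈ D ∩ P, x ∉ Q ∧ x ∈ normalizer (D ∩ P ∩ (D ∩ Q)) := by
  obtain ⟨x0, ⟨h0, h1⟩, h2⟩ := Set.not_subset.1 h
  have := hP.isNilpotent
  obtain ⟨x, hx1, hx2, hx3⟩ := exists_normalizing (P := P) (D := {p | p.1 ∈ D})
    (fun d hd g => hD d.1 hd g.1) (Q.subgroupOf P) (x0 := ⟨x0, h1⟩) h0 (fun h => h2 ⟨h0, h⟩)
  refine ⟨x.1, ⟨hx1, x.2⟩, hx2, fun n => ⟨fun ⟨⟨h3, h4⟩, _, h5⟩ => ?_, fun ⟨⟨h3, h4⟩, _, h5⟩ => ?_⟩⟩
  · obtain ⟨h6, h7⟩ := (hx3 ⟨n, h4⟩).1 ⟨h3, h5⟩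
    exact ⟨⟨h6, P.mul_mem (P.mul_mem x.2 h4) (P.inv_mem x.2)⟩, h6, h7⟩
  · have h8 : n ∈ P := by
      simpa [mul_assoc] using P.mul_mem (P.mul_mem (P.inv_mem x.2) h4) x.2
    obtain ⟨h6, h7⟩ := (hx3 ⟨n, h8⟩).2 ⟨h3, h5⟩
    exact ⟨⟨h6, h8⟩, h6, h7⟩

theorem isPGroup_zpowers {g : G} {k : ℕ} (h : g ^ 2 ^ k = 1) : IsPGroup 2 (zpowers g) := by
  rintro ⟨_, c, rfl⟩
  refine ⟨k, Subtype.ext ?_⟩
  change (g ^ c) ^ 2 ^ k = 1
  rw [← zpow_natCast, ← zpow_mul, mul_comm, zpow_mul, zpow_natCast, h, one_zpow]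

theorem IsC.pair {D : Set G} (hD : IsC D) {x y : G} (hx : x ∈ D) (hy : y ∈ D) :
    IsPGroup 2 (zpowers (x * y) ⊔ zpowers x : Subgroup G) := by
  have h1 : (x * y) ^ 2 ^ 2 = 1 := by
    rw [← hD.sq _ (hD.comm x hx y hy)]
    simp only [cm, show 2 ^ 2 = 4 from rfl, pow_succ, pow_zero, one_mul, mul_assoc]
  have h2 : x ^ 2 ^ 1 = 1 := by rw [pow_one, pow_two, hD.sq x hx]
  refine (isPGroup_zpowers h1).to_sup_of_normal_left' (isPGroup_zpowers h2) ?_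
  rw [zpowers_le, mem_normalizer_iff_map_conj_eq, MonoidHom.map_zpowers, ← zpowers_inv]
  congr 1
  simp only [MonoidHom.coe_coe, MulAut.conj_apply, mul_inv_rev, inv_of_sq (hD.sq x hx),
    inv_of_sq (hD.sq y hy), cancel_sq (hD.sq x hx)]

theorem IsC.isPGroup [Finite G] {D : Set G} (hD : IsC D) (hgen : closure D = ⊤) :
    IsPGroup 2 G := by
  let S : Set G → Prop := fun A => ∃ P : Subgroup G, IsPGroup 2 P ∧ A = D ∩ P
  have key : ∀ I : Set G, ∀ A B, Maximal S A → Maximal S B → A ∩ B = I → A = B := by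
    intro I
    induction I using WellFoundedGT.induction with
    | ind I ih =>
      intro A B hA hB hI
      by_contra hne
      have h1 : ¬ A ⊆ B := fun h => hne (hA.eq_of_le hB.1 h)
      have h2 : ¬ B ⊆ A := fun h => hne (hB.eq_of_le hA.1 h).symm
      obtain ⟨P, hP, rfl⟩ := hA.1
      obtain ⟨Q, hQ, rfl⟩ := hB.1
      obtain ⟨x, hx1, hx2, hx3⟩ := exists_normalizing' hD.conj hP Q h1
      obtain ⟨y, hy1, hy2, hy3⟩ := exists_normalizing' hD.conj hQ P h2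
      rw [Set.inter_comm] at hy3
      rw [hI] at hx3 hy3
      have hIP : IsPGroup 2 (closure I) := hP.to_le ((closure_le _).2 fun z hz => (hI ▸ hz).1.2)
      have hJ := hIP.to_sup_of_normal_left' (hD.pair hx1.1 hy1.1)
        (sup_le (zpowers_le.2 (normalizer_le_normalizer_closure I (mul_mem hx3 hy3)))
          (zpowers_le.2 (normalizer_le_normalizer_closure I hx3)))
      obtain ⟨C, hC1, hC⟩ := Finite.exists_le_maximal (p := S) ⟨_, hJ, rfl⟩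
      have hxC : x ∈ C := hC1 ⟨hx1.1, mem_sup_right (mem_sup_right (mem_zpowers x))⟩
      have hyC : y ∈ C := by
        refine hC1 ⟨hy1.1, mem_sup_right (T := zpowers (x * y) ⊔ zpowers x) ?_⟩
        simpa using mul_mem (inv_mem (mem_sup_right (S := zpowers (x * y)) (mem_zpowers x)))
          (mem_sup_left (mem_zpowers (x * y)))
      have hIC : I ⊆ C := fun z hz => hC1 ⟨(hI ▸ hz).1.1, mem_sup_left (subset_closure hz)⟩
      have e1 := ih (D ∩ P ∩ C) (lt_of_le_of_ne (fun z hz => ⟨(hI ▸ hz).1, hIC hz⟩)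
        fun h => hx2 (hI ▸ (h ▸ ⟨hx1, hxC⟩ : x ∈ I)).2.2) _ _ hA hC rfl
      have e2 := ih (D ∩ Q ∩ C) (lt_of_le_of_ne (fun z hz => ⟨(hI ▸ hz).2, hIC hz⟩)
        fun h => hy2 (hI ▸ (h ▸ ⟨hy1, hyC⟩ : y ∈ I)).1.2) _ _ hB hC rfl
      exact hne (e1.trans e2.symm)
  obtain ⟨A, -, hA⟩ := Finite.exists_le_maximal (p := S) ⟨⊥, IsPGroup.of_bot, rfl⟩
  have hDA : D ⊆ A := by
    intro d hd
    have h2 : d ^ 2 ^ 1 = 1 := by rw [pow_one, pow_two, hD.sq d hd]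
    obtain ⟨C, hC1, hC⟩ := Finite.exists_le_maximal (p := S) ⟨_, isPGroup_zpowers h2, rfl⟩
    rw [key _ A C hA hC rfl]
    exact hC1 ⟨hd, mem_zpowers d⟩
  obtain ⟨P, hP, rfl⟩ := hA.1
  have : (⊤ : Subgroup G) ≤ P := hgen ▸ (closure_le _).2 fun d hd => (hDA hd).2
  exact (hP.to_le this).of_equiv topEquiv

end Pool.Agent.P.MP_25cc86_al
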