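import Pool.Agent.P.MP_25cc86_al.Lv2

/-! The subgroup generated by the commutators with a norm of rank three has class at most three;
hence the norm dies in every quotient without thick elements. -/

namespace Pool.Agent.P.MP_25cc86_al

variable {G : Type*} [Group G] {D : Set G}

/-- `t` is a commutator of `y` with an element of `D`. -/
def InT (D : Set G) (y t : G) : Prop := ∃ x ∈ D, t = cm x y

/-- `z` centralizes all commutators of `y` with elements of `D`. -/
def CT (D : Set G) (y z : G) : Prop := ∀ t, InT D y t → Commute t z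

/-- `g` is an element of `D` that centralizes `y` and acts trivially modulo the centre. -/
def Gd (D : Set G) (y g : G) : Prop :=
  g ∈ D ∧ Commute y g ∧ ∀ t, InT D y t → CT D y (cm t g)

theorem cj_cm (x y g : G) : cj (cm x y) g = cm (cj x g) (cj y g) := by
  simp only [cj, cm]; group

theorem commute_of_cj {x g : G} (h : cj x g = x) : Commute x g := by
  have : x * g = g * cj x g := by simp only [cj]; group
  rw [h] at this
  exact this

theorem commute_cm {z a b : G} (h1 : Commute z a) (h2 : Commute z b) : Commute z (cm a b) :=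
  (h1.mul_right h2).mul_right (h1.mul_right h2)

theorem commute_cj_right {z a b : G} (h1 : Commute z a) (h2 : Commute z b) :
    Commute z (cj a b) :=
  (h2.inv_right.mul_right h1).mul_right h2

/-- Central involutions drop out of a commutator. -/
theorem cm_mul_mul {t s a b : G} (ha : a * a = 1) (hb : b * b = 1) (h1 : Commute t a)
    (h2 : Commute s a) (h3 : Commute t b) (h4 : Commute s b) (h5 : Commute a b) :
    cm (t * a) (s * b) = cm t s := by
  have e1 : t * a * (s * b) = t * s * (a * b) := by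
    rw [mul_assoc, ← mul_assoc a, ← h2.eq]; simp only [mul_assoc]
  have e2 : Commute (t * s) (a * b) := (h1.mul_left h2).mul_right (h3.mul_left h4)
  have e3 : a * b * (a * b) = 1 := by
    rw [mul_assoc, ← mul_assoc b, ← h5.eq, mul_assoc, hb, mul_one, ha]
  rw [cm, cm, e1]
  generalize t * s = w at e2 ⊢
  generalize a * b = z at e2 e3 ⊢
  rw [mul_assoc, ← mul_assoc z, ← e2.eq, mul_assoc, e3, mul_one]

namespace IsC

variable (hD : IsC D)
include hD

theorem cj_eq {a b : G} (ha : a ∈ D) (hb : b ∈ D) : cj a b = a * cm a b := by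
  rw [hD.cm_eq_cj hb, cancel_sq (hD.sq a ha)]

theorem t_mem {y t : G} (hy : y ∈ D) (h : InT D y t) : t ∈ D := by
  obtain ⟨x, hx, rfl⟩ := h
  exact hD.comm x hx y hy

theorem t_comm {y t : G} (hy : y ∈ D) (h : InT D y t) : Commute y t := by
  obtain ⟨x, hx, rfl⟩ := h
  exact hD.cm_comm_right hx hy

theorem t_cj {y t g : G} (h : InT D y t) (hg : Commute y g) : InT D y (cj t g) := by
  obtain ⟨x, hx, rfl⟩ := h
  exact ⟨cj x g, hD.conj x hx g, hD.cj_t hg⟩

theorem t_cm (hC : ∀ p ∈ D, ∀ q ∈ D, Commute p q → p * q ∈ D) {y t v : G} (hy : y ∈ D)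
    (h : InT D y t) (hv : v ∈ D) (hyv : Commute y v) : InT D y (cm t v) := by
  obtain ⟨x, hx, rfl⟩ := h
  exact ⟨cm x v, hD.comm x hx v hv, hD.t_cl hx hy hv hyv (hC y hy v hv hyv)⟩

theorem ct_cj {y z g : G} (h : CT D y z) (hg : g ∈ D) (hyg : Commute y g) :
    CT D y (cj z g) := by
  intro t ht
  have := commute_cj (h _ (hD.t_cj ht hyg)) g
  rwa [hD.cj_cj hg] at this

theorem gd_cj {y g c : G} (h : Gd D y g) (hc : c ∈ D) (hyc : Commute y c) :
    Gd D y (cj g c) := by
  refine ⟨hD.conj g h.1 c, commute_cj_right h.2.1 hyc, fun t ht => ?_⟩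
  have := hD.ct_cj (h.2.2 _ (hD.t_cj ht hyc)) hc hyc
  rwa [cj_cm, hD.cj_cj hc] at this

/-- An element that is central modulo the centre commutes with commutators. -/
theorem z2_comm {x t s : G} (hx : x ∈ D) (ht : t ∈ D) (hs : s ∈ D) (h1 : Commute s (cm x t))
    (h2 : Commute t (cm x s)) : Commute x (cm t s) := by
  have a1 : Commute t (cm x t) := hD.cm_comm_right hx ht
  have a2 : Commute s (cm x s) := hD.cm_comm_right hx hs
  have a3 : Commute x (cm x s) := hD.cm_comm_left hx hs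
  have a4 : Commute (cm x s) (cm x t) := commute_cm a3.symm h2.symm
  have m1 := hD.comm x hx t ht
  have m2 := hD.comm x hx s hs
  have cjm : ∀ a b g : G, cj (a * b) g = cj a g * cj b g := fun a b g => by
    simp only [cj]; group
  have e1 : cj x (t * s) = x * (cm x s * cm x t) := by
    rw [cj_mul, hD.cj_eq hx ht, cjm, hD.cj_eq hx hs, cj_of_commute h1.symm, mul_assoc]
  have e2 : Commute (cm x s * cm x t) (t * s) :=
    (h2.symm.mul_right a2.symm).mul_left (a1.symm.mul_right h1.symm)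
  refine commute_of_cj ?_
  rw [cm, cj_mul, e1, cjm, e1, cj_of_commute e2, mul_assoc, mul_assoc, ← mul_assoc (cm x t),
    ← a4.eq, mul_assoc, hD.sq _ m1, mul_one, hD.sq _ m2, mul_one]

/-- The action of an involution on a commutator, modulo the second centre. -/
theorem cm_cm_eq {t s x w : G} (ht : t ∈ D) (hs : s ∈ D) (hx : x ∈ D) (hw : w ∈ D)
    (h1 : Commute t x) (h2 : Commute s w) (h3 : Commute x w) (h4 : Commute t (cm x s))
    (h5 : Commute w (cm x s)) (h6 : Commute s (cm w t)) :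
    cm (t * x) (s * w) = cm t s * (cm x s * cm w t) := by
  have a1 : Commute x (cm x s) := hD.cm_comm_left hx hs
  have a2 : Commute s (cm x s) := hD.cm_comm_right hx hs
  have a3 : Commute w (cm w t) := hD.cm_comm_left hw ht
  have a4 : Commute t (cm w t) := hD.cm_comm_right hw ht
  have a5 : Commute x (cm w t) := commute_cm h3 h1.symm
  have a6 : Commute (cm x s) (cm w t) := commute_cm h5.symm h4.symm
  have e1 := hD.swap hx hs
  have e2 := hD.swap hw ht
  have q1 := hD.sq x hx
  have q2 := hD.sq w hw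
  generalize cm x s = c at *
  generalize cm w t = d at *
  have r1 : ∀ g, x * (s * g) = s * (x * (c * g)) := fun g => by
    rw [← mul_assoc, e1]; simp only [mul_assoc]
  have r2 : ∀ g, w * (t * g) = t * (w * (d * g)) := fun g => by
    rw [← mul_assoc, e2]; simp only [mul_assoc]
  have k : ∀ {a b : G}, Commute a b → ∀ g, b * (a * g) = a * (b * g) := fun h g => by
    rw [← mul_assoc, ← h.eq, mul_assoc]
  have z : t * x * (s * w) * (t * x * (s * w)) * 1 = t * s * (t * s) * (c * d) * 1 := by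
    simp only [mul_assoc]
    rw [r1, k h5, k h4, r2, k h1, k a1, k a5, k h3, cancel_sq q1, k a2, k h6, k h2, k h5, k a3,
      cancel_sq q2, k a6]
  simpa only [mul_one, cm] using z

section main

variable (hC : ∀ p ∈ D, ∀ q ∈ D, Commute p q → p * q ∈ D) {y u : G} (hy : y ∈ D)
include hC hy

theorem gd_comm {g t s : G} (hg : Gd D y g) (ht : InT D y t) (hs : InT D y s) :
    Commute (cm t s) g := by
  have mt := hD.t_mem hy ht
  have ms := hD.t_mem hy hs
  have c1 := hg.2.2 t ht
  have c2 := hg.2.2 s hs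
  refine commute_of_cj ?_
  rw [cj_cm, hD.cj_eq mt hg.1, hD.cj_eq ms hg.1]
  exact cm_mul_mul (hD.sq _ (hD.comm t mt g hg.1)) (hD.sq _ (hD.comm s ms g hg.1)) (c1 t ht)
    (c1 s hs) (c2 t ht) (c2 s hs) (c2 _ (hD.t_cm hC hy ht hg.1 hg.2.1))

theorem t_s2 {t v w : G} (ht : InT D y t) (hv : v ∈ D) (hw : w ∈ D) (h1 : Commute y v)
    (h2 : Commute y w) : Commute (cm t v) (cm w v) := by
  obtain ⟨x, hx, rfl⟩ := ht
  exact hD.s2 hy hx hw hv h2 h1 hC

variable (hu : u ∈ D) (hyu : Commute y u)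
  (h1 : ∀ z ∈ D, Commute z u → (∀ g, Gd D y g → Commute z g) → Sig D z y)
include hu hyu h1

omit hu hyu in
theorem ct_of {t s : G} (ht : InT D y t) (hs : InT D y s) (h : Commute (cm t s) u) :
    CT D y (cm t s) := by
  have m := hD.comm t (hD.t_mem hy ht) s (hD.t_mem hy hs)
  have h2 := hD.sig_symm (h1 _ m h fun g hg => hD.gd_comm hC hy hg ht hs)
  rintro _ ⟨x, hx, rfl⟩
  exact hD.sig_t hy h2 (commute_cm (hD.t_comm hy ht) (hD.t_comm hy hs)) hx

theorem ct_two {t s : G} (ht : InT D y t) (hs : InT D y s) : CT D y (cm (cm t u) s) := by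
  have mt := hD.t_mem hy ht
  have ms := hD.t_mem hy hs
  have mx := hD.comm t mt u hu
  refine hD.ct_of hC hy h1 (hD.t_cm hC hy ht hu hyu) hs (commute_of_cj ?_)
  have a1 : Commute (cm t u) u := (show Commute u _ from hD.cm_comm_right mt hu).symm
  have a2 := cj_of_commute (hD.t_s2 hC hy ht hu ms hyu (hD.t_comm hy hs))
  have ms' : cj s u ∈ D := hD.conj s ms u
  rw [hD.cm_eq_cj (a := s) hu, cj_mul] at a2
  have a3 := congrArg (fun z => cj z (cj s u)) a2
  simp only [hD.cj_cj ms'] at a3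
  rw [cj_cm, cj_of_commute a1, hD.cm_eq_cj ms', hD.cm_eq_cj ms, a3]

theorem ct_u {t s : G} (ht : InT D y t) (hs : InT D y s) : CT D y (cm (cm t s) u) := by
  have mt := hD.t_mem hy ht
  have ms := hD.t_mem hy hs
  have c1 := hD.ct_two hC hy hu hyu h1 ht hs
  have c2 := hD.ct_two hC hy hu hyu h1 hs ht
  have e : cm (cm t s) u = cm (cm t u) s * cm (cm s u) t := by
    rw [hD.cm_eq_cj hu, cj_cm, hD.cj_eq mt hu, hD.cj_eq ms hu,
      hD.cm_cm_eq mt ms (hD.comm t mt u hu) (hD.comm s ms u hu) (hD.cm_comm_left mt hu)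
        (hD.cm_comm_left ms hu) (hD.t_s2 hC hy ht hu ms hyu (hD.t_comm hy hs)) (c1 t ht)
        (c1 _ (hD.t_cm hC hy hs hu hyu)) (c2 s hs), cancel_sq (hD.sq _ (hD.comm t mt s ms))]
  rw [e]
  exact fun r hr => (c1 r hr).mul_right (c2 r hr)

theorem ct_three {t s r : G} (ht : InT D y t) (hs : InT D y s) (hr : InT D y r) :
    CT D y (cm (cm t s) r) := by
  have mt := hD.t_mem hy ht
  have ms := hD.t_mem hy hs
  have mr := hD.t_mem hy hr
  have hb := hD.t_cm hC hy ht ms (hD.t_comm hy hs)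
  have mb := hD.comm t mt s ms
  have c := hD.ct_u hC hy hu hyu h1 ht hs
  refine hD.ct_of hC hy h1 hb hr (commute_of_cj ?_)
  rw [cj_cm, hD.cj_eq mb hu, hD.cj_eq mr hu]
  refine cm_mul_mul (hD.sq _ (hD.comm _ mb u hu)) (hD.sq _ (hD.comm r mr u hu)) (c _ hb) (c r hr)
    ?_ (hD.cm_comm_left mr hu) (c _ (hD.t_cm hC hy hr hu hyu)).symm
  exact (hD.z2_comm (hD.comm r mr u hu) mt ms (hD.ct_two hC hy hu hyu h1 hr ht s hs)
    (hD.ct_two hC hy hu hyu h1 hr hs t ht)).symm

theorem img_one {H : Type*} [Group H] {f : G →* H} (hE : IsC (f '' D))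
    (hT : ∀ z ∈ f '' D, Thk (f '' D) z → z = 1) : f y = 1 := by
  have m : ∀ {z}, z ∈ D → f z ∈ f '' D := fun hz => ⟨_, hz, rfl⟩
  have it : ∀ {x}, x ∈ D → InT D y (cm y x) := fun hx => ⟨_, hx, hD.cm_symm hx hy⟩
  have s3 : ∀ b ∈ D, ∀ c ∈ D, ∀ x ∈ D,
      Commute (cm (cm (f y) (f b)) (cm (f y) (f c))) (cm (f y) (f x)) := by
    intro b hb c hc x hx
    have mb := hD.comm _ (hD.comm y hy b hb) _ (hD.comm y hy c hc)
    have mx := hD.comm y hy x hx
    have c3 := hD.ct_three hC hy hu hyu h1 (it hb) (it hc) (it hx)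
    have hv : cj (cm y c) b ∈ D := hD.conj _ (hD.comm y hy c hc) b
    have tk : Thk D (cm (cm (cm y b) (cm y c)) (cm y x)) := by
      rw [(hD.b_facts hy hb hc).1] at c3 ⊢
      exact hD.z2c hy hv hx fun z hz => (c3 _ (it hz)).symm
    simp only [← map_cm]
    refine hE.commute_of_cm (m mb) (m mx) ?_
    rw [← map_cm]
    exact hT _ (m (hD.comm _ mb _ mx)) (tk.image f)
  have s2 : ∀ b ∈ D, ∀ c ∈ D, Commute (cm (f y) (f b)) (cm (f y) (f c)) := by
    intro b hb c hc
    have mb := hE.comm _ (m hy) _ (m hb)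
    have mc := hE.comm _ (m hy) _ (m hc)
    refine hE.commute_of_cm mb mc (hT _ (hE.comm _ mb _ mc) (hE.z2c (m hy) (m hb) (m hc) ?_))
    rintro _ ⟨x, hx, rfl⟩
    exact s3 b hb c hc x hx
  refine hT _ (m hy) ?_
  rintro _ ⟨d, hd, rfl⟩ _ ⟨e, he, rfl⟩
  have a1 : Commute (f y) (cm (f y) (f d)) := hE.cm_comm_left (m hy) (m hd)
  have a2 : Commute (f y) (cm (f y) (f e)) := hE.cm_comm_left (m hy) (m he)
  have a3 : Commute (cj (f y) (f e)) (cj (f y) (f d)) := by
    rw [hE.cj_eq (m hy) (m he), hE.cj_eq (m hy) (m hd)]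
    exact ((Commute.refl _).mul_right a1).mul_left (a2.symm.mul_right (s2 e he d hd))
  have := commute_cj a3 (f e)
  rwa [hE.cj_cj (m he), ← cj_mul] at this

end main

theorem flat_comm (hC : ∀ p ∈ D, ∀ q ∈ D, Commute p q → p * q ∈ D) {u a p q : G} (hu : u ∈ D)
    (ha : a ∈ D) (hp : p ∈ D) (hq : q ∈ D) (c1 : Commute a p) (c2 : Commute a q)
    (c3 : Commute p q) : Commute (cm (cm (cm u a) p) q) u ∧ Commute (cm (cm (cm u a) p) q) a ∧
      Commute (cm (cm (cm u a) p) q) p ∧ Commute (cm (cm (cm u a) p) q) q := by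
  have sw : ∀ {x v w}, x ∈ D → v ∈ D → w ∈ D → Commute v w → cm (cm x v) w = cm (cm x w) v :=
    fun hx hv hw h => hD.t_cl hx hv hw h (hC _ hv _ hw h)
  have mua := hD.comm u hu a ha
  have mup := hD.comm u hu p hp
  refine ⟨?_, ?_, ?_, (show Commute q _ from hD.cm_comm_right (hD.comm _ mua p hp) hq).symm⟩
  · have cjm : ∀ a b g : G, cj (a * b) g = cj a g * cj b g := fun a b g => by
      simp only [cj]; group
    have k : ∀ {f}, f ∈ D → Commute u (cj u f) := fun hf => hD.comm_cj hu hf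
    have hap := hC a ha p hp c1
    rw [hD.cm_eq_cj hq, hD.cm_eq_cj hp, hD.cm_eq_cj ha]
    simp only [cjm, ← cj_mul]
    exact ((((Commute.refl u).mul_right (k ha)).mul_right ((k hp).mul_right (k hap))).mul_right
      (((k hq).mul_right (k (hC a ha q hq c2))).mul_right ((k (hC p hp q hq c3)).mul_right
        (k (hC _ hap q hq (c2.mul_left c3)))))).symm
  · rw [sw hu ha hp c1, sw mup ha hq c2]
    exact (show Commute a _ from hD.cm_comm_right (hD.comm _ mup q hq) ha).symm
  · rw [sw mua hp hq c3]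
    exact (show Commute p _ from hD.cm_comm_right (hD.comm _ mua q hq) hp).symm

end IsC

end Pool.Agent.P.MP_25cc86_al
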