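import Pool.Agent.P.MP_25cc86_al.Lv4

/-! The flat subgroup acts trivially modulo the centre. -/

namespace Pool.Agent.P.MP_25cc86_al

variable {G : Type*} [Group G] {D : Set G}

theorem cj_mul_left (a b g : G) : cj (a * b) g = cj a g * cj b g := by
  simp only [cj]; group

theorem cj_one (a : G) : cj a 1 = a := by simp [cj]

theorem prod_ten (φ : Fin 4 → Fin 4 → G) (h : ∀ i j k l, Commute (φ i j) (φ k l)) :
    φ 1 1 * φ 0 1 * (φ 1 0 * φ 0 0) * (φ 2 2 * φ 0 2 * (φ 2 0 * φ 0 0)) *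
      (φ 3 3 * φ 0 3 * (φ 3 0 * φ 0 0)) =
    φ 0 3 * φ 0 2 * (φ 0 1 * φ 0 0) * (φ 3 0 * φ 2 0 * (φ 1 0 * φ 0 0)) *
      (φ 0 0 * φ 1 1 * (φ 2 2 * φ 3 3)) := by
  have hp : ([(1, 1), (0, 1), (1, 0), (0, 0), (2, 2), (0, 2), (2, 0), (0, 0), (3, 3), (0, 3),
      (3, 0), (0, 0)] : List (Fin 4 × Fin 4)).Perm [(0, 3), (0, 2), (0, 1), (0, 0), (3, 0),
      (2, 0), (1, 0), (0, 0), (0, 0), (1, 1), (2, 2), (3, 3)] := by decide
  have := (hp.map fun z => φ z.1 z.2).prod_eq'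
    (List.pairwise_map.2 (List.pairwise_of_forall fun a b => h _ _ _ _))
  simpa only [List.map_cons, List.map_nil, List.prod_cons, List.prod_nil, mul_one, mul_assoc]
    using this

namespace IsC

variable (hD : IsC D) (hC : ∀ p ∈ D, ∀ q ∈ D, Commute p q → p * q ∈ D)
include hD hC

theorem star {a s z f : G} (ha : a ∈ D) (hs : InT D a s) (hz : z ∈ D) (hf : f ∈ D)
    (h1 : Commute a z) (h2 : Commute a f) : Commute (cm s z) (cj s f) := by
  have ms := hD.t_mem ha hs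
  obtain ⟨x, hx, rfl⟩ := hs
  have h3 := commute_cj (hD.s3 ha hx hz hf h1 h2 hC) f
  rw [cj_mul, hD.cj_cj hf] at h3
  rw [hD.cm_eq_cj hz]
  exact (hD.comm_cj ms hf).mul_left h3.symm

theorem exp_r {a s x f : G} (ha : a ∈ D) (hs : InT D a s) (hx : x ∈ D) (hf : f ∈ D)
    (h1 : Commute a x) (h2 : Commute a f) : cm x (cm s f) = cm x (cj s f) * cm x s := by
  have ms := hD.t_mem ha hs
  have h3 := hD.star hC ha hs hx hf h1 h2
  rw [hD.cm_symm hx ms] at h3
  rw [hD.cm_eq_cj (hD.comm s ms f hf), hD.cm_eq_cj hf, cj_mul, hD.cj_eq hx ms, cj_mul_left,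
    cj_of_commute h3, ← mul_assoc, ← hD.cm_eq_cj (show cj s f ∈ D from hD.conj s ms f)]

theorem exp_l {a s x f : G} (ha : a ∈ D) (hs : InT D a s) (hx : x ∈ D) (hf : f ∈ D)
    (h1 : Commute a x) (h2 : Commute a f) : cm (cm s f) x = cm (cj s f) x * cm s x := by
  have ms := hD.t_mem ha hs
  rw [hD.cm_symm hx (hD.comm s ms f hf), hD.exp_r hC ha hs hx hf h1 h2,
    hD.cm_symm hx (show cj s f ∈ D from hD.conj s ms f), hD.cm_symm hx ms]

theorem star' {a s z f g : G} (ha : a ∈ D) (hs : InT D a s) (hz : z ∈ D) (hf : f ∈ D)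
    (hg : g ∈ D) (h1 : Commute a z) (h2 : Commute a f) (h3 : Commute a g) (h4 : Commute f g) :
    Commute (cm (cj s f) z) (cj s g) := by
  have := hD.star hC ha (hD.t_cj hs h2) hz (hC f hf g hg h4) h1 (h2.mul_right h3)
  rwa [cj_mul, hD.cj_cj hf] at this

/-- The product formula in the star of `a`. -/
theorem tau_eq {a x m p q : G} (ha : a ∈ D) (hx : InT D a x) (hm : InT D a m) (hp : p ∈ D)
    (hq : q ∈ D) (c1 : Commute a p) (c2 : Commute a q) (c3 : Commute p q) :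
    cm (cm x p) (cm m p) * cm (cm x q) (cm m q) * cm (cm x (p * q)) (cm m (p * q)) =
      cm x (cm (cm m p) q) * cm (cm (cm x p) q) m * cm (cm (cm x m) p) q := by
  have mx := hD.t_mem ha hx
  have mm := hD.t_mem ha hm
  have ax := hD.t_comm ha hx
  have am := hD.t_comm ha hm
  have hr := hC p hp q hq c3
  have c4 := c1.mul_right c2
  have h1 : (1 : G) ∈ D := hD.sq p hp ▸ hC p hp p hp (Commute.refl p)
  have gD : ∀ i : Fin 4, (![1, p, q, p * q] : Fin 4 → G) i ∈ D := fun i => by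
    fin_cases i <;> assumption
  have ga : ∀ i : Fin 4, Commute a ((![1, p, q, p * q] : Fin 4 → G) i) := fun i => by
    fin_cases i
    exacts [Commute.one_right a, c1, c2, c4]
  have gp : ∀ i : Fin 4, Commute p ((![1, p, q, p * q] : Fin 4 → G) i) := fun i => by
    fin_cases i
    exacts [Commute.one_right p, Commute.refl p, c3, (Commute.refl p).mul_right c3]
  have gq : ∀ i : Fin 4, Commute q ((![1, p, q, p * q] : Fin 4 → G) i) := fun i => by
    fin_cases i
    exacts [Commute.one_right q, c3.symm, Commute.refl q, c3.symm.mul_right (Commute.refl q)]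
  have gg : ∀ i j : Fin 4, Commute ((![1, p, q, p * q] : Fin 4 → G) i)
      ((![1, p, q, p * q] : Fin 4 → G) j) := fun i j => by
    fin_cases i
    exacts [Commute.one_left _, gp j, gq j, (gp j).mul_left (gq j)]
  have key := prod_ten (fun i j => cm (cj x ((![1, p, q, p * q] : Fin 4 → G) i))
      (cj m ((![1, p, q, p * q] : Fin 4 → G) j))) fun i j k l => by
    have mi : cj x ((![1, p, q, p * q] : Fin 4 → G) i) ∈ D := hD.conj x mx _
    have mj : cj m ((![1, p, q, p * q] : Fin 4 → G) j) ∈ D := hD.conj m mm _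
    refine commute_cm (hD.star' hC ha hx mj (gD i) (gD k) (commute_cj_right am (ga j)) (ga i)
      (ga k) (gg i k)) ?_
    rw [hD.cm_symm mj mi]
    exact hD.star' hC ha hm mi (gD j) (gD l) (commute_cj_right ax (ga i)) (ga j) (ga l) (gg j l)
  simp only [Matrix.cons_val_zero, Matrix.cons_val_one, Matrix.cons_val, cj_one] at key
  have ec : ∀ {f}, f ∈ D → Commute a f → cm (cm x f) (cm m f) =
      cm (cj x f) (cj m f) * cm x (cj m f) * (cm (cj x f) m * cm x m) := fun hf h => by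
    rw [hD.exp_r hC ha hm (hD.comm x mx _ hf) hf (commute_cm ax h) h,
      hD.exp_l hC ha hx (x := cj m _) (hD.conj m mm _) hf (commute_cj_right am h) h,
      hD.exp_l hC ha hx mm hf am h]
  have eq : ∀ s, cj (cm s p) q = cm (cj s q) p := fun s => by
    rw [cj_cm, cj_of_commute c3]
  have er : ∀ s, cj (cj s q) p = cj s (p * q) := fun s => by rw [← cj_mul, c3.eq]
  rw [ec hp c1, ec hq c2, ec hr c4, key, hD.exp_r hC ha (hD.t_cm hC ha hm hp c1) mx hq ax c2,
    hD.exp_l hC ha (hD.t_cm hC ha hx hp c1) mm hq am c2, eq, eq,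
    hD.exp_r hC ha (hD.t_cj hm c2) mx hp ax c1, hD.exp_r hC ha hm mx hp ax c1,
    hD.exp_l hC ha (hD.t_cj hx c2) mm hp am c1, hD.exp_l hC ha hx mm hp am c1, er, er,
    hD.cm_eq_cj (a := cm (cm x m) p) hq, hD.cm_eq_cj (a := cm x m) hp, cj_mul_left, ← cj_mul,
    cj_cm x m p, cj_cm x m q, cj_cm x m (p * q)]

theorem norm_t {y v f g : G} (hv : v ∈ D) (hf : f ∈ D) (hg : g ∈ D) (c : Commute f g)
    (hy : y = cm (cm v f) g) (h1 : Commute y f) (h2 : Commute y g) :
    ∀ x ∈ D, cm (cm (cm x y) f) g = 1 := by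
  intro x hx
  have my : y ∈ D := hy ▸ hD.comm _ (hD.comm v hv f hf) g hg
  have mx := hD.comm x hx f hf
  rw [hD.t_cl hx my hf h1 (hC y my f hf h1), hD.t_cl mx my hg h2 (hC y my g hg h2)]
  refine hD.cm_eq_one (hD.comm _ mx g hg) my ?_
  rw [hy]
  exact hD.nn hx hv hf hg c hC

theorem flat_gd {u a p q : G} (hu : u ∈ D) (ha : a ∈ D) (hp : p ∈ D) (hq : q ∈ D)
    (c1 : Commute a p) (c2 : Commute a q) (c3 : Commute p q) :
    Gd D (cm (cm (cm u a) p) q) a := by
  obtain ⟨yu, ya, yp, yq⟩ := hD.flat_comm hC hu ha hp hq c1 c2 c3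
  refine ⟨ha, ya, ?_⟩
  rintro _ ⟨e, he, rfl⟩ _ ⟨d, hd, rfl⟩
  have sw : ∀ {x v w}, x ∈ D → v ∈ D → w ∈ D → Commute v w → cm (cm x v) w = cm (cm x w) v :=
    fun hx hv hw h => hD.t_cl hx hv hw h (hC _ hv _ hw h)
  have mua := hD.comm u hu a ha
  have mup := hD.comm u hu p hp
  have muq := hD.comm u hu q hq
  have mea := hD.comm e he a ha
  have hr := hC p hp q hq c3
  have e1 : cm (cm (cm u a) p) q = cm (cm (cm u p) a) q := by rw [sw hu ha hp c1]
  have e2 : cm (cm (cm u a) p) q = cm (cm (cm u q) a) p := by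
    rw [sw mua hp hq c3, sw hu ha hq c2]
  have e3 : cm (cm (cm u a) p) q = cm (cm (cm u p) a) (p * q) := by
    have : Commute (cm (cm u a) p) p := (show Commute p _ from hD.cm_comm_right mua hp).symm
    rw [← sw hu ha hp c1, hD.cm_eq_cj hr, hD.cm_eq_cj hq, cj_mul, cj_of_commute this]
  have e4 : cm (cm (cm e a) p) q = cm (cm (cm e p) q) a := by
    rw [sw he ha hp c1, sw (hD.comm e he p hp) ha hq c2]
  have hy := hD.comm _ (hD.comm _ mua p hp) q hq
  have key := hD.tau_eq hC ha ⟨e, he, rfl⟩ ⟨u, hu, rfl⟩ hp hq c1 c2 c3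
  have n0 := hD.nn mua he hp hq c3 hC
  have n1 := hD.norm_t hC mua hp hq c3 rfl yp yq
  generalize cm (cm (cm u a) p) q = y at *
  have sc : ∀ {f v}, f ∈ D → v ∈ D → Commute a f → Commute y f → y = cm (cm v a) f →
      Sig D y (cm (cm (cm e a) f) (cm (cm u a) f)) := fun hf hv h1 h2 h3 => by
    rw [hD.cm_symm (hD.comm _ mua _ hf) (hD.comm _ mea _ hf)]
    refine hD.sig_cm (hD.b1 hy hu ha hf yu ya h2 h1 (hD.norm_t hC hv ha hf h1 h3 ya h2) hC)
      (hD.comm _ mea _ hf) ?_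
    rw [h3]
    exact hD.nn hv he ha hf h1 hC
  have sb : Sig D y (cm (cm (cm (cm e a) p) q) (cm u a)) := by
    rw [e4]
    exact hD.b2 hy ha (hD.comm _ (hD.comm e he p hp) q hq) hu ya n0 yu hC
  have ym := commute_cm yu ya
  have mk := hD.comm _ mea _ mua
  have yk : Commute y (cm (cm e a) (cm u a)) := by
    refine (hD.commute_of_cm mk hy ?_).symm
    rw [← sw mea hy mua ym, ← sw he hy ha ya]
    exact hD.cm_eq_one (hD.comm _ (hD.comm e he y hy) a ha) mua (hD.s2 hy he hu ha yu ya hC)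
  have sn := hD.b1 hy mk hp hq yk yp yq c3 n1 hC
  have s1 := hD.sig_mul (hD.sig_mul (sc hp muq c1 yp e2) (sc hq mup c2 yq e1))
    (sc hr mup (c1.mul_right c2) (yp.mul_right yq) e3)
  have s2 := hD.sig_mul (hD.sig_mul s1 sn) sb
  rw [key, mul_assoc _ _ (cm (cm (cm (cm e a) (cm u a)) p) q),
    hD.sq _ (hD.comm _ (hD.comm _ mk p hp) q hq), mul_one, mul_assoc,
    hD.sq _ (hD.comm _ (hD.comm _ (hD.comm _ mea p hp) q hq) _ mua), mul_one] at s2
  rw [sw he hy ha ya]
  exact hD.sig_t hy s2 (hD.cm_comm_right mea hy) hd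

end IsC

end Pool.Agent.P.MP_25cc86_al
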