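import Pool.Agent.P.MP_25cc86_al.Lv5

/-! The lemma on norms of rank three and the finiteness theorem. -/

namespace Pool.Agent.P.MP_25cc86_al

variable {G : Type*} [Group G] {D : Set G}

theorem prod_eight (φ : Fin 3 → Fin 8 → G) (h : ∀ i j k l, Commute (φ i j) (φ k l))
    (h0 : φ 0 0 * φ 0 0 = 1) (h1 : φ 1 0 * φ 1 0 = 1)
    (n1 : φ 1 0 * φ 1 1 * (φ 1 2 * φ 1 3) * (φ 1 4 * φ 1 5 * (φ 1 6 * φ 1 7)) = 1)
    (n2 : φ 2 0 * φ 2 1 * (φ 2 2 * φ 2 3) * (φ 2 4 * φ 2 5 * (φ 2 6 * φ 2 7)) = 1)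
    (c : Fin 8 → G) (hc : ∀ j, c j = φ 0 0 * (φ 1 j * (φ 1 0 * φ 2 j))) :
    c 0 * c 1 * (c 2 * c 3) * (c 4 * c 5 * (c 6 * c 7)) = 1 := by
  have hp : ([(0, 0), (1, 0), (1, 0), (2, 0), (0, 0), (1, 1), (1, 0), (2, 1), (0, 0), (1, 2),
      (1, 0), (2, 2), (0, 0), (1, 3), (1, 0), (2, 3), (0, 0), (1, 4), (1, 0), (2, 4), (0, 0),
      (1, 5), (1, 0), (2, 5), (0, 0), (1, 6), (1, 0), (2, 6), (0, 0), (1, 7), (1, 0), (2, 7)] :
      List (Fin 3 × Fin 8)).Perm [(0, 0), (0, 0), (0, 0), (0, 0), (0, 0), (0, 0), (0, 0), (0, 0),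
      (1, 0), (1, 0), (1, 0), (1, 0), (1, 0), (1, 0), (1, 0), (1, 0), (1, 0), (1, 1), (1, 2),
      (1, 3), (1, 4), (1, 5), (1, 6), (1, 7), (2, 0), (2, 1), (2, 2), (2, 3), (2, 4), (2, 5),
      (2, 6), (2, 7)] := by decide
  have := (hp.map fun z => φ z.1 z.2).prod_eq'
    (List.pairwise_map.2 (List.pairwise_of_forall fun a b => h _ _ _ _))
  simp only [List.map_cons, List.map_nil, List.prod_cons, List.prod_nil, mul_one] at this
  simp only [hc, mul_assoc] at n1 n2 ⊢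
  rw [this, n2, mul_one, cancel_sq h0, cancel_sq h0, cancel_sq h0, cancel_sq h0, cancel_sq h1,
    cancel_sq h1, cancel_sq h1, cancel_sq h1, n1]

/-- Displacements add up. -/
theorem cj_add {s g h c d : G} (h1 : cj s g = s * c) (h2 : cj s h = s * d) (h3 : Commute d g)
    (h4 : Commute g h) : cj s (g * h) = s * (c * d) := by
  rw [h4.eq, cj_mul, h2, cj_mul_left, h1, cj_of_commute h3, mul_assoc]

namespace IsC

variable (hD : IsC D) (hC : ∀ p ∈ D, ∀ q ∈ D, Commute p q → p * q ∈ D)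
include hD hC

theorem mod_eight {z s u : G} (hz : z ∈ D) (hs : InT D z s) (hu : u ∈ D) (zu : Commute z u)
    (g : Fin 8 → G) (g0 : g 0 = 1) (gD : ∀ i, g i ∈ D) (gz : ∀ i, Commute z (g i))
    (gg : ∀ i j, Commute (g i) (g j))
    (hn : ∀ t, InT D z t → cj t (g 0) * cj t (g 1) * (cj t (g 2) * cj t (g 3)) *
      (cj t (g 4) * cj t (g 5) * (cj t (g 6) * cj t (g 7))) = 1) :
    Commute s (cj u (g 0) * cj u (g 1) * (cj u (g 2) * cj u (g 3)) *
      (cj u (g 4) * cj u (g 5) * (cj u (g 6) * cj u (g 7)))) := by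
  have ms := hD.t_mem hz hs
  have mu : ∀ i, cj u (g i) ∈ D := fun i => hD.conj u hu _
  have zi : ∀ i, Commute z (cj u (g i)) := fun i => commute_cj_right zu (gz i)
  have m2 : ∀ i j, g i * g j ∈ D := fun i j => hC _ (gD i) _ (gD j) (gg i j)
  have ej : ∀ (x : G) i j, cj (cj x (g i)) (g i * g j) = cj x (g j) := fun x i j => by
    rw [cj_mul, hD.cj_cj (gD i)]
  have uu : ∀ i j, Commute (cj u (g i)) (cj u (g j)) := fun i j => by
    rw [← ej u i j]; exact hD.comm_cj (mu i) (m2 i j)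
  have cu : ∀ i j, Commute (cm s (cj u (g i))) (cj u (g j)) := fun i j => by
    rw [← ej u i j, hD.cj_eq (mu i) (m2 i j), ← hD.cm_symm (mu i) (m2 i j)]
    exact (show Commute _ _ from hD.cm_comm_right ms (mu i)).symm.mul_right
      (hD.t_s2 hC hz hs (mu i) (m2 i j) (zi i) ((gz i).mul_right (gz j)))
  have s3 : ∀ {t v w}, InT D z t → v ∈ D → w ∈ D → Commute z v → Commute z w →
      Commute t (cj t (v * w)) := fun ⟨x, hx, e⟩ hv hw h1 h2 =>
    e ▸ hD.s3 hz hx hv hw h1 h2 hC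
  have hsu := hD.t_cj hs zu
  have msu := hD.t_mem hz hsu
  have b01 : ∀ l, Commute s (cj (cj s u) (g l)) := fun l => by
    rw [← cj_mul]; exact s3 hs hu (gD l) zu (gz l)
  have b02 : ∀ l, Commute s (cj (cj s (g l)) u) := fun l => by
    rw [← cj_mul]; exact s3 hs (gD l) hu (gz l) zu
  have bt : ∀ {t}, t ∈ D → ∀ j l, Commute (cj t (g j)) (cj t (g l)) := fun ht j l => by
    rw [← ej _ j l]; exact hD.comm_cj (hD.conj _ ht _) (m2 j l)
  have b12 : ∀ j l, Commute (cj (cj s u) (g j)) (cj (cj s (g l)) u) := fun j l => by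
    have h1 := commute_cj (commute_cj (s3 hs (gD l) (hD.conj _ (gD j) u) (gz l)
      (commute_cj_right (gz j) zu)) u) (g j)
    have h2 : cj (cj (cj s (g l * (u⁻¹ * g j * u))) u) (g j) = cj (cj s (g l)) u := by
      rw [← cj_mul, ← cj_mul, ← cj_mul, inv_of_sq (hD.sq u hu)]
      simp only [mul_assoc, cancel_sq (hD.sq u hu), hD.sq _ (gD j), mul_one]
    rwa [h2] at h1
  have key := prod_eight (fun i j => (![s, cj (cj s u) (g j), cj (cj s (g j)) u] : Fin 3 → G) i)
    (fun i j k l => by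
      fin_cases i <;> fin_cases k
      exacts [Commute.refl s, b01 l, b02 l, (b01 j).symm, bt msu j l, b12 j l, (b02 j).symm,
        (b12 l j).symm, commute_cj (bt ms j l) u])
    (hD.sq s ms) (hD.sq _ (hD.conj _ msu _)) (hn _ hsu)
    (by
      have := congrArg (fun x => cj x u) (hn s hs)
      simp only [cj_mul_left] at this
      exact this.trans (by simp [cj]))
    (fun j => cm s (cj u (g j))) fun j => by
      have h1 := commute_cj (hD.t_s2 hC hz hs (gD j) hu (gz j) zu) u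
      have h2 : Commute (cj (cm s (g j)) u) (cj (g j) u) :=
        commute_cj (show Commute _ _ from hD.cm_comm_right ms (gD j)).symm u
      have h3 : cj (g j) u * cj (cm u (g j)) u = g j := by
        rw [← cj_mul_left, hD.cm_symm (gD j) hu, ← hD.cj_eq (gD j) hu, hD.cj_cj hu]
      have h4 := cj_of_commute (h2.mul_right h1)
      rw [h3, hD.cm_eq_cj (gD j), cj_mul_left, cj_mul_left] at h4
      have h5 : cj s (cj u (g j)) = cj (cj (cj s (g j)) u) (g j) := by
        rw [← cj_mul, ← cj_mul, cj, cj, cj, inv_of_sq (hD.sq _ (gD j)), mul_assoc (g j)]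
      change _ = s * (cj (cj s u) (g j) * (cj (cj s u) (g 0) * cj (cj s (g j)) u))
      rw [hD.cm_eq_cj (mu j), h5, g0, cj_one, ← h4,
        cancel_sq (hD.sq (cj (cj s u) (g j)) (hD.conj _ msu _))]
  have e : ∀ i, cj s (cj u (g i)) = s * cm s (cj u (g i)) := fun i => hD.cj_eq ms (mu i)
  have e2 : ∀ i j, cj s (cj u (g i) * cj u (g j)) =
      s * (cm s (cj u (g i)) * cm s (cj u (g j))) := fun i j =>
    cj_add (e i) (e j) (cu j i) (uu i j)
  have c2 : ∀ i j k l, Commute (cm s (cj u (g i)) * cm s (cj u (g j)))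
      (cj u (g k) * cj u (g l)) := fun i j k l =>
    ((cu i k).mul_right (cu i l)).mul_left ((cu j k).mul_right (cu j l))
  have u2 : ∀ i j k l, Commute (cj u (g i) * cj u (g j)) (cj u (g k) * cj u (g l)) :=
    fun i j k l => ((uu i k).mul_right (uu i l)).mul_left ((uu j k).mul_right (uu j l))
  refine commute_of_cj ?_
  rw [cj_add (cj_add (e2 0 1) (e2 2 3) (c2 _ _ _ _) (u2 _ _ _ _))
    (cj_add (e2 4 5) (e2 6 7) (c2 _ _ _ _) (u2 _ _ _ _))
    (((c2 _ _ _ _).mul_right (c2 _ _ _ _)).mul_left ((c2 _ _ _ _).mul_right (c2 _ _ _ _)))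
    (((u2 _ _ _ _).mul_right (u2 _ _ _ _)).mul_left ((u2 _ _ _ _).mul_right (u2 _ _ _ _))),
    key, mul_one]

theorem flat_sig {u a p q z : G} (hu : u ∈ D) (ha : a ∈ D) (hp : p ∈ D) (hq : q ∈ D)
    (hz : z ∈ D) (c1 : Commute a p) (c2 : Commute a q) (c3 : Commute p q) (zu : Commute z u)
    (za : Commute z a) (zp : Commute z p) (zq : Commute z q)
    (hn : ∀ x ∈ D, Commute z (cm (cm (cm x a) p) q)) : Sig D z (cm (cm (cm u a) p) q) := by
  have hap := hC a ha p hp c1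
  have h1 : (1 : G) ∈ D := hD.sq p hp ▸ hC p hp p hp (Commute.refl p)
  have en : ∀ x : G, cm (cm (cm x a) p) q = cj x 1 * cj x a * (cj x p * cj x (a * p)) *
      (cj x q * cj x (a * q) * (cj x (p * q) * cj x (a * p * q))) := fun x => by
    rw [hD.cm_eq_cj hq, hD.cm_eq_cj hp, hD.cm_eq_cj ha]
    simp only [cj_mul_left, ← cj_mul, cj_one]
  have all : ∀ {w : G}, Commute w a → Commute w p → Commute w q → ∀ i : Fin 8,
      Commute w ((![1, a, p, a * p, q, a * q, p * q, a * p * q] : Fin 8 → G) i) :=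
    fun k1 k2 k3 i => by
      fin_cases i
      exacts [Commute.one_right _, k1, k2, k1.mul_right k2, k3, k1.mul_right k3,
        k2.mul_right k3, (k1.mul_right k2).mul_right k3]
  refine hD.sig_of hz (hn u hu) fun x hx => ?_
  rw [en u]
  refine hD.mod_eight hC hz ⟨x, hx, rfl⟩ hu zu ![1, a, p, a * p, q, a * q, p * q, a * p * q] rfl
    (fun i => ?_) (all za zp zq) (fun i j => ?_) ?_
  · fin_cases i
    exacts [h1, ha, hp, hap, hq, hC a ha q hq c2, hC p hp q hq c3,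
      hC _ hap q hq (c2.mul_left c3)]
  · exact all (all (Commute.refl a) c1 c2 i).symm (all c1.symm (Commute.refl p) c3 i).symm
      (all c2.symm c3.symm (Commute.refl q) i).symm j
  · rintro _ ⟨d, hd, rfl⟩
    have mda := hD.comm d hd a ha
    have mdp := hD.comm _ mda p hp
    refine (en (cm d z)).symm.trans ?_
    rw [hD.t_cl hd hz ha za (hC z hz a ha za), hD.t_cl mda hz hp zp (hC z hz p hp zp),
      hD.t_cl mdp hz hq zq (hC z hz q hq zq)]
    exact hD.cm_eq_one (hD.comm _ mdp q hq) hz (hn d hd).symm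

/-- The norm of rank three dies in a quotient without thick elements. -/
theorem norm_one {H : Type*} [Group H] {f : G →* H} (hE : IsC (f '' D))
    (hT : ∀ z ∈ f '' D, Thk (f '' D) z → z = 1) :
    ∀ u ∈ D, ∀ a ∈ D, ∀ p ∈ D, ∀ q ∈ D, Commute a p → Commute a q → Commute p q →
      cm (cm (cm (f u) (f a)) (f p)) (f q) = 1 := by
  intro u hu a ha p hp q hq c1 c2 c3
  have sw : ∀ {x v w}, x ∈ D → v ∈ D → w ∈ D → Commute v w → cm (cm x v) w = cm (cm x w) v :=
    fun hx hv hw h => hD.t_cl hx hv hw h (hC _ hv _ hw h)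
  have mua := hD.comm u hu a ha
  have ga := hD.flat_gd hC hu ha hp hq c1 c2 c3
  have gp := hD.flat_gd hC hu hp ha hq c1.symm c3 c2
  have gq := hD.flat_gd hC hu hq ha hp c2.symm c3.symm c1
  rw [← sw hu ha hp c1] at gp
  rw [← sw hu ha hq c2, ← sw mua hp hq c3] at gq
  simp only [← map_cm]
  refine hD.img_one hC (hD.comm _ (hD.comm _ mua p hp) q hq) hu
    (hD.flat_comm hC hu ha hp hq c1 c2 c3).1 (fun z hz hzu hg => ?_) hE hT
  refine hD.flat_sig hC hu ha hp hq hz c1 c2 c3 hzu (hg a ga) (hg p gp) (hg q gq) fun x hx => ?_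
  have mv := hD.comm _ (hD.comm x hx p hp) q hq
  rw [sw hx ha hp c1, sw (hD.comm x hx p hp) ha hq c2, hD.cm_symm ha mv, hD.cm_eq_cj mv]
  exact (hg a ga).mul_right (hg _ (hD.gd_cj ga mv (hD.nn mua hx hp hq c3 hC)))

/-- The finiteness theorem. -/
theorem finite_two {n : ℕ} (x : Fin n → G) (hx : ∀ i, x i ∈ D)
    (hgen : Subgroup.closure (Set.range x) = ⊤) : Finite G ∧ IsPGroup 2 G := by
  refine hD.final x hx hgen fun M _ hT a ha => ?_
  have hE := hD.image _ (QuotientGroup.mk'_surjective M)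
  exact law_one hD hC hE (hD.norm_one hC hE hT) hT ⟨a, ha, rfl⟩

end IsC

end Pool.Agent.P.MP_25cc86_al
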