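import Pool.Agent.P.MP_25cc86_al.Modl
import Pool.Agent.P.MP_25cc86_al.Baer

/-! The universal group and the main theorem. -/

namespace Pool.Agent.P.MP_25cc86_al

open Subgroup

theorem map_cm {G H : Type*} [Group G] [Group H] (f : G →* H) (a b : G) :
    f (cm a b) = cm (f a) (f b) := by simp only [cm, map_mul]

theorem IsC.image {G H : Type*} [Group G] [Group H] {D : Set G} (hD : IsC D) (f : G →* H)
    (hf : Function.Surjective f) : IsC (f '' D) where
  sq := by rintro _ ⟨d, hd, rfl⟩; rw [← map_mul, hD.sq d hd, map_one]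
  conj := by
    rintro _ ⟨d, hd, rfl⟩ g
    obtain ⟨g, rfl⟩ := hf g
    exact ⟨_, hD.conj d hd g, by simp⟩
  comm := by
    rintro _ ⟨a, ha, rfl⟩ _ ⟨b, hb, rfl⟩
    exact ⟨_, hD.comm a ha b hb, map_cm f a b⟩

theorem IsC.quot {G : Type*} [Group G] {D : Set G} (hD : IsC D) (hgen : closure D = ⊤)
    (N : Subgroup G) [N.Normal] [N.FiniteIndex] : IsPGroup 2 (G ⧸ N) := by
  refine (hD.image (QuotientGroup.mk' N) (QuotientGroup.mk'_surjective N)).isPGroup ?_
  rw [← MonoidHom.map_closure, hgen, map_top_of_surjective _ (QuotientGroup.mk'_surjective N)]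

theorem map_gam {G H : Type*} [Group G] [Group H] (f : G →* H) (hf : Function.Surjective f)
    (i : ℕ) : (gam G i).map f = gam H i := by
  rw [map_lowerCentralSeries, map_top_of_surjective _ hf]

/-- Words forced to represent elements of order at most two. -/
inductive DD (n : ℕ) : FreeGroup (Fin n) → Prop
  | gen (i : Fin n) : DD n (FreeGroup.of i)
  | conj {d : FreeGroup (Fin n)} (g : FreeGroup (Fin n)) : DD n d → DD n (g⁻¹ * d * g)
  | comm {a b : FreeGroup (Fin n)} : DD n a → DD n b → DD n (cm a b)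

/-- The defining normal subgroup of the universal group. -/
def NN (n : ℕ) : Subgroup (FreeGroup (Fin n)) := normalClosure {w | ∃ d, DD n d ∧ w = d * d}

instance (n : ℕ) : (NN n).Normal := normalClosure_normal

theorem isC_univ (n : ℕ) : IsC (QuotientGroup.mk' (NN n) '' {d | DD n d}) where
  sq := by
    rintro _ ⟨d, hd, rfl⟩
    rw [← map_mul]
    exact (QuotientGroup.eq_one_iff _).2 (subset_normalClosure ⟨d, hd, rfl⟩)
  conj := by
    rintro _ ⟨d, hd, rfl⟩ g
    obtain ⟨g, rfl⟩ := QuotientGroup.mk'_surjective (NN n) g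
    exact ⟨_, DD.conj g hd, by simp only [map_mul, map_inv]⟩
  comm := by
    rintro _ ⟨a, ha, rfl⟩ _ ⟨b, hb, rfl⟩
    exact ⟨_, DD.comm ha hb, map_cm _ a b⟩

theorem gen_univ (n : ℕ) :
    closure (Set.range fun i : Fin n => QuotientGroup.mk' (NN n) (FreeGroup.of i)) = ⊤ := by
  rw [Set.range_comp' (QuotientGroup.mk' (NN n)) FreeGroup.of, ← MonoidHom.map_closure,
    FreeGroup.closure_range_of, map_top_of_surjective _ (QuotientGroup.mk'_surjective _)]

theorem main (n : ℕ) : ∃ c B : ℕ, ∀ (G : Type*) [Group G] (D : Set G), IsC D →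
    ∀ x : Fin n → G, (∀ i, x i ∈ D) → closure (Set.range x) = ⊤ →
    (∃ k, (gam G c).index = 2 ^ k) ∧ (gam G c).index ≤ B ∧ ⁅gam G c, gam G c⁆ = gam G c ∧
      ∀ H : Subgroup G, H.FiniteIndex → gam G c ≤ H := by
  have hg : ∀ i : Fin n, QuotientGroup.mk' (NN n) (FreeGroup.of i) ∈
      QuotientGroup.mk' (NN n) '' {d | DD n d} := fun i => ⟨_, DD.gen i, rfl⟩
  obtain ⟨c, hc1, hc2⟩ := (isC_univ n).exists_c hg (gen_univ n)
  have hB := (isC_univ n).gam_index (Set.finite_range _) (Set.range_subset_iff.2 hg)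
    (gen_univ n) c
  refine ⟨c, (gam (FreeGroup (Fin n) ⧸ NN n) c).index, fun G _ D hD x hx hgen => ?_⟩
  have hgen' : closure D = ⊤ :=
    top_le_iff.1 (hgen.ge.trans (closure_mono (Set.range_subset_iff.2 hx)))
  have h1 : ∀ d, DD n d → FreeGroup.lift x d ∈ D := by
    intro d hd
    induction hd with
    | gen i => simpa using hx i
    | conj g _ ih => simpa using hD.conj _ ih (FreeGroup.lift x g)
    | comm _ _ iha ihb => rw [map_cm]; exact hD.comm _ iha _ ihb
  have h2 : NN n ≤ (FreeGroup.lift x).ker := by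
    refine normalClosure_le_normal ?_
    rintro _ ⟨d, hd, rfl⟩
    simpa using hD.sq _ (h1 d hd)
  let ψ := QuotientGroup.lift (NN n) (FreeGroup.lift x) h2
  have hψ : Function.Surjective ψ := by
    rw [← MonoidHom.range_eq_top, ← top_le_iff, ← hgen, closure_le]
    rintro _ ⟨i, rfl⟩
    exact ⟨QuotientGroup.mk (FreeGroup.of i), by simp [ψ]⟩
  have h3 : (gam G c).index ∣ (gam (FreeGroup (Fin n) ⧸ NN n) c).index :=
    map_gam ψ hψ c ▸ index_map_dvd _ hψ
  have h4 : (gam G c).FiniteIndex := ⟨ne_zero_of_dvd_ne_zero hB h3⟩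
  refine ⟨IsPGroup.iff_card.1 (hD.quot hgen' _),
    Nat.le_of_dvd (Nat.pos_of_ne_zero hB) h3, ?_, fun H hH => ?_⟩
  · rw [← map_gam ψ hψ, ← map_commutator, hc2]
  · have := (hD.quot hgen' H.normalCore).isNilpotent
    obtain ⟨m, hm⟩ := Subgroup.nilpotent_iff_lowerCentralSeries.1 this
    have h5 : gam G m ≤ H.normalCore := by
      rw [le_iff_map_bot, map_gam _ (QuotientGroup.mk'_surjective _)]
      exact hm
    refine le_trans ?_ (h5.trans H.normalCore_le)
    rw [← map_gam ψ hψ, ← map_gam ψ hψ]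
    exact map_mono (hc1 m)

theorem isC_of_pow {G : Type*} [Group G]
    (h : ∀ u v : G, orderOf u = 2 → orderOf v = 2 → (u * v) ^ 4 = 1) :
    IsC {u : G | u * u = 1} where
  sq _ hd := hd
  conj d hd g := by
    have : d * d = 1 := hd
    simp only [Set.mem_ofPred_eq, mul_assoc, mul_inv_cancel_left, cancel_sq this, inv_mul_cancel]
  comm a ha b hb := by
    have ha' : a * a = 1 := ha
    have hb' : b * b = 1 := hb
    by_cases h1 : a = 1
    · simp [cm, h1, hb']
    by_cases h2 : b = 1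
    · simp [cm, h2, ha']
    have := h a b (orderOf_eq_prime (by rw [pow_two, ha']) h1)
      (orderOf_eq_prime (by rw [pow_two, hb']) h2)
    simpa only [cm, Set.mem_ofPred_eq, pow_succ, pow_zero, one_mul, mul_assoc] using this

end Pool.Agent.P.MP_25cc86_al
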