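import Pool.Agent.P.MP_25cc86_al.Thick

/-! Facts on the lower central series. -/

namespace Pool.Agent.P.MP_25cc86_al

open Subgroup
open scoped commutatorElement

variable {G : Type*} [Group G]

/-- The terms of the lower central series, indexed from zero. -/
abbrev gam (G : Type*) [Group G] (i : ℕ) : Subgroup G := (⊤ : Subgroup G).lowerCentralSeries i

theorem gam_succ (i : ℕ) : gam G (i + 1) = ⁅gam G i, ⊤⁆ := rfl

theorem gam_anti {i j : ℕ} (h : i ≤ j) : gam G j ≤ gam G i :=
  Subgroup.lowerCentralSeries_antitone _ h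

theorem le_iff_map_bot {H : Subgroup G} (N : Subgroup G) [N.Normal] :
    H ≤ N ↔ H.map (QuotientGroup.mk' N) = ⊥ := by
  rw [Subgroup.map_eq_bot_iff, QuotientGroup.ker_mk']

theorem three_subgroups {A B C N : Subgroup G} [N.Normal] (h1 : ⁅⁅B, C⁆, A⁆ ≤ N)
    (h2 : ⁅⁅C, A⁆, B⁆ ≤ N) : ⁅⁅A, B⁆, C⁆ ≤ N := by
  rw [le_iff_map_bot, map_commutator, map_commutator] at h1 h2 ⊢
  exact commutator_commutator_eq_bot_of_rotate h1 h2

theorem gam_comm (j : ℕ) : ∀ i, ⁅gam G i, gam G j⁆ ≤ gam G (i + j + 1) := by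
  induction j with
  | zero => exact fun i => le_rfl
  | succ j ih =>
    intro i
    rw [commutator_comm, gam_succ j]
    refine three_subgroups ?_ ?_
    · rw [commutator_comm ⊤, ← gam_succ]
      exact (ih (i + 1)).trans (gam_anti (by omega))
    · exact commutator_mono (ih i) le_rfl

theorem comm_le_of_gen {S T : Set G} (L : Subgroup G) [L.Normal]
    (h : ∀ s ∈ S, ∀ t ∈ T, ⁅s, t⁆ ∈ L) : ⁅closure S, closure T⁆ ≤ L := by
  rw [le_iff_map_bot, map_commutator, MonoidHom.map_closure, MonoidHom.map_closure,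
    commutator_eq_bot_iff_le_centralizer, centralizer_closure, closure_le]
  rintro _ ⟨s, hs, rfl⟩ _ ⟨t, ht, rfl⟩
  have := (QuotientGroup.eq_one_iff _).2 (h s hs t ht)
  change QuotientGroup.mk' L _ = 1 at this
  rw [map_commutatorElement, commutatorElement_eq_one_iff_mul_comm] at this
  exact this.symm

theorem IsC.comm_eq {D : Set G} (hD : IsC D) {a b : G} (ha : a ∈ D) (hb : b ∈ D) :
    ⁅a, b⁆ = cm a b := by
  simp only [commutatorElement_def, cm, inv_of_sq (hD.sq a ha), inv_of_sq (hD.sq b hb), mul_assoc]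

theorem IsC.gam_gen {D : Set G} (hD : IsC D) (hgen : closure D = ⊤) (i : ℕ) :
    gam G i ≤ closure (D ∩ gam G i) := by
  induction i with
  | zero => simp [hgen]
  | succ i ih =>
    have hn : (closure (D ∩ gam G (i + 1))).Normal := by
      refine ⟨fun x hx g => ?_⟩
      have : closure (D ∩ gam G (i + 1)) ≤
          (closure (D ∩ gam G (i + 1))).comap (MulAut.conj g).toMonoidHom :=
        (closure_le _).2 fun d hd => subset_closure
          ⟨by simpa using hD.conj d hd.1 g⁻¹, Normal.conj_mem inferInstance d hd.2 g⟩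
      exact this hx
    refine (commutator_mono ih hgen.ge).trans (comm_le_of_gen _ fun s hs t ht => subset_closure
      ⟨?_, commutator_mem_commutator hs.2 (mem_top t)⟩)
    rw [hD.comm_eq hs.1 ht]
    exact hD.comm s hs.1 t ht

theorem IsC.gam_fin {D : Set G} (hD : IsC D) {S : Set G} (hS : S.Finite) (hSD : S ⊆ D)
    (hgen : closure S = ⊤) (i : ℕ) :
    ∃ T : Set G, T.Finite ∧ T ⊆ D ∩ gam G i ∧ gam G i ≤ closure (gam G (i + 1) ∪ T) := by
  induction i with
  | zero => exact ⟨S, hS, fun s hs => ⟨hSD hs, mem_top s⟩,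
      hgen.ge.trans (closure_mono Set.subset_union_right)⟩
  | succ i ih =>
    obtain ⟨T, h1, h2, h3⟩ := ih
    have h4 : Set.image2 (fun t s => ⁅t, s⁆) T S ⊆ D ∩ gam G (i + 1) := by
      rintro _ ⟨t, ht, s, hs, rfl⟩
      refine ⟨?_, commutator_mem_commutator (h2 ht).2 (mem_top s)⟩
      simp only [hD.comm_eq (h2 ht).1 (hSD hs)]
      exact hD.comm t (h2 ht).1 s (hSD hs)
    refine ⟨_, h1.image2 _ hS, h4, ?_⟩
    set L := closure (gam G (i + 1 + 1) ∪ Set.image2 (fun t s => ⁅t, s⁆) T S) with hL
    have hL1 : L ≤ gam G (i + 1) := (closure_le _).2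
      (Set.union_subset (gam_anti (Nat.le_succ _)) fun x hx => (h4 hx).2)
    have hL2 : gam G (i + 1 + 1) ≤ L := fun x hx => subset_closure (Or.inl hx)
    have hn : L.Normal := by
      refine ⟨fun x hx g => ?_⟩
      have := L.mul_mem (L.inv_mem (hL2 (commutator_mem_commutator (hL1 hx) (mem_top g)))) hx
      simpa [commutatorElement_def, mul_assoc] using this
    refine (commutator_mono h3 hgen.ge).trans (comm_le_of_gen _ ?_)
    rintro s (hs | hs) t ht
    · exact hL2 (commutator_mem_commutator hs (mem_top t))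
    · exact subset_closure (Or.inr ⟨s, hs, t, ht, rfl⟩)

theorem finite_of_sq {H : Type*} [Group H] [Group.FG H] (h : ∀ x : H, x * x = 1) : Finite H := by
  let _ : CommGroup H := { ‹Group H› with mul_comm := fun a b => comm_of_sq (h a) (h b) (h _) }
  exact CommGroup.finite_of_fg_isMulTorsion H fun x =>
    isOfFinOrder_iff_pow_eq_one.2 ⟨2, two_pos, by rw [pow_two, h]⟩

theorem IsC.gam_index {D : Set G} (hD : IsC D) {S : Set G} (hS : S.Finite) (hSD : S ⊆ D)
    (hgen : closure S = ⊤) (i : ℕ) : (gam G i).index ≠ 0 := by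
  induction i with
  | zero => simp
  | succ i ih =>
    rw [← relIndex_mul_index (gam_anti (Nat.le_succ i))]
    refine mul_ne_zero ?_ ih
    obtain ⟨T, h1, h2, h3⟩ := hD.gam_fin hS hSD hgen i
    let π := QuotientGroup.mk' (gam G (i + 1))
    have h4 : (gam G i).map π ≤ closure (π '' T) := by
      refine (map_mono h3).trans ?_
      rw [MonoidHom.map_closure, closure_le]
      rintro _ ⟨x, hx | hx, rfl⟩
      · have : π x = 1 := (QuotientGroup.eq_one_iff _).2 hx
        rw [this]; exact one_mem _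
      · exact subset_closure ⟨x, hx, rfl⟩
    have h5 : (gam G i).map π ≤ center _ := by
      rw [← commutator_top_right_eq_bot_iff_le_center,
        ← map_top_of_surjective π (QuotientGroup.mk'_surjective _), ← map_commutator,
        ← le_iff_map_bot]
      exact le_rfl
    have h6 : ∀ z ∈ closure (π '' T), z * z = 1 ∧ z ∈ center _ := by
      intro z hz
      induction hz using closure_induction with
      | mem z hz =>
        obtain ⟨t, ht, rfl⟩ := hz
        exact ⟨by rw [← map_mul, hD.sq t (h2 ht).1, map_one], h5 ⟨t, (h2 ht).2, rfl⟩⟩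
      | one => exact ⟨one_mul _, one_mem _⟩
      | mul a b _ _ ha hb =>
        refine ⟨?_, mul_mem ha.2 hb.2⟩
        rw [mul_assoc, ← mul_assoc b, mem_center_iff.1 ha.2 b, mul_assoc, hb.1, mul_one, ha.1]
      | inv a _ ha => exact ⟨by rw [← mul_inv_rev, ha.1, inv_one], inv_mem ha.2⟩
    have := (h1.image π).to_subtype
    have h7 : Finite (closure (π '' T)) := finite_of_sq fun z => Subtype.ext (h6 z.1 z.2).1
    have h8 : Finite ((gam G i).map π) := Finite.of_injective _ (inclusion_injective h4)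
    conv_lhs => rw [← QuotientGroup.ker_mk' (gam G (i + 1)), relIndex_ker]
    exact Nat.card_pos.ne'

end Pool.Agent.P.MP_25cc86_al
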