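import Pool.Agent.P.MP_25cc86_al.Tzero
import Pool.Agent.P.MP_25cc86_al.Series

/-! The abelianizations of the terms of the lower central series as modules; the lower central
series becomes stationary at a perfect subgroup. -/

namespace Pool.Agent.P.MP_25cc86_al

open Subgroup
open scoped commutatorElement

variable {G : Type*} [Group G]

section one

variable (W : Subgroup G) [W.Normal]

/-- The abelianization of `W`, written additively. -/
abbrev VV : Type _ := Additive (Abelianization W)

/-- The class of an element of `W`. -/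
def pr (w : W) : VV W := Additive.ofMul (Abelianization.of w)

/-- The conjugation action on the abelianization. -/
def act : G →* AddMonoid.End (VV W) where
  toFun g := MonoidHom.toAdditive (Abelianization.map (MulAut.conjNormal (H := W) g).toMonoidHom)
  map_one' := by
    have : (MulAut.conjNormal (H := W) 1).toMonoidHom = MonoidHom.id W := by ext; simp
    rw [this, Abelianization.map_id]; rfl
  map_mul' g h := by
    have : (MulAut.conjNormal (H := W) (g * h)).toMonoidHom =
        (MulAut.conjNormal (H := W) g).toMonoidHom.comp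
          (MulAut.conjNormal (H := W) h).toMonoidHom := by ext; simp
    rw [this, ← Abelianization.map_comp]; rfl

variable {W}

omit [W.Normal] in
theorem pr_mul (a b : W) : pr W (a * b) = pr W a + pr W b := by simp [pr]

omit [W.Normal] in
theorem pr_one : pr W 1 = 0 := by simp [pr]

omit [W.Normal] in
theorem pr_inv (a : W) : pr W a⁻¹ = - pr W a := by simp [pr]

theorem act_pr (g : G) (w : W) : act W g (pr W w) = pr W (MulAut.conjNormal g w) := rfl

theorem end_add {V : Type*} [AddCommGroup V] (f g : AddMonoid.End V) (v : V) :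
    (f + g) v = f v + g v := rfl

omit [W.Normal] in
theorem pr_eq_zero {w : W} (h : pr W w = 0) : w.1 ∈ ⁅W, W⁆ := by
  have h1 : w ∈ _root_.commutator W := by
    rw [← Abelianization.ker_of]; exact h
  rw [← map_subtype_commutator]
  exact ⟨w, h1, rfl⟩

omit [W.Normal] in
theorem ext_gen {D : Set G} (hW : W ≤ closure (D ∩ W)) (f : AddMonoid.End (VV W))
    (h : ∀ d : W, d.1 ∈ D → f (pr W d) = 0) : f = 0 := by
  have key : ∀ x ∈ closure (D ∩ W), ∀ hx : x ∈ W, f (pr W ⟨x, hx⟩) = 0 := by
    have hle : closure (D ∩ W) ≤ W := (closure_le _).2 Set.inter_subset_right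
    intro x hx
    induction hx using closure_induction with
    | mem x hx => exact fun hx' => h ⟨x, hx'⟩ hx.1
    | one => intro _; exact (congrArg f pr_one).trans (map_zero f)
    | mul a b ha hb iha ihb =>
      intro _
      have := pr_mul (W := W) ⟨a, hle ha⟩ ⟨b, hle hb⟩
      exact (congrArg f this).trans (by rw [map_add, iha, ihb, add_zero])
    | inv a ha iha =>
      intro _
      have := pr_inv (W := W) ⟨a, hle ha⟩
      exact (congrArg f this).trans (by rw [map_neg, iha, neg_zero])
  refine AddMonoidHom.ext fun v => ?_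
  obtain ⟨w, rfl⟩ : ∃ w, pr W w = v := Quot.exists_rep v.toMul
  exact key w.1 (hW w.2) w.2

theorem IsC.hyp {D : Set G} (hD : IsC D) (hW : W ≤ closure (D ∩ W)) : Hyp (act W) D := by
  have h2 : (1 : AddMonoid.End (VV W)) + 1 = 0 := by
    refine ext_gen hW _ fun d hd => ?_
    have : d * d = 1 := Subtype.ext (hD.sq _ hd)
    change pr W d + pr W d = 0
    rw [← pr_mul, this, pr_one]
  refine ⟨hD, fun r => by rw [← mul_one r, ← mul_add, h2, mul_zero], fun a ha b hb => ?_⟩
  have h4 : a * b * a * b * a * b * a = b := by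
    have := hD.sq _ (hD.comm a ha b hb)
    rw [← mul_left_inj b, hD.sq b hb, ← this]
    simp only [cm, mul_assoc]
  have e1 : b * cm a b = a * b * a := by
    rw [← hD.cm_symm ha hb]; exact hD.mul_cm hb
  have e2 : a * cm a b = a * b * a * b * a := by
    rw [hD.cm_comm_left ha hb]; simp only [cm, mul_assoc]
  have e3 : a * b * cm a b = a * b * a * b * a * b := by simp only [cm, mul_assoc]
  have hsum : X (act W) a * X (act W) b * X (act W) (cm a b) =
      act W 1 + act W a + act W (a * b) + act W (a * b * a) + act W (a * b * a * b) +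
        act W (a * b * a * b * a) + act W (a * b * a * b * a * b) +
        act W (a * b * a * b * a * b * a) := by
    rw [h4, ← e3, ← e2, show a * b * a * b = cm a b by simp only [cm, mul_assoc], ← e1]
    simp only [X, map_mul, map_one]
    noncomm_ring
  rw [hsum]
  refine ext_gen hW _ fun d hd => ?_
  simp only [end_add, act_pr, ← pr_mul]
  rw [← pr_one]
  congr 1
  refine Subtype.ext ?_
  have h5 := hD.sq _ (hD.comm _ (hD.conj' ha hd) b hb)
  simp only [coe_mul, MulAut.conjNormal_apply, OneMemClass.coe_one]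
  refine Eq.trans ?_ h5
  simp only [mul_assoc] at h4
  simp only [cm, mul_assoc, inv_mul_cancel_left, mul_inv_rev]
  simp only [inv_of_sq (hD.sq a ha), inv_of_sq (hD.sq b hb),
    one_mul, inv_one]
  rw [h4]

/-- Elements whose classes are killed by all products of `j` elements `X g`. -/
def UU (W : Subgroup G) [W.Normal] (j : ℕ) : Subgroup G where
  carrier := {w | ∃ hw : w ∈ W, ∀ l : List G, l.length = j →
    (l.map (X (act W))).prod (pr W ⟨w, hw⟩) = 0}
  one_mem' := ⟨one_mem _, fun l _ => (congrArg _ pr_one).trans (map_zero _)⟩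
  mul_mem' := by
    rintro a b ⟨ha, ha'⟩ ⟨hb, hb'⟩
    refine ⟨mul_mem ha hb, fun l hl => ?_⟩
    have := pr_mul (W := W) ⟨a, ha⟩ ⟨b, hb⟩
    exact (congrArg _ this).trans (by rw [map_add, ha' l hl, hb' l hl, add_zero])
  inv_mem' := by
    rintro a ⟨ha, ha'⟩
    refine ⟨inv_mem ha, fun l hl => ?_⟩
    have := pr_inv (W := W) ⟨a, ha⟩
    exact (congrArg _ this).trans (by rw [map_neg, ha' l hl, neg_zero])

theorem uu_zero : UU W 0 ≤ ⁅W, W⁆ := fun _ ⟨_, h⟩ => pr_eq_zero (h [] rfl)

theorem uu_succ (h2 : ∀ r : AddMonoid.End (VV W), r + r = 0) (j : ℕ) :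
    ⁅UU W (j + 1), ⊤⁆ ≤ UU W j := by
  rw [commutator_le]
  rintro w ⟨hw, h⟩ g -
  have h1 : ⁅w, g⁆ ∈ W := commutator_le_left W ⊤ (commutator_mem_commutator hw (mem_top g))
  refine ⟨h1, fun l hl => ?_⟩
  have h3 : pr W ⟨⁅w, g⁆, h1⟩ = X (act W) g (pr W ⟨w, hw⟩) := by
    have e : (⟨⁅w, g⁆, h1⟩ : W) = ⟨w, hw⟩ * (MulAut.conjNormal g ⟨w, hw⟩)⁻¹ :=
      Subtype.ext (by simp [commutatorElement_def, mul_assoc])
    have e2 : act W g (pr W ⟨w, hw⟩) + act W g (pr W ⟨w, hw⟩) = 0 := by
      rw [← end_add, h2]; rfl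
    rw [e, pr_mul, pr_inv, ← act_pr, neg_eq_of_add_eq_zero_left e2, add_comm]
    rfl
  have h4 := h (l ++ [g]) (by simp [hl])
  rw [List.map_append, List.prod_append] at h4
  rw [h3]
  simpa using h4

end one

theorem IsC.exists_K {D : Set G} (hD : IsC D) {A : Type*} [Finite A] {g : A → G}
    (hg : ∀ a, g a ∈ D) (hgen : closure (Set.range g) = ⊤) :
    ∃ K, ∀ i, gam G (i + K) ≤ ⁅gam G i, gam G i⁆ := by
  have hgen' : closure D = ⊤ :=
    top_le_iff.1 (hgen.ge.trans (closure_mono (Set.range_subset_iff.2 hg)))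
  have H1 : ∀ i, Hyp (act (gam G i)) D := fun i => hD.hyp (hD.gam_gen hgen' i)
  let φ : G →* (∀ i, AddMonoid.End (VV (gam G i))) := MonoidHom.pi fun i => act (gam G i)
  have H : Hyp φ D := ⟨hD, fun r => funext fun i => (H1 i).two (r i),
    fun a ha b hb => funext fun i => (H1 i).norm a ha b hb⟩
  obtain ⟨K, hK⟩ := H.tzero hg hgen
  refine ⟨K, fun i => ?_⟩
  have h1 : ∀ l : List G, (l.map (X φ)).prod i = (l.map (X (act (gam G i)))).prod := by
    intro l
    induction l with
    | nil => rfl
    | cons a l ih => rw [List.map_cons, List.prod_cons, List.map_cons, List.prod_cons, ← ih]; rfl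
  have h2 : ∀ m j, m + j = K → gam G (i + m) ≤ UU (gam G i) j := by
    intro m
    induction m with
    | zero =>
      intro j hj w hw
      refine ⟨hw, fun l hl => ?_⟩
      rw [← h1, hK l (by omega)]
      rfl
    | succ m ih =>
      intro j hj
      exact (commutator_mono (ih (j + 1) (by omega)) le_rfl).trans (uu_succ (H1 i).two j)
  exact (h2 K 0 rfl).trans uu_zero

theorem IsC.exists_c {D : Set G} (hD : IsC D) {A : Type*} [Finite A] {g : A → G}
    (hg : ∀ a, g a ∈ D) (hgen : closure (Set.range g) = ⊤) :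
    ∃ c, (∀ m, gam G c ≤ gam G m) ∧ ⁅gam G c, gam G c⁆ = gam G c := by
  obtain ⟨K, hK⟩ := hD.exists_K hg hgen
  have h1 : gam G (K + K) ≤ gam G (K + K + 1) := (hK K).trans (gam_comm K K)
  have h2 : ∀ m, gam G (K + K) ≤ gam G (K + K + m) := by
    intro m
    induction m with
    | zero => exact le_rfl
    | succ m ih => exact h1.trans (commutator_mono ih le_rfl)
  exact ⟨K + K, fun m => (h2 m).trans (gam_anti (by omega)),
    le_antisymm (commutator_le_left _ _) ((h2 K).trans (hK _))⟩

end Pool.Agent.P.MP_25cc86_al
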