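import Mathlib

/-! The free algebra over the field with two elements, cut off at words with a repeated letter. -/

namespace Pool.Agent.P.MP_25cc86_al.Nl

open Finset

variable {A : Type}

/-- The free algebra. -/
abbrev FA (A : Type) : Type := MonoidAlgebra (ZMod 2) (FreeMonoid A)

/-- Coefficient of a word. -/
def cf (f : FA A) (u : List A) : ZMod 2 := f.coeff (FreeMonoid.ofList u)

/-- A letter. -/
noncomputable def gn (a : A) : FA A := MonoidAlgebra.single (FreeMonoid.of a) 1

lemma cf_add (f g : FA A) (u : List A) : cf (f + g) u = cf f u + cf g u := by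
  simp only [cf, MonoidAlgebra.coeff_add, Finsupp.add_apply]

lemma cf_zero (u : List A) : cf (0 : FA A) u = 0 := by
  simp only [cf, MonoidAlgebra.coeff_zero, Finsupp.zero_apply]

lemma cf_single (v u : List A) :
    cf (MonoidAlgebra.single (FreeMonoid.ofList v) 1) u =
      open Classical in if v = u then 1 else 0 := by
  classical
  simp only [cf, MonoidAlgebra.coeff_single, Finsupp.single_apply, EmbeddingLike.apply_eq_iff_eq]

lemma cf_one_nil : cf (1 : FA A) [] = 1 := (cf_single [] []).trans (if_pos rfl)

lemma cf_one {u : List A} (h : u ≠ []) : cf (1 : FA A) u = 0 :=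
  (cf_single [] u).trans (if_neg h.symm)

lemma cf_gn_self (a : A) : cf (gn a) [a] = 1 := (cf_single [a] [a]).trans (if_pos rfl)

lemma cf_gn {a : A} {u : List A} (h : u ≠ [a]) : cf (gn a) u = 0 :=
  (cf_single [a] u).trans (if_neg h.symm)

lemma cf_mul (f g : FA A) (u : List A) :
    cf (f * g) u = ∑ i ∈ range (u.length + 1), cf f (u.take i) * cf g (u.drop i) := by
  classical
  have h := MonoidAlgebra.coeff_mul_antidiag f g (FreeMonoid.ofList u)
    ((range (u.length + 1)).image fun i =>
      (FreeMonoid.ofList (u.take i), FreeMonoid.ofList (u.drop i))) (by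
      rintro ⟨p, s⟩
      rw [mem_image]
      constructor
      · rintro ⟨i, -, e⟩
        rw [← e]
        exact congrArg FreeMonoid.ofList (List.take_append_drop i u)
      · intro e
        have e' : FreeMonoid.toList p ++ FreeMonoid.toList s = u := congrArg FreeMonoid.toList e
        refine ⟨(FreeMonoid.toList p).length, ?_, ?_⟩
        · rw [← e', mem_range, List.length_append]
          omega
        · rw [← e', List.take_left, List.drop_left]
          rfl)
  rw [sum_image] at h
  · exact h
  · intro i hi j hj e
    have e1 : u.take i = u.take j := congrArg FreeMonoid.toList (congrArg Prod.fst e)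
    have e2 := congrArg List.length e1
    rw [List.length_take, List.length_take] at e2
    have := mem_range.1 (mem_coe.1 hi)
    have := mem_range.1 (mem_coe.1 hj)
    omega

lemma cf_mul_zero {f g : FA A} {u : List A} (h : ∀ p s, p ++ s = u → cf f p * cf g s = 0) :
    cf (f * g) u = 0 := by
  rw [cf_mul]
  exact sum_eq_zero fun i _ => h _ _ (List.take_append_drop i u)

lemma cf_mul_one {f g : FA A} (p0 s0 : List A)
    (h : ∀ p s, p ++ s = p0 ++ s0 → p.length ≠ p0.length → cf f p * cf g s = 0) :
    cf (f * g) (p0 ++ s0) = cf f p0 * cf g s0 := by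
  rw [cf_mul, sum_eq_single p0.length, List.take_left, List.drop_left]
  · intro i hi hne
    refine h _ _ (List.take_append_drop i _) ?_
    have := mem_range.1 hi
    rw [List.length_take]
    omega
  · intro hn
    rw [mem_range, List.length_append] at hn
    omega

/-- Equality on all words without a repeated letter. -/
def con (A : Type) : RingCon (FA A) where
  r f g := ∀ u : List A, u.Nodup → cf f u = cf g u
  iseqv := ⟨fun _ _ _ => rfl, fun h u hu => (h u hu).symm,
    fun h h' u hu => (h u hu).trans (h' u hu)⟩
  mul' h h' u hu := by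
    rw [cf_mul, cf_mul]
    exact sum_congr rfl fun i _ => by
      rw [h _ (hu.sublist (List.take_sublist i u)), h' _ (hu.sublist (List.drop_sublist i u))]
  add' h h' u hu := by rw [cf_add, cf_add, h u hu, h' u hu]

/-- The truncated algebra. -/
abbrev RA (A : Type) : Type := (con A).Quotient

/-- The projection. -/
noncomputable abbrev pj : FA A →+* RA A := (con A).mk'

lemma pj_eq {f g : FA A} : pj f = pj g ↔ ∀ u : List A, u.Nodup → cf f u = cf g u :=
  (con A).eq

lemma pj_surj (r : RA A) : ∃ f, pj f = r := Quotient.exists_rep r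

lemma two (r : RA A) : r + r = 0 := by
  obtain ⟨f, rfl⟩ := pj_surj r
  rw [← map_add, ← map_zero pj]
  exact pj_eq.2 fun u _ => by rw [cf_add, cf_zero, CharTwo.add_self_eq_zero]

lemma meet {f : FA A} (h : ∀ u : List A, u.Nodup → cf (f * f) u = 0) (N : ℕ) :
    ∀ p s : List A, p.length + s.length = N → (p ++ s).Nodup → cf f p * cf f s = 0 := by
  induction N using Nat.strong_induction_on with
  | _ N ih =>
    intro p s hN hn
    by_contra hne
    refine hne ((cf_mul_one p s fun p' s' e hl => ?_).symm.trans (h _ hn))
    rcases List.append_eq_append_iff.1 e with ⟨c, rfl, rfl⟩ | ⟨c, rfl, rfl⟩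
    · rw [List.length_append] at hl hN
      have := ih _ (by omega) p' s rfl
        (hn.sublist ((List.sublist_append_left _ _).append_right _))
      rw [(mul_eq_zero.1 this).resolve_right (right_ne_zero_of_mul hne), zero_mul]
    · rw [List.length_append] at hl hN
      have := ih _ (by omega) p s' rfl
        (hn.sublist ((List.sublist_append_right _ _).append_left _))
      rw [(mul_eq_zero.1 this).resolve_left (left_ne_zero_of_mul hne), mul_zero]

lemma sandwich {B : RA A} (h : B * B = 0) (r : RA A) : B * r * B = 0 := by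
  obtain ⟨f, rfl⟩ := pj_surj B
  obtain ⟨g, rfl⟩ := pj_surj r
  rw [← map_mul, ← map_zero pj, pj_eq] at h
  rw [← map_mul, ← map_mul, ← map_zero pj, pj_eq]
  intro u hu
  rw [cf_zero]
  refine cf_mul_zero fun p s e => ?_
  by_cases hs : cf f s = 0
  · rw [hs, mul_zero]
  · rw [cf_mul_zero fun p' q e' => ?_, zero_mul]
    subst e e'
    have := meet (fun u hu => (h u hu).trans (cf_zero u)) _ p' s rfl
      (hu.sublist ((List.sublist_append_left _ _).append_right _))
    rw [(mul_eq_zero.1 this).resolve_right hs, zero_mul]

lemma four {u v : RA A} (hu : u * u = 1) (hv : v * v = 1) : (u * v) ^ 4 = 1 := by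
  obtain ⟨B, rfl⟩ : ∃ B, u = 1 + B := ⟨1 + u, by rw [← add_assoc, two, zero_add]⟩
  have hB : B * B = 0 := by
    have e : (1 + B) * (1 + B) = 1 + (B + B) + B * B := by noncomm_ring
    rw [e, two, add_zero] at hu
    exact add_eq_left.1 hu
  have hS := sandwich hB v
  have e1 : ((1 + B) * v) ^ 2 = 1 + B + v * B * v := by
    have e : ((1 + B) * v) ^ 2 = v * v + B * (v * v) + v * B * v + B * v * B * v := by
      noncomm_ring
    rw [e, hv, hS, mul_one, zero_mul, add_zero]
  have e2 : (1 + B + v * B * v) ^ 2 = 1 + (B + B) + (v * B * v + v * B * v) + B * B +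
      B * v * B * v + v * (B * v * B) + v * (B * (v * v) * B) * v := by noncomm_ring
  rw [show 4 = 2 * 2 from rfl, pow_mul, e1, e2, two, two, hB, hS, sandwich hB]
  simp only [add_zero, zero_mul, mul_zero]

lemma xx (a : A) : pj (1 + gn a) * pj (1 + gn a) = 1 := by
  have h : pj (gn a) * pj (gn a) = 0 := by
    rw [← map_mul, ← map_zero pj, pj_eq]
    intro u hu
    rw [cf_zero, gn, MonoidAlgebra.single_mul_single, one_mul]
    refine (cf_single [a, a] u).trans (if_neg ?_)
    rintro rfl
    simp at hu
  have e : ∀ B : RA A, (1 + B) * (1 + B) = 1 + (B + B) + B * B := fun B => by noncomm_ring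
  rw [map_add, map_one, e, two, h, add_zero, add_zero]

/-- The generators. -/
noncomputable def xg (a : A) : (RA A)ˣ := ⟨pj (1 + gn a), pj (1 + gn a), xx a, xx a⟩

lemma xg_ne (a : A) : xg a ≠ 1 := fun h => by
  have h1 : pj (1 + gn a) = pj 1 := (congrArg Units.val h).trans (map_one pj).symm
  have h2 := pj_eq.1 h1 [a] (List.nodup_singleton a)
  rw [cf_add, cf_gn_self, cf_one (List.cons_ne_nil _ _), zero_add] at h2
  exact one_ne_zero h2

/-- Products of generators. -/
noncomputable def Y (l : List A) : FA A := (l.map fun a => 1 + gn a).prod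

lemma Y_cons (a : A) (l : List A) : Y (a :: l) = (1 + gn a) * Y l := rfl

lemma cf_x_nil (a : A) : cf (1 + gn a) [] = 1 := by
  rw [cf_add, cf_one_nil, cf_gn (List.cons_ne_nil _ _).symm, add_zero]

lemma Y_nil (l : List A) : cf (Y l) [] = 1 := by
  induction l with
  | nil => exact cf_one_nil
  | cons a l ih =>
    rw [Y_cons, cf_mul]
    simp only [List.length_nil, zero_add, range_one, sum_singleton, List.take_nil, List.drop_nil]
    rw [cf_x_nil, ih, one_mul]

lemma Y_out (l : List A) : ∀ v : List A, (∃ a ∈ v, a ∉ l) → cf (Y l) v = 0 := by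
  induction l with
  | nil =>
    rintro v ⟨a, ha, -⟩
    exact cf_one (List.ne_nil_of_mem ha)
  | cons b l ih =>
    rintro v ⟨a, ha, hb⟩
    rw [List.mem_cons, not_or] at hb
    rw [Y_cons]
    refine cf_mul_zero fun p s e => ?_
    subst e
    rcases List.mem_append.1 ha with h | h
    · rw [cf_add, cf_one (List.ne_nil_of_mem h), cf_gn, add_zero, zero_mul]
      rintro rfl
      exact hb.1 (List.mem_singleton.1 h)
    · rw [ih s ⟨a, h, hb.2⟩, mul_zero]

lemma Y_one {l : List A} (hl : l.Nodup) {a : A} (ha : a ∈ l) : cf (Y l) [a] = 1 := by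
  induction l with
  | nil => cases ha
  | cons b l ih =>
    rw [List.nodup_cons] at hl
    rw [Y_cons, cf_mul, List.length_singleton, sum_range_succ, sum_range_one]
    change cf (1 + gn b) [] * cf (Y l) [a] + cf (1 + gn b) [a] * cf (Y l) [] = 1
    rw [cf_x_nil, Y_nil, one_mul, mul_one, cf_add, cf_one (List.cons_ne_nil _ _), zero_add]
    by_cases h : a = b
    · subst h
      rw [Y_out l [a] ⟨a, List.mem_singleton_self a, hl.1⟩, cf_gn_self, zero_add]
    · rw [ih hl.2 ((List.mem_cons.1 ha).resolve_left h), cf_gn fun e => h (List.cons.inj e).1,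
        add_zero]

lemma val_prod (l : List A) : ((l.map xg).prod : (RA A)ˣ).val = pj (Y l) := by
  induction l with
  | nil => exact (map_one pj).symm
  | cons a l ih => rw [List.map_cons, List.prod_cons, Units.val_mul, ih, Y_cons, map_mul]; rfl

lemma inv_prod (l : List A) : ((l.map xg).prod : (RA A)ˣ)⁻¹ = (l.reverse.map xg).prod := by
  induction l with
  | nil => exact inv_one
  | cons a l ih =>
    rw [List.map_cons, List.prod_cons, mul_inv_rev, ih, List.reverse_cons, List.map_append,
      List.prod_append, List.map_singleton, List.prod_singleton]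
    rfl

section colour

variable {C : Type} (col : A → C)

/-- Supported on words of one colour. -/
def Mono (g : C) (f : FA A) : Prop := ∀ v : List A, (∃ a ∈ v, col a ≠ g) → cf f v = 0

variable {col}

lemma Mono.long {g : C} {f : FA A} (h : Mono col g f) {a b : A} {p s : List A}
    (hc : (a :: b :: p ++ s).IsChain fun a b => col a ≠ col b) : cf f (a :: b :: p) = 0 := by
  have h1 : col a ≠ col b := (List.isChain_cons_cons.1 hc).1
  by_cases h2 : col a = g
  · exact h _ ⟨b, by simp, fun e => h1 (h2.trans e.symm)⟩
  · exact h _ ⟨a, by simp, h2⟩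

lemma short (fs : List (FA A)) (h : ∀ f ∈ fs, ∃ g, Mono col g f) : ∀ u : List A,
    (u.IsChain fun a b => col a ≠ col b) → fs.length < u.length → cf fs.prod u = 0 := by
  induction fs with
  | nil => exact fun u _ hu => cf_one (List.ne_nil_of_length_pos hu)
  | cons f fs ih =>
    intro u hc hu
    obtain ⟨g, hg⟩ := h f List.mem_cons_self
    rw [List.prod_cons]
    refine cf_mul_zero fun p s e => ?_
    subst e
    have h1 := ih (fun f hf => h f (List.mem_cons_of_mem _ hf)) s hc.right_of_append
    rw [List.length_cons, List.length_append] at hu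
    rcases p with _ | ⟨a, _ | ⟨b, p⟩⟩
    · rw [h1 (by simp only [List.length_nil] at hu; omega), mul_zero]
    · rw [h1 (by simp only [List.length_singleton] at hu; omega), mul_zero]
    · rw [hg.long hc, zero_mul]

lemma exact_len {z : A → FA A} (h1 : ∀ a, Mono col (col a) (z a)) (h2 : ∀ a, cf (z a) [a] = 1)
    (u : List A) (hc : u.IsChain fun a b => col a ≠ col b) : cf (u.map z).prod u = 1 := by
  induction u with
  | nil => exact cf_one_nil
  | cons a u ih =>
    have h3 := cf_mul_one (f := z a) (g := (u.map z).prod) [a] u fun p s e hl => by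
      rcases p with _ | ⟨b, _ | ⟨c, p⟩⟩
      · have e' : s = a :: u := e
        rw [e', short (col := col) (u.map z) (fun f hf => ?_) _ hc (by simp), mul_zero]
        obtain ⟨b, -, rfl⟩ := List.mem_map.1 hf
        exact ⟨_, h1 b⟩
      · exact (hl rfl).elim
      · have e' : b :: c :: p ++ s = a :: u := e
        rw [(h1 a).long (s := s) (e' ▸ hc), zero_mul]
    rw [h2, ih hc.tail, one_mul] at h3
    exact h3

end colour

lemma key {C : Type} (L : List (C × Bool)) (hne : L ≠ []) (hc : L.IsChain fun p q => p.1 ≠ q.1) :
    ∃ y : C → FreeGroup (Fin L.length),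
      FreeGroup.lift xg (L.map fun q => cond q.2 (y q.1) (y q.1)⁻¹).prod ≠ 1 := by
  classical
  let col : Fin L.length → C := fun t => (L.get t).1
  let ls : C → List (Fin L.length) := fun g => (List.finRange L.length).filter fun t => col t = g
  let z : Fin L.length → FA (Fin L.length) := fun t =>
    Y (cond (L.get t).2 (ls (col t)) (ls (col t)).reverse)
  have hm : ∀ g t, t ∈ ls g ↔ col t = g := fun g t => by simp [ls]
  have hn : ∀ g, (ls g).Nodup := fun g => (List.nodup_finRange _).filter _
  have h1 : ∀ t, Mono col (col t) (z t) := by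
    rintro t v ⟨a, ha, hb⟩
    refine Y_out _ v ⟨a, ha, fun h => hb ((hm _ _).1 ?_)⟩
    revert h
    cases (L.get t).2
    exacts [List.mem_reverse.1, id]
  have h2 : ∀ t, cf (z t) [t] = 1 := fun t => by
    have := (hm _ t).2 rfl
    simp only [z]
    cases (L.get t).2
    exacts [Y_one (List.nodup_reverse.2 (hn _)) (List.mem_reverse.2 this), Y_one (hn _) this]
  have hL : (List.finRange L.length).map L.get = L := List.map_get_finRange L
  have h3 := exact_len h1 h2 (List.finRange L.length) (by
    rw [← hL, List.isChain_map] at hc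
    exact hc)
  refine ⟨fun g => ((ls g).map FreeGroup.of).prod, fun h => ?_⟩
  have h4 : ∀ g, FreeGroup.lift xg ((ls g).map FreeGroup.of).prod = ((ls g).map xg).prod :=
    fun g => by
      rw [map_list_prod, List.map_map]
      exact congrArg List.prod (List.map_congr_left fun a _ => FreeGroup.lift_apply_of)
  have h5 : ∀ u : List (Fin L.length), (FreeGroup.lift xg ((u.map L.get).map fun q =>
      cond q.2 ((ls q.1).map FreeGroup.of).prod ((ls q.1).map FreeGroup.of).prod⁻¹).prod).val =
      pj (u.map z).prod := by
    intro u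
    induction u with
    | nil => exact (map_one pj).symm
    | cons t u ih =>
      simp only [List.map_cons, List.prod_cons, map_mul, Units.val_mul]
      rw [ih]
      congr 1
      simp only [z]
      cases (L.get t).2
      · rw [cond_false, cond_false, map_inv, h4, inv_prod, val_prod]
      · rw [cond_true, cond_true, h4, val_prod]
  have h6 := h5 (List.finRange L.length)
  rw [hL, h, Units.val_one, ← map_one pj, pj_eq] at h6
  have h7 := h6 _ (List.nodup_finRange _)
  rw [h3, cf_one] at h7
  · exact zero_ne_one h7
  · intro e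
    rw [e] at hL
    exact hne hL.symm

/-- Doubling of the letters. -/
def dbl {ι : Type} (q : ι × Bool) : List ((ι × Bool) × Bool) :=
  [((q.1, !q.2), q.2), ((q.1, q.2), q.2)]

lemma dbl_chain {ι : Type} (L : List (ι × Bool)) (h : FreeGroup.IsReduced L) :
    (L.flatMap dbl).IsChain fun p q => p.1 ≠ q.1 := by
  induction L with
  | nil => exact List.isChain_nil
  | cons a L ih =>
    have h1 : (a.1, !a.2) ≠ (a.1, a.2) := fun e => by
      have := (Prod.mk.inj e).2
      revert this
      cases a.2 <;> decide
    rcases L with _ | ⟨b, L⟩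
    · exact List.isChain_cons_cons.2 ⟨h1, List.isChain_singleton _⟩
    · obtain ⟨h2, h3⟩ := List.isChain_cons_cons.1 h
      refine List.isChain_cons_cons.2 ⟨h1, List.isChain_cons_cons.2 ⟨fun e => ?_, ih h3⟩⟩
      have e1 : a.1 = b.1 := (Prod.mk.inj e).1
      have e2 : a.2 = !b.2 := (Prod.mk.inj e).2
      rw [h2 e1] at e2
      revert e2
      cases b.2 <;> decide

lemma dbl_prod {ι G : Type} [Group G] (y : ι × Bool → G) (L : List (ι × Bool)) :
    FreeGroup.lift (fun j => y (j, false) * y (j, true)) (FreeGroup.mk L) =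
      ((L.flatMap dbl).map fun q => cond q.2 (y q.1) (y q.1)⁻¹).prod := by
  rw [FreeGroup.lift_mk]
  induction L with
  | nil => rfl
  | cons a L ih =>
    rw [List.map_cons, List.prod_cons, ih, List.flatMap_cons, List.map_append, List.prod_append]
    congr 1
    rcases a with ⟨j, _ | _⟩ <;> simp [dbl]

theorem no_law {ι : Type} (w : FreeGroup ι) (hw : w ≠ 1) :
    ∃ (n : ℕ) (G : Type) (_ : Group G) (x : Fin n → G), (∀ i, orderOf (x i) = 2) ∧
      Subgroup.closure (Set.range x) = ⊤ ∧
      (∀ a b : G, orderOf a = 2 → orderOf b = 2 → (a * b) ^ 4 = 1) ∧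
      ∃ φ : FreeGroup ι →* G, φ w ≠ 1 := by
  classical
  obtain ⟨y, hy⟩ := key (w.toWord.flatMap dbl) (by
    cases e : w.toWord with
    | nil => exact (hw (FreeGroup.toWord_eq_nil_iff.1 e)).elim
    | cons a l => exact List.cons_ne_nil _ _) (dbl_chain _ FreeGroup.isReduced_toWord)
  rw [← dbl_prod, FreeGroup.mk_toWord] at hy
  generalize (w.toWord.flatMap dbl).length = n at y hy
  let θ : FreeGroup (Fin n) →* (RA (Fin n))ˣ := FreeGroup.lift xg
  refine ⟨n, θ.range, inferInstance, fun i => θ.rangeRestrict (FreeGroup.of i), fun i => ?_, ?_,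
    fun a b ha hb => ?_, θ.rangeRestrict.comp (FreeGroup.lift fun j =>
      y (j, false) * y (j, true)), fun h => hy (congrArg Subtype.val h)⟩
  · have e : (θ.rangeRestrict (FreeGroup.of i)).val = xg i := FreeGroup.lift_apply_of
    refine orderOf_eq_prime (Subtype.ext ?_) fun h => xg_ne i (e.symm.trans (congrArg _ h))
    rw [pow_two, Subgroup.coe_mul, e]
    exact Units.ext (xx i)
  · rw [Set.range_comp' θ.rangeRestrict FreeGroup.of, ← MonoidHom.map_closure,
      FreeGroup.closure_range_of, Subgroup.map_top_of_surjective _ θ.rangeRestrict_surjective]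
  · have h : ∀ c : θ.range, orderOf c = 2 → c.val.val * c.val.val = 1 := fun c hc => by
      have := pow_orderOf_eq_one c
      rw [hc, pow_two] at this
      exact congrArg (fun d : θ.range => d.val.val) this
    refine Subtype.ext (Units.ext ?_)
    rw [Subgroup.coe_pow, Units.val_pow_eq_pow_val]
    exact four (h a ha) (h b hb)

end Pool.Agent.P.MP_25cc86_al.Nl
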