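import Pool.Agent.P.MP_25cc86_al.Thick

/-! A verified checker for rewriting certificates in groups generated by involutions. -/

namespace Pool.Agent.P.MP_25cc86_al

variable {G : Type*} [Group G]

/-- Conjugation on the right. -/
def cj (x g : G) : G := g⁻¹ * x * g

/-- The value of a word. -/
def wv (gs : List G) : List ℕ → G
  | [] => 1
  | a :: w => gs.getD a 1 * wv gs w

theorem wv_append (gs : List G) (u v : List ℕ) : wv gs (u ++ v) = wv gs u * wv gs v := by
  induction u with
  | nil => simp [wv]
  | cons a u ih => simp only [List.cons_append, wv, ih, mul_assoc]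

/-- Pushing a word on a stack with cancellation. -/
def push : List ℕ → List ℕ → List ℕ
  | st, [] => st
  | [], a :: w => push [a] w
  | b :: st, a :: w => bif Nat.beq a b then push st w else push (a :: b :: st) w

/-- Digits in base `B`, shifted by one. -/
def dec (B : ℕ) : ℕ → ℕ → List ℕ
  | 0, _ => []
  | f + 1, n => bif Nat.beq n 0 then [] else (n % B - 1) :: dec B f (n / B)

/-- Inserting relators one after the other. -/
def steps (rs : List (List ℕ)) : List ℕ → List ℕ → List ℕ
  | w, [] => push [] w
  | w, s :: l =>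
    steps rs (push (push (w.take (s % 256)).reverse (rs.getD (s / 256) [])) (w.drop (s % 256))).reverse l

/-- Deriving new relators. -/
def lems : List (List ℕ) → List (ℕ × ℕ × ℕ) → List (List ℕ)
  | rs, [] => rs
  | rs, (w, s, t) :: l =>
    lems (List.reverseAux (steps rs (dec 32 256 w) (dec 16777216 4096 t))
      (steps rs (dec 32 256 w) (dec 16777216 4096 s)) :: rs) l

section

variable {gs : List G} (hg : ∀ a, gs.getD a 1 * gs.getD a 1 = 1)
include hg

theorem wv_reverse (w : List ℕ) : wv gs w.reverse = (wv gs w)⁻¹ := by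
  induction w with
  | nil => simp [wv]
  | cons a w ih =>
    rw [List.reverse_cons, wv_append, ih]
    simp only [wv, mul_one, mul_inv_rev, inv_of_sq (hg a)]

theorem wv_push (w : List ℕ) : ∀ st, wv gs (push st w) = (wv gs w)⁻¹ * wv gs st := by
  induction w with
  | nil => intro st; simp [push, wv]
  | cons a w ih =>
    intro st
    cases st with
    | nil => simp only [push, ih, wv, mul_inv_rev, inv_of_sq (hg a), mul_one]
    | cons b st =>
      simp only [push]
      cases h : Nat.beq a b with
      | true =>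
        obtain rfl := Nat.eq_of_beq_eq_true h
        simp only [cond_true, ih, wv, mul_inv_rev, inv_of_sq (hg a), mul_assoc,
          cancel_sq (hg a)]
      | false => simp only [cond_false, ih, wv, mul_inv_rev, inv_of_sq (hg a), mul_assoc]

theorem wv_steps {rs : List (List ℕ)} (hr : ∀ r ∈ rs, wv gs r = 1) (l : List ℕ) :
    ∀ w, wv gs (steps rs w l) = (wv gs w)⁻¹ := by
  induction l with
  | nil => intro w; simp [steps, wv_push hg, wv]
  | cons s l ih =>
    intro w
    have h1 : wv gs (rs.getD (s / 256) []) = 1 := by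
      rw [List.getD_eq_getElem?_getD]
      cases h : rs[s / 256]? with
      | none => rfl
      | some r => exact hr r (List.mem_of_getElem? h)
    rw [steps, ih, wv_reverse hg, wv_push hg, wv_push hg, h1, wv_reverse hg, inv_inv, inv_one,
      one_mul, ← mul_inv_rev, ← wv_append, List.take_append_drop]

theorem wv_lems (l : List (ℕ × ℕ × ℕ)) :
    ∀ rs : List (List ℕ), (∀ r ∈ rs, wv gs r = 1) → ∀ r ∈ lems rs l, wv gs r = 1 := by
  induction l with
  | nil => exact fun rs h => h
  | cons x l ih =>
    obtain ⟨w, s, t⟩ := x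
    intro rs h
    refine ih _ fun r hr => ?_
    rcases List.mem_cons.1 hr with rfl | hr
    · rw [List.reverseAux_eq, wv_append, wv_reverse hg, wv_steps hg h, wv_steps hg h, inv_inv,
        mul_inv_cancel]
    · exact h r hr

end

/-- Expressions in the generators. -/
inductive Ex : Type
  | o : Ex
  | g : ℕ → Ex
  | m : Ex → Ex → Ex
  | j : Ex → Ex → Ex
  | c : Ex → Ex → Ex

namespace Ex

/-- The value of an expression. -/
def ev (gs : List G) : Ex → G
  | o => 1
  | g i => gs.getD i 1
  | m x y => x.ev gs * y.ev gs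
  | j x y => cj (x.ev gs) (y.ev gs)
  | c x y => cm (x.ev gs) (y.ev gs)

/-- The word of an expression. -/
def w : Ex → List ℕ
  | o => []
  | g i => [i]
  | m x y => x.w ++ y.w
  | j x y => y.w.reverse ++ x.w ++ y.w
  | c x y => x.w ++ y.w ++ (x.w ++ y.w)

/-- Expressions built from the first `n` generators by conjugation and commutators. -/
def isD (n : ℕ) : Ex → Bool
  | o => false
  | g i => Nat.blt i n
  | m _ _ => false
  | j x _ => x.isD n
  | c x y => x.isD n && y.isD n

theorem wv_w {gs : List G} (hg : ∀ a, gs.getD a 1 * gs.getD a 1 = 1) (x : Ex) :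
    wv gs x.w = x.ev gs := by
  induction x with
  | o => rfl
  | g i => simp [w, wv, ev]
  | m x y hx hy => rw [w, wv_append, hx, hy, ev]
  | j x y hx hy => rw [w, wv_append, wv_append, wv_reverse hg, hx, hy, ev, cj]
  | c x y hx hy => simp only [w, wv_append, hx, hy, ev, cm]

theorem ev_mem {D : Set G} (hD : IsC D) {gs : List G} (hg : ∀ x ∈ gs, x ∈ D) (x : Ex)
    (h : x.isD gs.length = true) : x.ev gs ∈ D := by
  induction x with
  | o => simp [isD] at h
  | g i =>
    have h1 : i < gs.length := by simpa [isD, Nat.blt_eq] using h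
    rw [ev, List.getD_eq_getElem _ _ h1]
    exact hg _ (List.getElem_mem h1)
  | m x y _ _ => simp [isD] at h
  | j x y hx _ => exact hD.conj _ (hx h) _
  | c x y hx hy =>
    rw [isD, Bool.and_eq_true] at h
    exact hD.comm _ (hx h.1) _ (hy h.2)

end Ex

/-- All members of a list lie in `D`. -/
def AllD (D : Set G) : List G → Prop
  | [] => True
  | x :: l => x ∈ D ∧ AllD D l

/-- All equations of a list hold. -/
def AllE (gs : List G) : List (Ex × Ex) → Prop
  | [] => True
  | p :: l => p.1.ev gs = p.2.ev gs ∧ AllE gs l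

omit [Group G] in
theorem AllD.mem {D : Set G} : ∀ {l : List G}, AllD D l → ∀ x ∈ l, x ∈ D
  | [], _ => by simp
  | _ :: _, h => List.forall_mem_cons.2 ⟨h.1, h.2.mem⟩

theorem AllE.mem {gs : List G} :
    ∀ {l : List (Ex × Ex)}, AllE gs l → ∀ p ∈ l, p.1.ev gs = p.2.ev gs
  | [], _ => by simp
  | _ :: _, h => List.forall_mem_cons.2 ⟨h.1, h.2.mem⟩

/-- The relator of an equation. -/
def rel (p : Ex × Ex) : List ℕ := p.1.w ++ p.2.w.reverse

/-- The check of a certificate. -/
def chk (n : ℕ) (ds : List Ex) (hs : List (Ex × Ex)) (t : Ex × Ex) (l : List (ℕ × ℕ × ℕ))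
    (s : ℕ) : Bool :=
  ds.all (Ex.isD n) &&
    (steps (lems (ds.map (fun d => d.w ++ d.w) ++ hs.map rel) l) (rel t)
      (dec 16777216 4096 s)).isEmpty

theorem IsC.run {D : Set G} (hD : IsC D) (gs : List G) (hg : AllD D gs) (hs : List (Ex × Ex))
    (hh : AllE gs hs) (t : Ex × Ex) (ds : List Ex) (l : List (ℕ × ℕ × ℕ)) (s n : ℕ)
    (hn : gs.length = n) (h : chk n ds hs t l s = true) : t.1.ev gs = t.2.ev gs := by
  subst hn
  have hq : ∀ a, gs.getD a 1 * gs.getD a 1 = 1 := by
    intro a
    rw [List.getD_eq_getElem?_getD]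
    cases h : gs[a]? with
    | none => simp
    | some x => exact hD.sq x (hg.mem x (List.mem_of_getElem? h))
  have hrel : ∀ p : Ex × Ex, wv gs (rel p) = p.1.ev gs * (p.2.ev gs)⁻¹ := fun p => by
    rw [rel, wv_append, wv_reverse hq, Ex.wv_w hq, Ex.wv_w hq]
  rw [chk, Bool.and_eq_true, List.all_eq_true, List.isEmpty_iff] at h
  have h1 := wv_steps hq (wv_lems hq l (ds.map (fun d => d.w ++ d.w) ++ hs.map rel) ?_)
    (dec 16777216 4096 s) (rel t)
  · rw [h.2, hrel, mul_inv_rev, inv_inv] at h1
    exact (mul_inv_eq_one.1 h1.symm).symm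
  · intro r hr
    rcases List.mem_append.1 hr with hr | hr
    · obtain ⟨d, hd, rfl⟩ := List.mem_map.1 hr
      rw [wv_append, Ex.wv_w hq]
      exact hD.sq _ (Ex.ev_mem hD hg.mem d (h.1 d hd))
    · obtain ⟨p, hp, rfl⟩ := List.mem_map.1 hr
      rw [hrel, hh.mem p hp, mul_inv_cancel]

end Pool.Agent.P.MP_25cc86_al
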