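import Pool.Agent.P.MP_25cc86_al.Unavoid

/-! The rewriting lemma: if squares `p p` and products `p q p` of iterated brackets of finitely
many ring elements lie in a subgroup stable under multiplication by these elements, then so do all
long monomials. -/

set_option linter.unusedSectionVars false

namespace Pool.Agent.P.MP_25cc86_al

variable {A : Type*} {R : Type*} [Ring R]

/-- The monomial of a word. -/
def mon (x : A → R) (w : List A) : R := (w.map x).prod

theorem mon_nil (x : A → R) : mon x [] = 1 := rfl

theorem mon_cons (x : A → R) (a : A) (w : List A) : mon x (a :: w) = x a * mon x w := by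
  simp [mon]

theorem mon_append (x : A → R) (u v : List A) : mon x (u ++ v) = mon x u * mon x v := by
  simp [mon]

/-- Iterated brackets of the elements `x a`. -/
inductive Br (x : A → R) : R → Prop
  | gen (a : A) : Br x (x a)
  | br {p q : R} : Br x p → Br x q → Br x (p * q - q * p)

variable [LinearOrder A]

/-- Span of the monomials of larger words of the same length. -/
def Big (x : A → R) (w : List A) : AddSubgroup R :=
  AddSubgroup.closure {r | ∃ v : List A, v.length = w.length ∧ Lt w v ∧ r = mon x v}

/-- Span of the monomials of length `n`. -/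
def Len (x : A → R) (n : ℕ) : AddSubgroup R :=
  AddSubgroup.closure {r | ∃ v : List A, v.length = n ∧ r = mon x v}

theorem big_le_len (x : A → R) (w : List A) : Big x w ≤ Len x w.length :=
  AddSubgroup.closure_mono fun _ ⟨v, h1, _, h3⟩ => ⟨v, h1, h3⟩

theorem big_mul_len {x : A → R} {u v : List A} {p q : R} (hp : p ∈ Big x u)
    (hq : q ∈ Len x v.length) : p * q ∈ Big x (u ++ v) := by
  induction hp using AddSubgroup.closure_induction with
  | mem p hp =>
    obtain ⟨u', h1, h2, rfl⟩ := hp
    induction hq using AddSubgroup.closure_induction with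
    | mem q hq =>
      obtain ⟨v', h3, rfl⟩ := hq
      exact AddSubgroup.subset_closure
        ⟨u' ++ v', by simp [h1, h3], h2.append _ _, (mon_append _ _ _).symm⟩
    | zero => simp
    | add a b _ _ ha hb => rw [mul_add]; exact add_mem ha hb
    | neg a _ ha => rw [mul_neg]; exact neg_mem ha
  | zero => simp
  | add a b _ _ ha hb => rw [add_mul]; exact add_mem ha hb
  | neg a _ ha => rw [neg_mul]; exact neg_mem ha

theorem mon_mul_big {x : A → R} (u : List A) {v : List A} {q : R} (hq : q ∈ Big x v) :
    mon x u * q ∈ Big x (u ++ v) := by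
  induction hq using AddSubgroup.closure_induction with
  | mem q hq =>
    obtain ⟨v', h3, h4, rfl⟩ := hq
    exact AddSubgroup.subset_closure
      ⟨u ++ v', by simp [h3], h4.left _, (mon_append _ _ _).symm⟩
  | zero => simp
  | add a b _ _ ha hb => rw [mul_add]; exact add_mem ha hb
  | neg a _ ha => rw [mul_neg]; exact neg_mem ha

/-- `p` is the monomial of `w` up to larger monomials. -/
def Approx (x : A → R) (p : R) (w : List A) : Prop := p - mon x w ∈ Big x w

theorem approx_mon (x : A → R) (w : List A) : Approx x (mon x w) w := by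
  simp [Approx]

theorem Approx.mul {x : A → R} {p q : R} {u v : List A} (hp : Approx x p u) (hq : Approx x q v) :
    Approx x (p * q) (u ++ v) := by
  have hq' : q ∈ Len x v.length := by
    have := add_mem (big_le_len x v hq) (AddSubgroup.subset_closure ⟨v, rfl, rfl⟩ :
      mon x v ∈ Len x v.length)
    simpa using this
  have := add_mem (big_mul_len hp hq') (mon_mul_big u hq)
  unfold Approx
  rw [mon_append]
  convert this using 1
  noncomm_ring

theorem Approx.big {x : A → R} {p : R} {u v : List A} (hp : Approx x p v) (h : Lt u v)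
    (hl : v.length = u.length) : p ∈ Big x u := by
  have h1 : Big x v ≤ Big x u := AddSubgroup.closure_mono fun _ ⟨w, h1, h2, h3⟩ =>
    ⟨w, h1.trans hl, h.trans h2, h3⟩
  have := add_mem (h1 hp) (AddSubgroup.subset_closure ⟨v, hl, h, rfl⟩ : mon x v ∈ Big x u)
  simpa using this

theorem Lyn.approx (x : A → R) {w : List A} (hw : Lyn w) : ∃ p, Br x p ∧ Approx x p w := by
  induction h : w.length using Nat.strong_induction_on generalizing w with
  | _ n ih =>
    by_cases h2 : 2 ≤ w.length
    · obtain ⟨u, v, hu, hv, rfl⟩ := hw.split h2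
      have h3 := List.length_pos_iff.2 hu.1
      have h4 := List.length_pos_iff.2 hv.1
      rw [List.length_append] at h
      obtain ⟨p, hp, hpa⟩ := ih u.length (by omega) hu rfl
      obtain ⟨q, hq, hqa⟩ := ih v.length (by omega) hv rfl
      refine ⟨_, hp.br hq, ?_⟩
      have h5 : Lt (u ++ v) (v ++ u) := by simpa using (hw.2 u v rfl hu.1 hv.1).append [] u
      have h6 := sub_mem (hpa.mul hqa) ((hqa.mul hpa).big h5 (by simp [Nat.add_comm]))
      unfold Approx
      convert h6 using 1
      abel
    · obtain ⟨a, w', rfl⟩ := List.exists_cons_of_ne_nil hw.1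
      have : w' = [] := List.length_eq_zero_iff.1 (by rw [List.length_cons] at h2; omega)
      subst this
      exact ⟨x a, Br.gen a, by simp [Approx, mon]⟩

omit [LinearOrder A] in
theorem rewrite [Finite A] (x : A → R) (J : AddSubgroup R)
    (hl : ∀ a, ∀ r ∈ J, x a * r ∈ J) (hr : ∀ a, ∀ r ∈ J, r * x a ∈ J)
    (h2 : ∀ p, Br x p → p * p ∈ J) (h3 : ∀ p q, Br x p → Br x q → p * q * p ∈ J) :
    ∃ N, ∀ w : List A, w.length = N → mon x w ∈ J := by
  classical
  obtain ⟨n, ⟨e⟩⟩ := Finite.exists_equiv_fin A
  letI : LinearOrder A := LinearOrder.lift' e e.injective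
  obtain ⟨N, hN⟩ := exists_pat (A := A)
  refine ⟨N, ?_⟩
  have hml : ∀ (α : List A), ∀ r ∈ J, mon x α * r ∈ J := by
    intro α r hr'
    induction α with
    | nil => simpa [mon_nil] using hr'
    | cons a α ih => rw [mon_cons, mul_assoc]; exact hl _ _ ih
  have hmr : ∀ (α : List A), ∀ r ∈ J, r * mon x α ∈ J := by
    intro α
    induction α with
    | nil => intro r hr'; simpa [mon_nil] using hr'
    | cons a α ih => intro r hr'; rw [mon_cons, ← mul_assoc]; exact ih _ (hr _ _ hr')
  have : Finite {w : List A // w.length = N} := (List.finite_length_eq A N).to_subtype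
  have : IsTrans {w : List A // w.length = N} (fun a b => Lt b.1 a.1) :=
    ⟨fun _ _ _ h1 h2 => h2.trans h1⟩
  have : Std.Irrefl (fun a b : {w : List A // w.length = N} => Lt b.1 a.1) :=
    ⟨fun a => Lt.irrefl _⟩
  have hwf := Finite.wellFounded_of_trans_of_irrefl
    (fun a b : {w : List A // w.length = N} => Lt b.1 a.1)
  suffices ∀ w : {w : List A // w.length = N}, mon x w.1 ∈ J from fun w hw => this ⟨w, hw⟩
  intro w
  induction w using hwf.induction with
  | _ w ih =>
    have hbig : Big x w.1 ≤ J := (AddSubgroup.closure_le _).2 fun _ ⟨v, h1, h2, h3⟩ =>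
      h3 ▸ ih ⟨v, h1.trans w.2⟩ h2
    obtain ⟨α, u, v, β, hw, hu, hv⟩ := hN w.1 w.2
    obtain ⟨p, hp, hpa⟩ := hu.approx x
    have : ∃ r ∈ J, Approx x r (u ++ v ++ u) := by
      rcases hv with rfl | hv
      · exact ⟨p * p, h2 p hp, by simpa using hpa.mul hpa⟩
      · obtain ⟨q, hq, hqa⟩ := hv.approx x
        exact ⟨p * q * p, h3 p q hp hq, (hpa.mul hqa).mul hpa⟩
    obtain ⟨r, hrJ, hra⟩ := this
    have h4 := ((approx_mon x α).mul hra).mul (approx_mon x β)
    rw [← hw] at h4
    have := sub_mem (hmr β _ (hml α _ hrJ)) (hbig h4)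
    simpa using this

end Pool.Agent.P.MP_25cc86_al
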