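import Pool.Agent.P.MP_25cc86_al.Main
import Pool.Agent.P.MP_25cc86_al.Z2

/-! Thick elements, the centre of a group generated by a thin set, and the final reduction. -/

namespace Pool.Agent.P.MP_25cc86_al

open Subgroup

variable {G : Type*} [Group G]

/-- Thick elements. -/
def Thk (D : Set G) (y : G) : Prop := ∀ d ∈ D, ∀ e ∈ D, Commute y (cj y (d * e))

theorem cj_mul (x g h : G) : cj x (g * h) = cj (cj x g) h := by
  simp only [cj, mul_inv_rev, mul_assoc]

theorem commute_cj {x y : G} (h : Commute x y) (g : G) : Commute (cj x g) (cj y g) := by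
  have := h.eq
  unfold cj
  change _ = _
  calc g⁻¹ * x * g * (g⁻¹ * y * g) = g⁻¹ * (x * y) * g := by group
    _ = g⁻¹ * (y * x) * g := by rw [this]
    _ = g⁻¹ * y * g * (g⁻¹ * x * g) := by group

theorem map_cj {H : Type*} [Group H] (f : G →* H) (x g : G) : f (cj x g) = cj (f x) (f g) := by
  simp only [cj, map_mul, map_inv]

theorem Thk.image {H : Type*} [Group H] {D : Set G} {y : G} (h : Thk D y) (f : G →* H) :
    Thk (f '' D) (f y) := by
  rintro _ ⟨d, hd, rfl⟩ _ ⟨e, he, rfl⟩
  rw [← map_mul, ← map_cj]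
  exact (h d hd e he).map f

namespace IsC

variable {D : Set G} (hD : IsC D)
include hD

theorem cm_eq_cj {a b : G} (hb : b ∈ D) : cm a b = a * cj a b := by
  simp only [cm, cj, inv_of_sq (hD.sq b hb), mul_assoc]

theorem cj_cj {a b : G} (hb : b ∈ D) : cj (cj a b) b = a := by
  rw [← cj_mul, hD.sq b hb]; simp [cj]

theorem comm_cj {a b : G} (ha : a ∈ D) (hb : b ∈ D) : Commute a (cj a b) := by
  have h : Commute a (cm a b) := hD.cm_comm_left ha hb
  have h2 : cj a b = a * cm a b := by rw [hD.cm_eq_cj hb, cancel_sq (hD.sq a ha)]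
  rw [h2]
  exact (Commute.refl a).mul_right h

theorem thk_cj {y u v : G} (h : Thk D y) (hu : u ∈ D) (hv : v ∈ D) :
    Commute (cj y u) (cj y v) := by
  have := commute_cj (h v hv u hu) u
  rwa [cj_mul, hD.cj_cj hu] at this

theorem isC_thk : IsC {y | y ∈ D ∧ Thk D y} where
  sq y hy := hD.sq y hy.1
  conj y hy g := by
    refine ⟨hD.conj y hy.1 g, fun d hd e he => ?_⟩
    have := commute_cj (hy.2 _ (hD.conj d hd g⁻¹) _ (hD.conj e he g⁻¹)) g
    have h2 : cj (cj y (g⁻¹⁻¹ * d * g⁻¹ * (g⁻¹⁻¹ * e * g⁻¹))) g = cj (g⁻¹ * y * g) (d * e) := by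
      simp only [cj]; group
    rwa [h2] at this
  comm a ha b hb := by
    refine ⟨hD.comm a ha.1 b hb.1, fun d hd e he => hD.z2 ha.1 hb.1 hd he ?_ ?_⟩
    · intro x hx
      rw [hD.cm_eq_cj hb.1]
      exact (hD.comm_cj ha.1 hx).mul_left (hD.thk_cj ha.2 hb.1 hx)
    · intro x hx
      rw [← hD.cm_symm ha.1 hb.1, hD.cm_eq_cj ha.1]
      exact (hD.comm_cj hb.1 hx).mul_left (hD.thk_cj hb.2 ha.1 hx)

theorem commute_of_cm {a b : G} (ha : a ∈ D) (hb : b ∈ D) (h : cm a b = 1) : Commute a b :=
  comm_of_sq (hD.sq a ha) (hD.sq b hb) h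

theorem thin_one {b u v : G} (hb : b ∈ D) (hu : u ∈ D) (hv : v ∈ D) (h : Thk D u) :
    Commute (cm (cm b u) v) u := by
  have h1 : Commute (cm b u) (cj u v) := by
    rw [← hD.cm_symm hb hu, hD.cm_eq_cj hb]
    exact (hD.comm_cj hu hv).mul_left (hD.thk_cj h hb hv)
  have h2 : Commute (cm b u) u := (show Commute u (cm b u) from hD.cm_comm_right hb hu).symm
  have h3 := commute_cj h1 v
  rw [hD.cj_cj hv] at h3
  rw [hD.cm_eq_cj hv]
  exact h2.mul_left h3

theorem thin_two {b u v : G} (hb : b ∈ D) (hu : u ∈ D) (hv : v ∈ D) (h : Thk D u)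
    (hbv : Commute b v) : cm b (cm u v) = cm (cm b u) v := by
  have h1 := (hD.thin_one hb hu hv h).eq
  have h2 : cj b v = b := by
    rw [cj, mul_assoc, hbv.eq, inv_mul_cancel_left]
  have h3 : cm (cm b u) v = cj b u * cj (cj b u) v := by
    have h4 : cj (b * cj b u) v = cj b v * cj (cj b u) v := by simp only [cj]; group
    rw [hD.cm_eq_cj hv, hD.cm_eq_cj hu, h4, h2, (hD.comm_cj hb hu).eq, mul_assoc,
      cancel_sq (hD.sq b hb)]
  have h5 : cm b (cm u v) = cj (cm (cm b u) v) u := by
    have h6 : cm u v = v * u * v * u := by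
      rw [← hD.cm_symm hu hv]; simp only [cm, mul_assoc]
    have h7 : cj (cj b u * cj (cj b u) v) u = cj (cj b u) u * cj (cj (cj b u) v) u := by
      simp only [cj]; group
    rw [hD.cm_eq_cj (hD.comm u hu v hv), h6, cj_mul, cj_mul, cj_mul, h2, h3, h7, hD.cj_cj hu]
  rw [h5, cj, mul_assoc, h1, inv_mul_cancel_left]

end IsC

/-- Left normed commutators along a word. -/
def evw {A : Type*} (x : A → G) (b : G) (w : List A) : G := w.foldl (fun b i => cm b (x i)) b

theorem evw_append {A : Type*} (x : A → G) (b : G) (u v : List A) :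
    evw x b (u ++ v) = evw x (evw x b u) v := List.foldl_append

theorem IsC.centre {D : Set G} (hD : IsC D) (hT : ∀ y ∈ D, Thk D y) {m : ℕ} (x : Fin m → G)
    (hx : ∀ i, x i ∈ D) {a : G} (ha : a ∈ D) (ha1 : a ≠ 1) :
    ∃ z ∈ D, z ≠ 1 ∧ ∀ i, Commute z (x i) := by
  classical
  by_contra hc
  have hc' : ∀ z ∈ D, z ≠ 1 → ∃ i, cm z (x i) ≠ 1 := by
    intro z hz h1
    by_contra h
    exact hc ⟨z, hz, h1, fun i => hD.commute_of_cm hz (hx i) (by
      by_contra h2; exact h ⟨i, h2⟩)⟩
  have hmem : ∀ (w : List (Fin m)) (b : G), b ∈ D → evw x b w ∈ D := by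
    intro w
    induction w with
    | nil => exact fun b hb => hb
    | cons i w ih => exact fun b hb => ih _ (hD.comm b hb _ (hx i))
  have hone : ∀ w : List (Fin m), evw x 1 w = 1 := by
    intro w
    induction w with
    | nil => rfl
    | cons i w ih =>
      have : cm 1 (x i) = 1 := by simp [cm, hD.sq _ (hx i)]
      change evw x (cm 1 (x i)) w = 1
      rw [this, ih]
  have hgreedy : ∀ N, ∃ w : List (Fin m), w.length = N ∧ evw x a w ≠ 1 ∧
      ∀ p i s, w = p ++ i :: s → ∀ j, i < j → cm (evw x a p) (x j) = 1 := by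
    intro N
    induction N with
    | zero => exact ⟨[], rfl, ha1, fun p i s h => by simp at h⟩
    | succ N ih =>
      obtain ⟨w, h1, h2, h3⟩ := ih
      obtain ⟨i0, hi0⟩ := hc' _ (hmem w a ha) h2
      obtain ⟨i, hi, hmax⟩ := Finset.exists_max_image
        (Finset.univ.filter fun j => cm (evw x a w) (x j) ≠ 1) id ⟨i0, by simpa using hi0⟩
      refine ⟨w ++ [i], by simp [h1], by rw [evw_append]; exact (Finset.mem_filter.1 hi).2, ?_⟩
      intro p k s h j hkj
      rcases List.eq_nil_or_concat s with rfl | ⟨s', l, rfl⟩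
      · obtain ⟨rfl, h5⟩ := List.append_inj' h rfl
        obtain rfl : i = k := by simpa using h5
        by_contra h6
        exact absurd (hmax j (by simpa using h6)) (not_le.2 hkj)
      · refine h3 p k s' ?_ j hkj
        have : w ++ [i] = (p ++ k :: s') ++ [l] := by simpa using h
        exact (List.append_inj' this rfl).1
  let Gr : G → List (Fin m) → Prop := fun b c => ∀ W, Lt c W → evw x b W = 1
  have gr1 : ∀ b u v, Gr b (u ++ v) → Gr b u := fun b u v h W hW =>
    h W (by simpa using hW.append v [])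
  have gr2 : ∀ b u v, Gr b (u ++ v) → Gr (evw x b u) v := fun b u v h W hW => by
    rw [← evw_append]; exact h _ (hW.left u)
  have hlyn : ∀ n (c : List (Fin m)), c.length ≤ n → Lyn c →
      ∃ U ∈ D, ∀ b ∈ D, Gr b c → cm b U = evw x b c := by
    intro n
    induction n with
    | zero => exact fun c h1 h2 => absurd (List.length_eq_zero_iff.1 (by omega)) h2.1
    | succ n ih =>
      intro c h1 h2
      by_cases h3 : 2 ≤ c.length
      · obtain ⟨u, v, hu, hv, rfl⟩ := h2.split h3
        have h4 := List.length_pos_iff.2 hu.1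
        have h5 := List.length_pos_iff.2 hv.1
        rw [List.length_append] at h1
        obtain ⟨U, hU, eU⟩ := ih u (by omega) hu
        obtain ⟨V, hV, eV⟩ := ih v (by omega) hv
        refine ⟨cm U V, hD.comm U hU V hV, fun b hb hg => ?_⟩
        have h6 := h2.2 u v rfl hu.1 hv.1
        have h7 : cm b V = 1 := by
          rw [eV b hb fun W hW => hg W (h6.trans hW)]; exact hg v h6
        rw [hD.thin_two hb hU hV (hT U hU) (hD.commute_of_cm hb hV h7), eU b hb (gr1 b u v hg),
          eV _ (hmem u b hb) (gr2 b u v hg), evw_append]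
      · have h4 := List.length_pos_iff.2 h2.1
        obtain ⟨i, rfl⟩ := List.length_eq_one_iff.1 (show c.length = 1 by omega)
        exact ⟨x i, hx i, fun b _ _ => rfl⟩
  obtain ⟨N, hN⟩ := exists_pat (A := Fin m)
  obtain ⟨w, h1, h2, h3⟩ := hgreedy N
  obtain ⟨α, u, v, β, rfl, hu, hv⟩ := hN w h1
  have hb := hmem α a ha
  have hg : Gr (evw x a α) (u ++ v ++ u ++ β) := by
    rintro W ⟨p, i, j, s, t, h4, rfl, hij⟩
    have h5 := h3 (α ++ p) i s (by rw [List.append_assoc α, h4, List.append_assoc]) j hij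
    rw [evw_append, ← evw_append x a]
    change evw x (cm _ (x j)) t = 1
    rw [h5, hone]
  apply h2
  rw [evw_append, evw_append]
  generalize evw x a α = b at hb hg
  have hg1 := gr1 _ _ _ hg
  obtain ⟨U, hU, eU⟩ := hlyn _ u le_rfl hu
  have e1 := eU b hb (gr1 _ _ _ (gr1 _ _ _ hg1))
  have e3 := eU _ (hmem (u ++ v) b hb) (gr2 _ _ _ hg1)
  have key : evw x b (u ++ v ++ u) = 1 := by
    rw [evw_append, ← e3]
    refine hD.cm_eq_one (hmem _ b hb) hU ?_
    rcases hv with rfl | hv
    · rw [List.append_nil, ← e1]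
      exact (hD.cm_comm_right hb hU).symm
    · obtain ⟨V, hV, eV⟩ := hlyn _ v le_rfl hv
      rw [evw_append, ← eV _ (hmem u b hb) (gr2 _ _ _ (gr1 _ _ _ hg1)), ← e1]
      exact (hD.thin_one hb hU hV (hT U hU)).eq
  rw [key, hone]

theorem exists_list_commute {S : Set G} {g : G} (hg : g ∈ closure S) :
    ∃ l : List G, (∀ s ∈ l, s ∈ S) ∧ ∀ z, (∀ s ∈ l, Commute z s) → Commute z g := by
  induction hg using closure_induction with
  | mem g hg => exact ⟨[g], by simpa using hg, fun z h => h g (by simp)⟩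
  | one => exact ⟨[], by simp, fun z _ => Commute.one_right z⟩
  | mul g h _ _ ihg ihh =>
    obtain ⟨l1, a1, b1⟩ := ihg
    obtain ⟨l2, a2, b2⟩ := ihh
    refine ⟨l1 ++ l2, fun s hs => (List.mem_append.1 hs).elim (a1 s) (a2 s), fun z hz => ?_⟩
    exact (b1 z fun s hs => hz s (List.mem_append_left _ hs)).mul_right
      (b2 z fun s hs => hz s (List.mem_append_right _ hs))
  | inv g _ ih =>
    obtain ⟨l, a, b⟩ := ih
    exact ⟨l, a, fun z hz => (b z hz).inv_right⟩

theorem exists_list_commute_finset {S : Set G} (T : Finset G) (hT : ∀ g ∈ T, g ∈ closure S) :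
    ∃ l : List G, (∀ s ∈ l, s ∈ S) ∧ ∀ z, (∀ s ∈ l, Commute z s) → ∀ g ∈ T, Commute z g := by
  classical
  induction T using Finset.induction_on with
  | empty => exact ⟨[], by simp, by simp⟩
  | insert g T _ ih =>
    obtain ⟨l1, a1, b1⟩ := exists_list_commute (hT g (Finset.mem_insert_self _ _))
    obtain ⟨l2, a2, b2⟩ := ih fun g hg => hT g (Finset.mem_insert_of_mem hg)
    refine ⟨l1 ++ l2, fun s hs => (List.mem_append.1 hs).elim (a1 s) (a2 s), fun z hz k hk => ?_⟩
    rcases Finset.mem_insert.1 hk with rfl | hk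
    · exact b1 z fun s hs => hz s (List.mem_append_left _ hs)
    · exact b2 z (fun s hs => hz s (List.mem_append_right _ hs)) k hk

/-- In a group with a perfect least nontrivial normal subgroup of finite index, thick elements
are trivial. -/
theorem IsC.thk_eq_one {D : Set G} (hD : IsC D) [Group.FG G] {R : Subgroup G} [R.FiniteIndex]
    (hR : ⁅R, R⁆ = R) (hR1 : R ≠ ⊥) (hmin : ∀ K : Subgroup G, K.Normal → K ≠ ⊥ → R ≤ K)
    {y : G} (hy : y ∈ D) (ht : Thk D y) : y = 1 := by
  by_contra hy1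
  have hS := hD.isC_thk
  set S := {y | y ∈ D ∧ Thk D y} with hSdef
  have hN : (closure S).Normal := by
    refine ⟨fun k hk g => ?_⟩
    induction hk using closure_induction with
    | mem k hk => exact subset_closure (by simpa using hS.conj k hk g⁻¹)
    | one => simp
    | mul a b _ _ ha hb => simpa [mul_assoc] using mul_mem ha hb
    | inv a _ ha => simpa [mul_assoc] using inv_mem ha
  have hRN : R ≤ closure S := hmin _ hN fun h => hy1 (by
    have : y ∈ closure S := subset_closure ⟨hy, ht⟩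
    rwa [h, mem_bot] at this)
  have : (closure S).FiniteIndex := finiteIndex_of_le hRN
  obtain ⟨T, hT⟩ : (closure S).FG := (Group.fg_iff_subgroup_fg _).1 inferInstance
  obtain ⟨l, hl1, hl2⟩ := exists_list_commute_finset (S := S) T fun g hg =>
    hT ▸ subset_closure hg
  obtain ⟨z, hz, hz1, hz2⟩ := hS.centre (fun y hy d hd e he => hy.2 d hd.1 e he.1) l.get
    (fun i => hl1 _ (List.get_mem l i)) ⟨hy, ht⟩ hy1
  have hz3 : z ∈ centralizer (closure S : Set G) := by
    rw [← hT, centralizer_closure, mem_centralizer_iff]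
    intro g hg
    refine (hl2 z (fun s hs => ?_) g hg).symm.eq
    obtain ⟨i, rfl⟩ := List.get_of_mem hs
    exact hz2 i
  have hRC : R ≤ centralizer (closure S : Set G) := hmin _ inferInstance fun h => hz1 (by
    rwa [h, mem_bot] at hz3)
  refine hR1 ?_
  rw [← hR, commutator_eq_bot_iff_le_centralizer]
  exact hRC.trans (centralizer_le hRN)

theorem exists_max_normal {R : Subgroup G} (hfg : R.FG) (hR : R ≠ ⊥) :
    ∃ M : Subgroup G, M.Normal ∧ ¬ R ≤ M ∧ ∀ K : Subgroup G, K.Normal → M ≤ K → K ≠ M → R ≤ K := by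
  classical
  obtain ⟨T, rfl⟩ := hfg
  obtain ⟨M, -, hM⟩ := zorn_le_nonempty₀ {M : Subgroup G | M.Normal ∧ ¬ closure (T : Set G) ≤ M}
    (fun c hc hchain y hy => by
      have hmem : ∀ g, g ∈ sSup c ↔ ∃ K ∈ c, g ∈ K := fun g =>
        mem_sSup_of_directedOn ⟨y, hy⟩ hchain.directedOn
      refine ⟨sSup c, ⟨⟨fun k hk g => ?_⟩, fun h => ?_⟩, fun z hz => le_sSup hz⟩
      · obtain ⟨K, hK, hk⟩ := (hmem k).1 hk
        exact (hmem _).2 ⟨K, hK, (hc hK).1.conj_mem k hk g⟩
      · have key : ∀ U : Finset G, (∀ g ∈ U, g ∈ sSup c) → ∃ K ∈ c, ∀ g ∈ U, g ∈ K := by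
          intro U
          induction U using Finset.induction_on with
          | empty => exact fun _ => ⟨y, hy, by simp⟩
          | insert g U _ ih =>
            intro hU
            obtain ⟨K1, hK1, h1⟩ := ih fun g hg => hU g (Finset.mem_insert_of_mem hg)
            obtain ⟨K2, hK2, h2⟩ := (hmem g).1 (hU g (Finset.mem_insert_self _ _))
            obtain ⟨K, hK, h3, h4⟩ := hchain.directedOn K1 hK1 K2 hK2
            refine ⟨K, hK, fun k hk => ?_⟩
            rcases Finset.mem_insert.1 hk with rfl | hk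
            · exact h4 h2
            · exact h3 (h1 k hk)
        obtain ⟨K, hK, h1⟩ := key T fun g hg => h (subset_closure hg)
        exact (hc hK).2 ((closure_le _).2 fun g hg => h1 g hg)) ⊥
    ⟨inferInstance, fun h => hR (le_bot_iff.1 h)⟩
  refine ⟨M, hM.prop.1, hM.prop.2, fun K hK hMK hne => ?_⟩
  by_contra h
  exact hne (le_antisymm (hM.le_of_ge ⟨hK, h⟩ hMK) hMK)

/-- The reduction: it suffices to show that a quotient without thick elements is trivial. -/
theorem IsC.final {D : Set G} (hD : IsC D) {n : ℕ} (x : Fin n → G) (hx : ∀ i, x i ∈ D)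
    (hgen : closure (Set.range x) = ⊤)
    (chain : ∀ (M : Subgroup G) [M.Normal],
      (∀ y ∈ QuotientGroup.mk' M '' D, Thk (QuotientGroup.mk' M '' D) y → y = 1) →
        ∀ a ∈ D, QuotientGroup.mk' M a = 1) : Finite G ∧ IsPGroup 2 G := by
  obtain ⟨c, B, h⟩ := main n
  obtain ⟨⟨k, hk⟩, -, hperf, -⟩ := h G D hD x hx hgen
  have hfg : Group.FG G := Group.fg_iff.2 ⟨_, hgen, Set.finite_range x⟩
  have hfi : (gam G c).FiniteIndex := ⟨by rw [hk]; positivity⟩
  have hbot : gam G c = ⊥ := by
    by_contra hne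
    obtain ⟨M, hM, h1, h2⟩ := exists_max_normal
      ((Group.fg_iff_subgroup_fg (gam G c)).1 inferInstance) hne
    have hs := QuotientGroup.mk'_surjective M
    have hq : Group.FG (G ⧸ M) := Group.fg_of_surjective hs
    have : ((gam G c).map (QuotientGroup.mk' M)).FiniteIndex :=
      ⟨ne_zero_of_dvd_ne_zero hfi.index_ne_zero (index_map_dvd _ hs)⟩
    have h3 := chain M fun y hy ht => (hD.image _ hs).thk_eq_one
      (R := (gam G c).map (QuotientGroup.mk' M)) (by rw [← map_commutator, hperf])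
      (fun h => h1 ((le_iff_map_bot M).2 h)) (fun K hK hK1 => by
        refine map_le_iff_le_comap.2 (h2 _ inferInstance (fun g hg => ?_) fun h => hK1 ?_)
        · rw [mem_comap, QuotientGroup.mk'_apply, (QuotientGroup.eq_one_iff g).2 hg]
          exact one_mem K
        · rw [← map_comap_eq_self_of_surjective hs K, h]
          exact (le_iff_map_bot M).1 le_rfl) hy ht
    refine h1 (le_top.trans ?_)
    rw [← hgen, closure_le]
    rintro _ ⟨i, rfl⟩
    exact (QuotientGroup.eq_one_iff _).1 (h3 _ (hx i))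
  rw [hbot, index_bot] at hk
  exact ⟨Nat.finite_of_card_ne_zero (by rw [hk]; positivity), IsPGroup.of_card hk⟩

end Pool.Agent.P.MP_25cc86_al
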