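import Pool.Agent.P.MP_25cc86_al.Sandwich

/-! Sets of involutions closed under conjugation and commutators, and their images in rings of
characteristic two in which the norms of the dihedral subgroups vanish. -/

namespace Pool.Agent.P.MP_25cc86_al

variable {G : Type*} [Group G]

/-- The commutator of two involutions. -/
def cm (a b : G) : G := a * b * (a * b)

/-- A set of elements of order at most two, closed under conjugation and commutators. -/
structure IsC (D : Set G) : Prop where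
  sq : ∀ d ∈ D, d * d = 1
  conj : ∀ d ∈ D, ∀ g : G, g⁻¹ * d * g ∈ D
  comm : ∀ a ∈ D, ∀ b ∈ D, cm a b ∈ D

theorem cancel_sq {a : G} (h : a * a = 1) (g : G) : a * (a * g) = g := by
  rw [← mul_assoc, h, one_mul]

theorem inv_of_sq {a : G} (h : a * a = 1) : a⁻¹ = a := inv_eq_of_mul_eq_one_right h

theorem comm_of_sq {a b : G} (ha : a * a = 1) (hb : b * b = 1) (h : a * b * (a * b) = 1) :
    a * b = b * a := by
  have := inv_of_sq h
  rw [mul_inv_rev, inv_of_sq ha, inv_of_sq hb] at this
  exact this.symm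

namespace IsC

variable {D : Set G} (hD : IsC D)
include hD

theorem conj' {d y : G} (hd : d ∈ D) (hy : y ∈ D) : y * d * y ∈ D := by
  have := hD.conj d hd y
  rwa [inv_of_sq (hD.sq y hy)] at this

theorem mul_cm {a b : G} (ha : a ∈ D) : a * cm a b = b * a * b := by
  simp only [cm, mul_assoc, cancel_sq (hD.sq a ha)]

theorem cm_symm {a b : G} (ha : a ∈ D) (hb : b ∈ D) : cm b a = cm a b := by
  rw [← inv_of_sq (hD.sq _ (hD.comm a ha b hb))]
  simp only [cm, mul_inv_rev, inv_of_sq (hD.sq a ha), inv_of_sq (hD.sq b hb), mul_assoc]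

theorem mul_cm_mem {a b : G} (ha : a ∈ D) (hb : b ∈ D) : a * cm a b ∈ D := by
  rw [hD.mul_cm ha]; exact hD.conj' ha hb

theorem cm_comm_left {a b : G} (ha : a ∈ D) (hb : b ∈ D) : a * cm a b = cm a b * a :=
  comm_of_sq (hD.sq a ha) (hD.sq _ (hD.comm a ha b hb)) (hD.sq _ (hD.mul_cm_mem ha hb))

theorem cm_comm_right {a b : G} (ha : a ∈ D) (hb : b ∈ D) : b * cm a b = cm a b * b := by
  rw [← hD.cm_symm ha hb]; exact hD.cm_comm_left hb ha

theorem swap {a b : G} (ha : a ∈ D) (hb : b ∈ D) : a * b = b * a * cm a b := by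
  simp only [cm, mul_assoc, cancel_sq (hD.sq a ha), cancel_sq (hD.sq b hb)]

theorem cm_eq_one {a b : G} (ha : a ∈ D) (hb : b ∈ D) (h : a * b = b * a) : cm a b = 1 := by
  unfold cm
  conv_lhs => rw [mul_assoc, ← mul_assoc b, ← h]
  simp only [mul_assoc, cancel_sq (hD.sq a ha), hD.sq b hb]

end IsC

section ring

variable {R : Type*} [Ring R] (φ : G →* R)

/-- The image of `g - 1` in characteristic two. -/
def X (g : G) : R := φ g + 1

/-- The standing hypotheses: characteristic two, and vanishing dihedral norms. -/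
structure Hyp (D : Set G) : Prop where
  isC : IsC D
  two : ∀ r : R, r + r = 0
  norm : ∀ a ∈ D, ∀ b ∈ D, X φ a * X φ b * X φ (cm a b) = 0

/-- The span of the `X d`. -/
def LL (D : Set G) : AddSubgroup R := AddSubgroup.closure (X φ '' D)

/-- Thick sandwiches. -/
def Th (D : Set G) : Set R := {σ | σ ∈ LL φ D ∧ σ * σ = 0 ∧ ∀ l ∈ LL φ D, σ * l * σ = 0}

variable {φ} {D : Set G} (H : Hyp φ D)
include H

namespace Hyp

theorem X_one : X φ 1 = 0 := by simp [X, H.two]

theorem X_mul (g h : G) : X φ (g * h) = X φ g * X φ h + X φ g + X φ h := by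
  simp only [X, map_mul]
  linear_combination (norm := noncomm_ring) - H.two (φ g) - H.two (φ h) - H.two 1

theorem X_sq {d : G} (hd : d ∈ D) : X φ d * X φ d = 0 := by
  have := H.X_mul d d
  rw [H.isC.sq d hd, H.X_one] at this
  linear_combination (norm := noncomm_ring) - this - H.two (X φ d)

theorem brk {a d : G} (ha : a ∈ D) (hd : d ∈ D) :
    X φ a * X φ d + X φ d * X φ a =
      X φ (cm a d) + X φ a * X φ (cm a d) + X φ d * X φ (cm a d) := by
  have h1 := H.X_mul a d
  rw [H.isC.swap ha hd, H.X_mul, H.X_mul] at h1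
  have h2 := H.norm d hd a ha
  rw [H.isC.cm_symm ha hd] at h2
  linear_combination (norm := noncomm_ring) - h1 + h2 + H.two (X φ d * X φ a)

theorem sand {a d : G} (ha : a ∈ D) (hd : d ∈ D) :
    X φ a * X φ d * X φ a = X φ a * X φ (cm a d) := by
  linear_combination (norm := noncomm_ring) X φ a * H.brk ha hd + H.norm a ha d hd -
    H.X_sq ha * X φ d + H.X_sq ha * X φ (cm a d)

theorem s_eq (a k : G) : X φ a * X φ k = X φ a + X φ k + X φ (a * k) := by
  linear_combination (norm := noncomm_ring) - H.X_mul a k - H.two (X φ a) - H.two (X φ k)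

omit H in
theorem X_mem {d : G} (hd : d ∈ D) : X φ d ∈ LL φ D := AddSubgroup.subset_closure ⟨d, hd, rfl⟩

theorem s_mem {a d : G} (ha : a ∈ D) (hd : d ∈ D) : X φ a * X φ (cm a d) ∈ LL φ D := by
  rw [H.s_eq]
  exact add_mem (add_mem (X_mem ha) (X_mem (H.isC.comm a ha d hd)))
    (X_mem (H.isC.mul_cm_mem ha hd))

theorem brk_mem {p q : R} (hp : p ∈ LL φ D) (hq : q ∈ LL φ D) : p * q + q * p ∈ LL φ D := by
  induction hp using AddSubgroup.closure_induction with
  | mem p hp =>
    obtain ⟨a, ha, rfl⟩ := hp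
    induction hq using AddSubgroup.closure_induction with
    | mem q hq =>
      obtain ⟨d, hd, rfl⟩ := hq
      rw [H.brk ha hd]
      refine add_mem (add_mem (X_mem (H.isC.comm a ha d hd)) (H.s_mem ha hd)) ?_
      rw [← H.isC.cm_symm ha hd]; exact H.s_mem hd ha
    | zero => simp
    | add a b _ _ ha hb => convert add_mem ha hb using 1; noncomm_ring
    | neg a _ ha => convert neg_mem ha using 1; noncomm_ring
  | zero => simp
  | add a b _ _ ha hb => convert add_mem ha hb using 1; noncomm_ring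
  | neg a _ ha => convert neg_mem ha using 1; noncomm_ring

theorem sand_mem {y : G} (hy : y ∈ D) {q : R} (hq : q ∈ LL φ D) : X φ y * q * X φ y ∈ LL φ D := by
  induction hq using AddSubgroup.closure_induction with
  | mem q hq =>
    obtain ⟨d, hd, rfl⟩ := hq
    rw [H.sand hy hd]; exact H.s_mem hy hd
  | zero => simp
  | add a b _ _ ha hb => convert add_mem ha hb using 1; noncomm_ring
  | neg a _ ha => convert neg_mem ha using 1; noncomm_ring

theorem phi_sq {y : G} (hy : y ∈ D) : φ y * φ y = 1 := by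
  rw [← map_mul, H.isC.sq y hy, map_one]

theorem conj_mem {y : G} (hy : y ∈ D) {q : R} (hq : q ∈ LL φ D) : φ y * q * φ y ∈ LL φ D := by
  induction hq using AddSubgroup.closure_induction with
  | mem q hq =>
    obtain ⟨d, hd, rfl⟩ := hq
    have : φ y * X φ d * φ y = X φ (y * d * y) := by
      simp only [X, map_mul]
      linear_combination (norm := noncomm_ring) H.phi_sq hy
    rw [this]; exact X_mem (H.isC.conj' hd hy)
  | zero => simp
  | add a b _ _ ha hb => convert add_mem ha hb using 1; noncomm_ring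
  | neg a _ ha => convert neg_mem ha using 1; noncomm_ring

theorem thick_gen {x y z : G} (hx : x ∈ D) (hy : y ∈ D) (hz : z ∈ D) :
    X φ x * X φ y * X φ x * X φ z * (X φ x * X φ y * X φ x) = 0 := by
  have hD := H.isC
  obtain ⟨k, hk⟩ : ∃ k, k = cm x z := ⟨_, rfl⟩
  obtain ⟨k0, hk0⟩ : ∃ k0, k0 = cm x y := ⟨_, rfl⟩
  have hkD : k ∈ D := hk ▸ hD.comm x hx z hz
  have hk0D : k0 ∈ D := hk0 ▸ hD.comm x hx y hy
  have hxkD : x * k ∈ D := hk ▸ hD.mul_cm_mem hx hz
  have hxk : x * k = k * x := hk ▸ hD.cm_comm_left hx hz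
  have hxk0 : x * k0 = k0 * x := hk0 ▸ hD.cm_comm_left hx hy
  have hxk' : ∀ g, x * (k * g) = k * (x * g) := fun g => by rw [← mul_assoc, hxk, mul_assoc]
  have hxx := cancel_sq (hD.sq x hx)
  have hyy := cancel_sq (hD.sq y hy)
  have hkk := cancel_sq (hD.sq k hkD)
  have hyx : cm y x = k0 := by rw [hk0, hD.cm_symm hx hy]
  obtain ⟨c, hc⟩ : ∃ c, c = cm y k := ⟨_, rfl⟩
  have hcD : c ∈ D := hc ▸ hD.comm y hy k hkD
  obtain ⟨κ, hκ⟩ : ∃ κ, κ = k * k0 * k := ⟨_, rfl⟩
  have hκD : κ ∈ D := hκ ▸ hD.conj' hk0D hkD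
  have e1 : cm x k0 = 1 := hD.cm_eq_one hx hk0D hxk0
  have e2 : cm x (y * k0) = k0 := by
    conv_lhs => rw [← hyx, hD.mul_cm hy]
    rw [← hyx]
    simp only [cm, mul_assoc, hxx]
  have e3 : cm x (y * c) = κ := by
    rw [hc, hD.mul_cm hy, hκ, hk0]
    simp only [cm, mul_assoc, hxk', hkk]
  have e4 : cm y (x * k) = c * κ := by
    rw [hc, hκ, ← hyx]
    simp only [cm, mul_assoc, hxk', hkk, hyy]
  have e5 : cm x (y * cm y (x * k)) = κ := by
    rw [hD.mul_cm hy, hκ, ← hyx]
    simp only [cm, mul_assoc, hxk', hkk, hxx]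
  have hcκD : c * κ ∈ D := e4 ▸ hD.comm y hy _ hxkD
  have hcκ : c * κ = κ * c := comm_of_sq (hD.sq c hcD) (hD.sq κ hκD) (hD.sq _ hcκD)
  have hxκ : x * κ = κ * x := by
    rw [hκ]; simp only [mul_assoc, hxk']
    rw [← mul_assoc x, hxk0, ← hxk]; simp only [mul_assoc]
  have e6 : cm x (c * κ) = cm x c := by
    unfold cm
    calc x * (c * κ) * (x * (c * κ)) = x * c * ((κ * x) * (c * κ)) := by simp only [mul_assoc]
      _ = x * c * (x * ((κ * c) * κ)) := by rw [← hxκ]; simp only [mul_assoc]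
      _ = x * c * (x * c) := by rw [← hcκ]; simp only [mul_assoc, hD.sq κ hκD, mul_one]
  -- ring side
  have r0 : X φ x * X φ z * X φ x = X φ x + X φ k + X φ (x * k) := by
    rw [H.sand hx hz, ← hk, H.s_eq]
  have r1 : ∀ e ∈ D, X φ x * (X φ y * X φ e * X φ y) * X φ x =
      X φ x * X φ k0 + X φ x * X φ (cm x (cm y e)) + X φ x * X φ (cm x (y * cm y e)) := by
    intro e he
    rw [H.sand hy he, H.s_eq y, hk0, ← H.sand hx hy, ← H.sand hx (hD.comm y hy e he),
      ← H.sand hx (hD.mul_cm_mem hy he)]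
    noncomm_ring
  have a1 := r1 x hx
  have a2 := r1 k hkD
  have a3 := r1 _ hxkD
  rw [hyx, e1, e2, H.X_one] at a1
  rw [← hc, e3] at a2
  rw [e5, e4, e6] at a3
  linear_combination (norm := noncomm_ring) X φ x * X φ y * r0 * X φ y * X φ x + a1 + a2 + a3 +
    H.two (X φ x * X φ k0) + H.two (X φ x * X φ k0) + H.two (X φ x * X φ (cm x c)) +
    H.two (X φ x * X φ κ)

theorem s_th {a d : G} (ha : a ∈ D) (hd : d ∈ D) : X φ a * X φ (cm a d) ∈ Th φ D := by
  refine ⟨H.s_mem ha hd, ?_, ?_⟩
  · rw [← H.sand ha hd]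
    linear_combination (norm := noncomm_ring) X φ a * X φ d * H.X_sq ha * X φ d * X φ a
  · intro l hl
    rw [← H.sand ha hd]
    induction hl using AddSubgroup.closure_induction with
    | mem q hq =>
      obtain ⟨z, hz, rfl⟩ := hq
      exact H.thick_gen ha hd hz
    | zero => simp
    | add a b _ _ ha hb => linear_combination (norm := noncomm_ring) ha + hb
    | neg a _ ha => linear_combination (norm := noncomm_ring) - ha

theorem th_brk {σ τ : R} (hσ : σ ∈ Th φ D) (hτ : τ ∈ Th φ D) : σ * τ + τ * σ ∈ Th φ D := by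
  have h1 := hσ.2.2 τ hτ.1
  have h2 := hτ.2.2 σ hσ.1
  refine ⟨H.brk_mem hσ.1 hτ.1, ?_, fun l hl => ?_⟩
  · linear_combination (norm := noncomm_ring) h1 * τ + h2 * σ + σ * hτ.2.1 * σ + τ * hσ.2.1 * τ
  · have h3 := hσ.2.2 _ (H.brk_mem hτ.1 hl)
    have h4 := hτ.2.2 _ (H.brk_mem hσ.1 hl)
    linear_combination (norm := noncomm_ring) h3 * τ - σ * l * h2 + h4 * σ - τ * l * h1 +
      σ * hτ.2.2 l hl * σ + τ * hσ.2.2 l hl * τ

theorem th_ideal_gen {σ : R} (hσ : σ ∈ Th φ D) {y : G} (hy : y ∈ D) :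
    X φ y * σ + σ * X φ y ∈ AddSubgroup.closure (Th φ D) := by
  have h1 : φ y * σ * φ y ∈ Th φ D := by
    refine ⟨H.conj_mem hy hσ.1, ?_, fun l hl => ?_⟩
    · linear_combination (norm := noncomm_ring) φ y * σ * H.phi_sq hy * σ * φ y +
        φ y * hσ.2.1 * φ y
    · linear_combination (norm := noncomm_ring) φ y * hσ.2.2 _ (H.conj_mem hy hl) * φ y
  have h2 : X φ y * σ * X φ y ∈ Th φ D := by
    refine ⟨H.sand_mem hy hσ.1, ?_, fun l hl => ?_⟩
    · linear_combination (norm := noncomm_ring) X φ y * σ * H.X_sq hy * σ * X φ y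
    · linear_combination (norm := noncomm_ring) X φ y * hσ.2.2 _ (H.sand_mem hy hl) * X φ y
  have := add_mem (add_mem (AddSubgroup.subset_closure hσ) (AddSubgroup.subset_closure h1))
    (AddSubgroup.subset_closure h2 : _ ∈ AddSubgroup.closure (Th φ D))
  convert this using 1
  simp only [X]
  linear_combination (norm := noncomm_ring) - H.two (φ y * σ * φ y)

theorem th_ideal {j l : R} (hj : j ∈ AddSubgroup.closure (Th φ D)) (hl : l ∈ LL φ D) :
    l * j + j * l ∈ AddSubgroup.closure (Th φ D) := by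
  induction hj using AddSubgroup.closure_induction with
  | mem σ hσ =>
    induction hl using AddSubgroup.closure_induction with
    | mem q hq =>
      obtain ⟨y, hy, rfl⟩ := hq
      exact H.th_ideal_gen hσ hy
    | zero => simp
    | add a b _ _ ha hb => convert add_mem ha hb using 1; noncomm_ring
    | neg a _ ha => convert neg_mem ha using 1; noncomm_ring
  | zero => simp
  | add a b _ _ ha hb => convert add_mem ha hb using 1; noncomm_ring
  | neg a _ ha => convert neg_mem ha using 1; noncomm_ring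

end Hyp

end ring

end Pool.Agent.P.MP_25cc86_al
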