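import Pool.Agent.P.MP_25cc86_al.Thick

/-! Nilpotency of the augmentation ideal in rings in which the dihedral norms vanish. -/

namespace Pool.Agent.P.MP_25cc86_al

section general

variable {A : Type*} {R : Type*} [Ring R]

/-- Span of the monomials of length at least `n`. -/
def Ge (x : A → R) (n : ℕ) : AddSubgroup R :=
  AddSubgroup.closure {r | ∃ v : List A, n ≤ v.length ∧ r = mon x v}

theorem mon_mem_ge (x : A → R) {n : ℕ} {v : List A} (h : n ≤ v.length) : mon x v ∈ Ge x n :=
  AddSubgroup.subset_closure ⟨v, h, rfl⟩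

theorem ge_mono (x : A → R) {m n : ℕ} (h : m ≤ n) : Ge x n ≤ Ge x m :=
  AddSubgroup.closure_mono fun _ ⟨v, h1, h2⟩ => ⟨v, h.trans h1, h2⟩

/-- Bilinear induction over two spans. -/
theorem mul_mem_of_closure {S T : Set R} {J : AddSubgroup R} (h : ∀ s ∈ S, ∀ t ∈ T, s * t ∈ J)
    {p q : R} (hp : p ∈ AddSubgroup.closure S) (hq : q ∈ AddSubgroup.closure T) : p * q ∈ J := by
  induction hp using AddSubgroup.closure_induction with
  | mem p hp =>
    induction hq using AddSubgroup.closure_induction with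
    | mem q hq => exact h p hp q hq
    | zero => simp
    | add a b _ _ ha hb => rw [mul_add]; exact add_mem ha hb
    | neg a _ ha => rw [mul_neg]; exact neg_mem ha
  | zero => simp
  | add a b _ _ ha hb => rw [add_mul]; exact add_mem ha hb
  | neg a _ ha => rw [neg_mul]; exact neg_mem ha

theorem ge_mul {x : A → R} {m n : ℕ} {p q : R} (hp : p ∈ Ge x m) (hq : q ∈ Ge x n) :
    p * q ∈ Ge x (m + n) := by
  refine mul_mem_of_closure ?_ hp hq
  rintro _ ⟨u, hu, rfl⟩ _ ⟨v, hv, rfl⟩
  rw [← mon_append]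
  exact mon_mem_ge x (by rw [List.length_append]; omega)

theorem ge_zero_mul {x : A → R} {p q : R} (hp : p ∈ Ge x 0) (hq : q ∈ Ge x 0) :
    p * q ∈ Ge x 0 := ge_mono x (Nat.zero_le _) (ge_mul hp hq)

/-- Span of the products of an element of `E` and a monomial. -/
def JJ (x : A → R) (E : Set R) : AddSubgroup R :=
  AddSubgroup.closure {r | ∃ t ∈ E, ∃ v : List A, r = t * mon x v}

theorem jj_mul {x : A → R} {E : Set R} {r s : R} (hr : r ∈ JJ x E) (hs : s ∈ Ge x 0) :
    r * s ∈ JJ x E := by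
  refine mul_mem_of_closure ?_ hr hs
  rintro _ ⟨t, ht, u, rfl⟩ _ ⟨v, -, rfl⟩
  rw [mul_assoc, ← mon_append]
  exact AddSubgroup.subset_closure ⟨t, ht, _, rfl⟩

theorem mem_jj {x : A → R} {E : Set R} {j : R} (hj : j ∈ AddSubgroup.closure E) :
    j ∈ JJ x E := by
  have : AddSubgroup.closure E ≤ JJ x E :=
    AddSubgroup.closure_mono fun t ht => ⟨t, ht, [], by simp [mon_nil]⟩
  exact this hj

theorem jj_mono (x : A → R) {F F' : Set R} (h : F ⊆ F') : JJ x F ≤ JJ x F' :=
  AddSubgroup.closure_mono fun _ ⟨t, ht, v, hv⟩ => ⟨t, h ht, v, hv⟩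

theorem jj_finite {x : A → R} {E : Set R} {r : R} (hr : r ∈ JJ x E) :
    ∃ F : Set R, F.Finite ∧ F ⊆ E ∧ r ∈ JJ x F := by
  induction hr using AddSubgroup.closure_induction with
  | mem r hr =>
    obtain ⟨t, ht, v, rfl⟩ := hr
    exact ⟨{t}, Set.finite_singleton t, by simpa using ht,
      AddSubgroup.subset_closure ⟨t, rfl, v, rfl⟩⟩
  | zero => exact ⟨∅, Set.finite_empty, Set.empty_subset _, zero_mem _⟩
  | add a b _ _ ha hb =>
    obtain ⟨F, h1, h2, h3⟩ := ha
    obtain ⟨F', h4, h5, h6⟩ := hb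
    exact ⟨F ∪ F', h1.union h4, Set.union_subset h2 h5,
      add_mem (jj_mono x Set.subset_union_left h3) (jj_mono x Set.subset_union_right h6)⟩
  | neg a _ ha =>
    obtain ⟨F, h1, h2, h3⟩ := ha
    exact ⟨F, h1, h2, neg_mem h3⟩

/-- If all monomials of length `N` start, up to linear combinations, with a letter of a second
alphabet whose monomials of length `M` vanish, then long monomials vanish. -/
theorem two_level {x : A → R} {F : Set R} {N M : ℕ}
    (h1 : ∀ w : List A, w.length = N → mon x w ∈ JJ x F)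
    (h2 : ∀ u : List F, u.length = M → mon Subtype.val u = 0) :
    ∀ w : List A, M * N ≤ w.length → mon x w = 0 := by
  have key : ∀ k, ∀ w : List A, k * N ≤ w.length → mon x w ∈ AddSubgroup.closure
      {r | ∃ u : List F, u.length = k ∧ ∃ v : List A, r = mon Subtype.val u * mon x v} := by
    intro k
    induction k with
    | zero => exact fun w _ => AddSubgroup.subset_closure ⟨[], rfl, w, by simp [mon_nil]⟩
    | succ k ih =>
      intro w hw
      rw [Nat.succ_mul] at hw
      rw [← List.take_append_drop N w, mon_append]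
      refine mul_mem_of_closure (T := {mon x (w.drop N)}) ?_
        (h1 (w.take N) (by rw [List.length_take]; omega)) (AddSubgroup.subset_closure rfl)
      rintro _ ⟨t, ht, v, rfl⟩ _ rfl
      rw [mul_assoc, ← mon_append]
      refine mul_mem_of_closure (S := {t}) ?_ (AddSubgroup.subset_closure rfl)
        (ih _ (by rw [List.length_append, List.length_drop]; omega))
      rintro _ rfl _ ⟨u, hu, v', rfl⟩
      exact AddSubgroup.subset_closure ⟨⟨_, ht⟩ :: u, by simp [hu], v',
        by rw [mon_cons, mul_assoc]⟩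
  intro w hw
  have : AddSubgroup.closure
      {r | ∃ u : List F, u.length = M ∧ ∃ v : List A, r = mon Subtype.val u * mon x v} ≤ ⊥ := by
    rw [AddSubgroup.closure_le]
    rintro _ ⟨u, hu, v, rfl⟩
    simp [h2 u hu]
  simpa using this (key M w hw)

end general

variable {G : Type*} [Group G] {R : Type*} [Ring R] {φ : G →* R} {D : Set G} (H : Hyp φ D)
include H

namespace Hyp

theorem sub_eq (p q : R) : p - q = p + q := by
  linear_combination (norm := noncomm_ring) - H.two q

theorem br_form {A : Type*} {g : A → G} (hg : ∀ a, g a ∈ D) {p : R}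
    (hp : Br (fun a => X φ (g a)) p) :
    ∃ d ∈ D, ∃ j ∈ AddSubgroup.closure (Th φ D), p = X φ d + j := by
  have hJ : AddSubgroup.closure (Th φ D) ≤ LL φ D :=
    (AddSubgroup.closure_le _).2 fun t ht => ht.1
  induction hp with
  | gen a => exact ⟨g a, hg a, 0, zero_mem _, by simp⟩
  | br _ _ ihp ihq =>
    obtain ⟨d, hd, j, hj, rfl⟩ := ihp
    obtain ⟨e, he, j', hj', rfl⟩ := ihq
    have h1 : X φ e * X φ (cm d e) ∈ Th φ D := by
      rw [← H.isC.cm_symm hd he]; exact H.s_th he hd
    refine ⟨cm d e, H.isC.comm d hd e he, _, add_mem (add_mem (add_mem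
      (AddSubgroup.subset_closure (H.s_th hd he)) (AddSubgroup.subset_closure h1))
      (H.th_ideal hj' (X_mem hd))) (H.th_ideal hj (add_mem (X_mem he) (hJ hj'))), ?_⟩
    rw [H.sub_eq]
    linear_combination (norm := noncomm_ring) H.brk hd he

theorem X_ge {A : Type*} {g : A → G} (hg : ∀ a, g a ∈ D)
    (hgen : Subgroup.closure (Set.range g) = ⊤) (h : G) :
    X φ h ∈ Ge (fun a => X φ (g a)) 1 := by
  have hh : h ∈ Subgroup.closure (Set.range g) := hgen ▸ Subgroup.mem_top h
  have hgen1 : ∀ a, X φ (g a) ∈ Ge (fun a => X φ (g a)) 1 := fun a => by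
    simpa [mon] using mon_mem_ge (fun a => X φ (g a)) (n := 1) (v := [a]) (by simp)
  induction hh using Subgroup.closure_induction'' with
  | mem y hy => obtain ⟨a, rfl⟩ := hy; exact hgen1 a
  | inv_mem y hy =>
    obtain ⟨a, rfl⟩ := hy
    rw [inv_of_sq (H.isC.sq _ (hg a))]; exact hgen1 a
  | one => rw [H.X_one]; exact zero_mem _
  | mul y z _ _ hy hz =>
    rw [H.X_mul]
    exact add_mem (add_mem (ge_mono _ (by omega) (ge_mul hy hz)) hy) hz

theorem level_one {A : Type*} [Finite A] {g : A → G} (hg : ∀ a, g a ∈ D)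
    (hgen : Subgroup.closure (Set.range g) = ⊤) :
    ∃ N, ∀ w : List A, w.length = N →
      mon (fun a => X φ (g a)) w ∈ JJ (fun a => X φ (g a)) (Th φ D) := by
  set x : A → R := fun a => X φ (g a) with hx
  have hJ : AddSubgroup.closure (Th φ D) ≤ LL φ D :=
    (AddSubgroup.closure_le _).2 fun t ht => ht.1
  have hL : LL φ D ≤ Ge x 0 := (AddSubgroup.closure_le _).2 fun _ ⟨d, _, hd⟩ =>
    hd ▸ ge_mono _ (by omega) (H.X_ge hg hgen d)
  have hl : ∀ l ∈ LL φ D, ∀ r ∈ JJ x (Th φ D), l * r ∈ JJ x (Th φ D) := by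
    intro l hl r hr
    refine mul_mem_of_closure (S := {l}) ?_ (AddSubgroup.subset_closure rfl) hr
    rintro _ rfl _ ⟨t, ht, v, rfl⟩
    have hv : mon x v ∈ Ge x 0 := mon_mem_ge x (Nat.zero_le _)
    have h1 := jj_mul (mem_jj (x := x) (H.th_ideal (AddSubgroup.subset_closure ht) hl)) hv
    have h2 := jj_mul (mem_jj (x := x) (AddSubgroup.subset_closure ht)) (ge_zero_mul (hL hl) hv)
    convert sub_mem h1 h2 using 1
    noncomm_ring
  refine rewrite x _ (fun a r hr => hl _ (X_mem (hg a)) r hr)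
    (fun a r hr => jj_mul hr (hL (X_mem (hg a)))) ?_ ?_
  · intro p hp
    obtain ⟨d, hd, j, hj, rfl⟩ := H.br_form hg hp
    have h1 := hl _ (X_mem hd) _ (mem_jj (x := x) hj)
    have h2 := jj_mul (mem_jj (x := x) hj) (hL (add_mem (X_mem hd) (hJ hj)))
    convert add_mem h1 h2 using 1
    linear_combination (norm := noncomm_ring) H.X_sq hd
  · intro p q hp hq
    obtain ⟨d, hd, j, hj, rfl⟩ := H.br_form hg hp
    obtain ⟨e, he, j', hj', rfl⟩ := H.br_form hg hq
    have hp' := add_mem (X_mem (φ := φ) hd) (hJ hj)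
    have hq' := add_mem (X_mem (φ := φ) he) (hJ hj')
    have h0 := mem_jj (x := x) (AddSubgroup.subset_closure (H.s_th hd he))
    have h1 := hl _ (X_mem hd) _ (jj_mul (mem_jj (x := x) hj') (hL (X_mem hd)))
    have h2 := hl _ (X_mem hd) _ (hl _ hq' _ (mem_jj (x := x) hj))
    have h3 := jj_mul (mem_jj (x := x) hj) (ge_zero_mul (hL hq') (hL hp'))
    convert add_mem (add_mem (add_mem h0 h1) h2) h3 using 1
    linear_combination (norm := noncomm_ring) H.sand hd he

theorem level_two {F : Set R} (hF : F.Finite) (hFT : F ⊆ Th φ D) :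
    ∃ M, ∀ u : List F, u.length = M → mon Subtype.val u = 0 := by
  have := hF.to_subtype
  have hb : ∀ p, Br (Subtype.val : F → R) p → p ∈ Th φ D := by
    intro p hp
    induction hp with
    | gen a => exact hFT a.2
    | br _ _ ihp ihq => rw [H.sub_eq]; exact H.th_brk ihp ihq
  obtain ⟨M, hM⟩ := rewrite (Subtype.val : F → R) ⊥ (by simp) (by simp)
    (fun p hp => (hb p hp).2.1) (fun p q hp hq => (hb p hp).2.2 q (hb q hq).1)
  exact ⟨M, fun u hu => hM u hu⟩

/-- The augmentation ideal is nilpotent. -/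
theorem tzero {A : Type*} [Finite A] {g : A → G} (hg : ∀ a, g a ∈ D)
    (hgen : Subgroup.closure (Set.range g) = ⊤) :
    ∃ K, ∀ l : List G, l.length = K → (l.map (X φ)).prod = 0 := by
  obtain ⟨N, hN⟩ := H.level_one hg hgen
  set x : A → R := fun a => X φ (g a) with hx
  choose F hF1 hF2 hF3 using fun w : {w : List A // w.length = N} => jj_finite (hN w.1 w.2)
  have : Finite {w : List A // w.length = N} := (List.finite_length_eq A N).to_subtype
  obtain ⟨M, hM⟩ := H.level_two (F := ⋃ w, F w) (Set.finite_iUnion hF1) (Set.iUnion_subset hF2)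
  have h3 := two_level (x := x) (N := N) (fun w hw =>
    jj_mono x (Set.subset_iUnion F ⟨w, hw⟩) (hF3 ⟨w, hw⟩)) hM
  refine ⟨M * N, fun l hl => ?_⟩
  have h4 : ∀ l : List G, (l.map (X φ)).prod ∈ Ge x l.length := by
    intro l
    induction l with
    | nil => exact mon_mem_ge x (v := []) le_rfl
    | cons a l ih =>
      rw [List.map_cons, List.prod_cons, List.length_cons, Nat.add_comm]
      exact ge_mul (H.X_ge hg hgen a) ih
  have h5 : Ge x (M * N) ≤ ⊥ := (AddSubgroup.closure_le _).2 fun _ ⟨v, h1, h2⟩ => by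
    simp [h2, h3 v h1]
  simpa using h5 (hl ▸ h4 l)

end Hyp

end Pool.Agent.P.MP_25cc86_al
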