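import Pool.Agent.P.MP_25cc86_al.Words

/-! Every long word over a finite ordered alphabet contains `u u` or `u v u`, `u, v` Lyndon. -/

namespace Pool.Agent.P.MP_25cc86_al

variable {A : Type*} [LinearOrder A]

theorem Pat.mid {w : List A} (h : Pat w) (α β : List A) : Pat (α ++ w ++ β) := by
  obtain ⟨α', u, v, β', rfl, hu, hv⟩ := h
  exact ⟨α ++ α', u, v, β' ++ β, by simp, hu, hv⟩

/-- Factor closed families of pattern free words with words of every length. -/
def Lang (S : Set (List A)) : Prop :=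
  (∀ w ∈ S, ¬ Pat w) ∧ (∀ α w β : List A, α ++ w ++ β ∈ S → w ∈ S) ∧
    ∀ m, ∃ w ∈ S, w.length = m

theorem exists_min_lang [Finite A] (S0 : Set (List A)) (h0 : Lang S0) :
    ∃ S : Set (List A), Lang S ∧ ∀ T, Lang T → T ⊆ S → S ⊆ T := by
  obtain ⟨S, -, hS⟩ := zorn_superset_nonempty {S : Set (List A) | Lang S} (fun c hc hchain hne => by
    refine ⟨⋂₀ c, ⟨?_, ?_, ?_⟩, fun s hs => Set.sInter_subset_of_mem hs⟩
    · obtain ⟨T, hT⟩ := hne
      exact fun w hw => (hc hT).1 w (hw T hT)
    · exact fun α w β hw T hT => (hc hT).2.1 α w β (hw T hT)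
    · intro m
      have hfin : ∀ T : Set (List A), (T ∩ {w | w.length = m}).Finite := fun T =>
        (List.finite_length_eq A m).subset Set.inter_subset_right
      obtain ⟨T, hT, hTmin⟩ := (wellFounded_lt (α := ℕ)).has_min
        ((fun T : Set (List A) => (T ∩ {w | w.length = m}).ncard) '' c) (hne.image _)
      obtain ⟨T, hT, rfl⟩ := hT
      obtain ⟨w, hw, hwm⟩ := (hc hT).2.2 m
      refine ⟨w, fun U hU => ?_, hwm⟩
      rcases hchain.total hT hU with h | h
      · exact h hw
      · have h1 : U ∩ {w | w.length = m} ⊆ T ∩ {w | w.length = m} :=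
          Set.inter_subset_inter_left _ h
        have h2 := not_lt.1 (hTmin _ ⟨U, hU, rfl⟩)
        have h3 := Set.eq_of_subset_of_ncard_le h1 h2 (hfin T)
        have : w ∈ U ∩ {w | w.length = m} := by rw [h3]; exact ⟨hw, hwm⟩
        exact this.1) S0 h0
  exact ⟨S, hS.prop, fun T hT hTS => hS.le_of_le hT hTS⟩

theorem exists_pat [Finite A] : ∃ N, ∀ w : List A, w.length = N → Pat w := by
  classical
  by_contra hc
  push Not at hc
  obtain ⟨S, hS, hSmin⟩ := exists_min_lang {w : List A | ¬ Pat w}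
    ⟨fun w hw => hw, fun α w β hw h => hw (h.mid α β), fun m => by
      obtain ⟨w, h1, h2⟩ := hc m
      exact ⟨w, h2, h1⟩⟩
  -- uniform recurrence
  have hur : ∀ w ∈ S, ∃ g, ∀ v ∈ S, v.length = g → ∃ α β, v = α ++ w ++ β := by
    intro w hw
    by_contra hg
    push Not at hg
    have : Lang {v | v ∈ S ∧ ∀ α β, v ≠ α ++ w ++ β} := by
      refine ⟨fun v hv => hS.1 v hv.1, fun α v β hv => ⟨hS.2.1 α v β hv.1, ?_⟩, fun m => ?_⟩
      · intro α' β' h
        exact hv.2 (α ++ α') (β' ++ β) (by rw [h]; simp)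
      · obtain ⟨v, h1, h2, h3⟩ := hg m
        exact ⟨v, ⟨h1, h3⟩, h2⟩
    exact (hSmin _ this (fun v hv => hv.1) hw).2 [] [] (by simp)
  have hext : ∀ w ∈ S, ∀ k, ∃ β : List A, β.length = k ∧ w ++ β ∈ S := by
    intro w hw k
    obtain ⟨g, hg⟩ := hur w hw
    obtain ⟨v, hv, hvl⟩ := hS.2.2 (g + k)
    have h1 : v.take g ∈ S := hS.2.1 [] _ (v.drop g) (by simpa using hv)
    obtain ⟨α, β, h2⟩ := hg _ h1 (by simp [hvl])
    have h3 : v = α ++ w ++ (β ++ v.drop g) := by
      conv_lhs => rw [← List.take_append_drop g v, h2]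
      simp
    refine ⟨(β ++ v.drop g).take k, by simp [hvl], ?_⟩
    refine hS.2.1 α _ ((β ++ v.drop g).drop k) ?_
    rw [List.append_assoc, List.append_assoc, List.take_append_drop, ← List.append_assoc, ← h3]
    exact hv
  -- least words of each length
  have hleast : ∀ m, ∃ w ∈ S, w.length = m ∧ ∀ v ∈ S, v.length = m → ¬ Lt v w := by
    intro m
    have hfin : (S ∩ {w | w.length = m}).Finite :=
      (List.finite_length_eq A m).subset Set.inter_subset_right
    haveI := hfin.to_subtype
    haveI : IsTrans (S ∩ {w | w.length = m} : Set (List A)) (fun a b => Lt a.1 b.1) :=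
      ⟨fun _ _ _ h1 h2 => h1.trans h2⟩
    haveI : Std.Irrefl (fun a b : (S ∩ {w | w.length = m} : Set (List A)) => Lt a.1 b.1) :=
      ⟨fun a => Lt.irrefl _⟩
    have hwf := Finite.wellFounded_of_trans_of_irrefl
      (fun a b : (S ∩ {w | w.length = m} : Set (List A)) => Lt a.1 b.1)
    obtain ⟨w0, hw0, hw0l⟩ := hS.2.2 m
    obtain ⟨w, -, hw⟩ := hwf.has_min Set.univ ⟨⟨w0, hw0, hw0l⟩, trivial⟩
    exact ⟨w.1, w.2.1, w.2.2, fun v hv hvl => hw ⟨v, hv, hvl⟩ trivial⟩
  choose π hπS hπl hπmin using hleast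
  have hstep : ∀ m, ∃ a, π (m + 1) = π m ++ [a] := by
    intro m
    have hne : π (m + 1) ≠ [] := fun h => by have := hπl (m + 1); rw [h] at this; simp at this
    have h1 := List.dropLast_append_getLast hne
    refine ⟨(π (m + 1)).getLast hne, ?_⟩
    have h2 : (π (m + 1)).dropLast ∈ S :=
      hS.2.1 [] _ [(π (m + 1)).getLast hne] (by rw [List.nil_append, h1]; exact hπS _)
    have h3 : (π (m + 1)).dropLast.length = m := by simp [hπl]
    obtain ⟨β, hβ, hβS⟩ := hext _ (hπS m) 1
    rcases lt_trich (π (m + 1)).dropLast (π m) with h | h | ⟨s, h⟩ | ⟨s, h⟩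
    · exact absurd h (hπmin m _ h2 h3)
    · have := h.append β [(π (m + 1)).getLast hne]
      rw [h1] at this
      exact absurd this (hπmin (m + 1) _ hβS (by simp [hπl, hβ]))
    · have := congrArg List.length h
      rw [List.length_append, h3, hπl] at this
      have hs : s = [] := List.length_eq_zero_iff.1 (by omega)
      rw [hs, List.append_nil] at h
      rw [h, h1]
    · have := congrArg List.length h
      rw [List.length_append, h3, hπl] at this
      have hs : s = [] := List.length_eq_zero_iff.1 (by omega)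
      rw [hs, List.append_nil] at h
      rw [← h, h1]
  choose ν hν using hstep
  have hπ : ∀ m, π m = seg ν 0 m := by
    intro m
    induction m with
    | zero => rw [List.length_eq_zero_iff.1 (hπl 0)]; simp [seg]
    | succ m ih => rw [hν, ih, seg_add, seg_one, Nat.zero_add]
  have hseg : ∀ q m, seg ν q m ∈ S := fun q m =>
    hS.2.1 (seg ν 0 q) _ [] (by
      have := seg_add ν 0 q m
      rw [Nat.zero_add] at this
      rw [List.append_nil, ← this, ← hπ]; exact hπS _)
  obtain ⟨q, m, h⟩ := seq_pat ν (fun q i hi => by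
    by_contra hlt
    refine hπmin (i + 1) _ (hseg q (i + 1)) (seg_length _ _ _) ?_
    rw [hπ, seg_add, seg_add, seg_one, seg_one, seg_congr (q := q) (q' := 0) (by simpa using hi)]
    exact ⟨seg ν 0 i, _, _, [], [], rfl, rfl, by simpa using not_le.1 hlt⟩) (fun m => by
    obtain ⟨g, hg⟩ := hur _ (hπS m)
    obtain ⟨α, β, h⟩ := hg _ (hseg 1 g) (seg_length _ _ _)
    have hl := congrArg List.length h
    simp only [seg_length, List.length_append, hπl] at hl
    rw [hl, seg_add, seg_add] at h
    have h1 := (List.append_inj h (by simp [seg_length, hπl])).1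
    have h2 := (List.append_inj h1 (by simp [seg_length])).2
    rw [hπ] at h2
    exact ⟨1 + α.length, by omega, fun j hj => by simpa using seg_eq h2 j hj⟩)
  exact hS.1 _ (hseg q m) h

end Pool.Agent.P.MP_25cc86_al
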