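import Mathlib

/-! Lyndon words and the unavoidability of the patterns `u u`, `u v u` with `u`, `v` Lyndon. -/

set_option linter.unusedSectionVars false

namespace Pool.Agent.P.MP_25cc86_al

variable {A : Type*} [LinearOrder A]

/-- `u` is smaller than `v` at the first position where they differ. -/
def Lt (u v : List A) : Prop :=
  ∃ (p : List A) (a b : A) (s t : List A), u = p ++ a :: s ∧ v = p ++ b :: t ∧ a < b

theorem Lt.append {u v : List A} (h : Lt u v) (α β : List A) : Lt (u ++ α) (v ++ β) := by
  obtain ⟨p, a, b, s, t, rfl, rfl, hab⟩ := h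
  exact ⟨p, a, b, s ++ α, t ++ β, by simp, by simp, hab⟩

theorem Lt.left {u v : List A} (h : Lt u v) (q : List A) : Lt (q ++ u) (q ++ v) := by
  obtain ⟨p, a, b, s, t, rfl, rfl, hab⟩ := h
  exact ⟨q ++ p, a, b, s, t, by simp, by simp, hab⟩

theorem lt_cons_iff {x y : A} {u v : List A} :
    Lt (x :: u) (y :: v) ↔ x < y ∨ (x = y ∧ Lt u v) := by
  constructor
  · rintro ⟨p, a, b, s, t, h1, h2, hab⟩
    cases p with
    | nil =>
      simp only [List.nil_append, List.cons.injEq] at h1 h2
      left; rw [h1.1, h2.1]; exact hab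
    | cons c p =>
      simp only [List.cons_append, List.cons.injEq] at h1 h2
      right
      exact ⟨h1.1.trans h2.1.symm, p, a, b, s, t, h1.2, h2.2, hab⟩
  · rintro (h | ⟨rfl, h⟩)
    · exact ⟨[], x, y, u, v, rfl, rfl, h⟩
    · exact h.left [x]

theorem not_lt_nil_left (v : List A) : ¬ Lt [] v := by
  rintro ⟨p, a, b, s, t, h1, -, -⟩
  simp at h1

theorem not_lt_nil_right (v : List A) : ¬ Lt v [] := by
  rintro ⟨p, a, b, s, t, -, h1, -⟩
  simp at h1

theorem Lt.trans {u v w : List A} (h1 : Lt u v) (h2 : Lt v w) : Lt u w := by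
  induction u generalizing v w with
  | nil => exact absurd h1 (not_lt_nil_left _)
  | cons x u ih =>
    cases v with
    | nil => exact absurd h1 (not_lt_nil_right _)
    | cons y v =>
      cases w with
      | nil => exact absurd h2 (not_lt_nil_right _)
      | cons z w =>
        rw [lt_cons_iff] at h1 h2 ⊢
        rcases h1 with h1 | ⟨rfl, h1⟩ <;> rcases h2 with h2 | ⟨rfl, h2⟩
        · exact Or.inl (h1.trans h2)
        · exact Or.inl h1
        · exact Or.inl h2
        · exact Or.inr ⟨rfl, ih h1 h2⟩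

theorem Lt.irrefl (u : List A) : ¬ Lt u u := by
  induction u with
  | nil => exact not_lt_nil_left _
  | cons x u ih =>
    rw [lt_cons_iff]
    rintro (h | ⟨-, h⟩)
    · exact lt_irrefl _ h
    · exact ih h

theorem Lt.of_left {q u v : List A} (h : Lt (q ++ u) (q ++ v)) : Lt u v := by
  induction q with
  | nil => exact h
  | cons x q ih =>
    rw [List.cons_append, List.cons_append, lt_cons_iff] at h
    rcases h with h | ⟨-, h⟩
    · exact absurd h (lt_irrefl _)
    · exact ih h

theorem lt_trich (u v : List A) :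
    Lt u v ∨ Lt v u ∨ (∃ s, v = u ++ s) ∨ (∃ s, u = v ++ s) := by
  induction u generalizing v with
  | nil => exact Or.inr (Or.inr (Or.inl ⟨v, rfl⟩))
  | cons x u ih =>
    cases v with
    | nil => exact Or.inr (Or.inr (Or.inr ⟨_, rfl⟩))
    | cons y v =>
      rcases lt_trichotomy x y with h | rfl | h
      · exact Or.inl (lt_cons_iff.2 (Or.inl h))
      · rcases ih v with h | h | ⟨s, rfl⟩ | ⟨s, rfl⟩
        · exact Or.inl (lt_cons_iff.2 (Or.inr ⟨rfl, h⟩))
        · exact Or.inr (Or.inl (lt_cons_iff.2 (Or.inr ⟨rfl, h⟩)))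
        · exact Or.inr (Or.inr (Or.inl ⟨s, rfl⟩))
        · exact Or.inr (Or.inr (Or.inr ⟨s, rfl⟩))
      · exact Or.inr (Or.inl (lt_cons_iff.2 (Or.inl h)))

/-- Lyndon words: nonempty and smaller than each proper nonempty final segment. -/
def Lyn (w : List A) : Prop :=
  w ≠ [] ∧ ∀ u v : List A, w = u ++ v → u ≠ [] → v ≠ [] → Lt w v

theorem lyn_single (a : A) : Lyn [a] := by
  refine ⟨by simp, fun u v h hu hv => ?_⟩
  have := congrArg List.length h
  have h1 := List.length_pos_iff.2 hu
  have h2 := List.length_pos_iff.2 hv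
  simp at this
  omega

/-- A Lyndon word of length at least two is a product of two Lyndon words. -/
theorem Lyn.split {w : List A} (hw : Lyn w) (h2 : 2 ≤ w.length) :
    ∃ u v : List A, Lyn u ∧ Lyn v ∧ w = u ++ v := by
  classical
  -- choose the longest cut `v` among those that no other cut precedes
  have key : ∀ n : ℕ, ∀ u v : List A, w = u ++ v → u ≠ [] → v ≠ [] →
      (Finset.filter (fun i => Lt (w.drop i) v ∨ ∃ s, s ≠ [] ∧ v = w.drop i ++ s)
        (Finset.Ioo 0 w.length)).card ≤ n →
      ∃ u v : List A, w = u ++ v ∧ u ≠ [] ∧ v ≠ [] ∧ ∀ u' v' : List A, w = u' ++ v' → u' ≠ [] →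
        v' ≠ [] → ¬ Lt v' v ∧ ∀ s, s ≠ [] → v ≠ v' ++ s := by
    intro n
    induction n with
    | zero =>
      intro u v h hu hv hc
      refine ⟨u, v, h, hu, hv, fun u' v' h' hu' hv' => ?_⟩
      rw [Nat.le_zero, Finset.card_eq_zero, Finset.filter_eq_empty_iff] at hc
      have hmem : u'.length ∈ Finset.Ioo 0 w.length := by
        have h1 := List.length_pos_iff.2 hu'
        have h2 := List.length_pos_iff.2 hv'
        rw [Finset.mem_Ioo, h', List.length_append]; omega
      have := hc hmem
      rw [h', List.drop_left] at this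
      push Not at this
      exact this
    | succ n ih =>
      intro u v h hu hv hc
      by_cases hh : ∀ u' v' : List A, w = u' ++ v' → u' ≠ [] →
        v' ≠ [] → ¬ Lt v' v ∧ ∀ s, s ≠ [] → v ≠ v' ++ s
      · exact ⟨u, v, h, hu, hv, hh⟩
      · push Not at hh
        obtain ⟨u', v', h', hu', hv', hlt⟩ := hh
        have hlt' : Lt v' v ∨ ∃ s, s ≠ [] ∧ v = v' ++ s := by
          by_cases h0 : Lt v' v
          · exact Or.inl h0
          · exact Or.inr (hlt h0)
        refine ih u' v' h' hu' hv' ?_
        refine Nat.le_of_lt_succ (lt_of_lt_of_le (Finset.card_lt_card ?_) hc)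
        rw [Finset.ssubset_iff_of_subset]
        · refine ⟨u'.length, ?_, ?_⟩
          · rw [Finset.mem_filter]
            have h1 := List.length_pos_iff.2 hu'
            have h2 := List.length_pos_iff.2 hv'
            refine ⟨by rw [Finset.mem_Ioo, h', List.length_append]; omega, ?_⟩
            rw [h', List.drop_left]; exact hlt'
          · rw [Finset.mem_filter, h', List.drop_left]
            rintro ⟨-, h0 | ⟨s, hs, h0⟩⟩
            · exact Lt.irrefl _ h0
            · exact hs (by simpa using h0)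
        · intro i hi
          rw [Finset.mem_filter] at hi ⊢
          refine ⟨hi.1, ?_⟩
          rcases hi.2 with h0 | ⟨s, hs, h0⟩ <;> rcases hlt' with h1 | ⟨s', hs', h1⟩
          · exact Or.inl (h0.trans h1)
          · left; rw [h1]; simpa using h0.append [] s'
          · rcases lt_trich (w.drop i) v with h3 | h3 | ⟨t, h3⟩ | ⟨t, h3⟩
            · exact Or.inl h3
            · exfalso
              have := h3.append [] s
              rw [List.append_nil, ← h0] at this
              exact Lt.irrefl _ (this.trans h1)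
            · right
              refine ⟨t, ?_, h3⟩
              rintro rfl
              rw [List.append_nil] at h3
              rw [h0, ← h3] at h1
              have := (show Lt (v ++ s) (v ++ []) by simpa using h1).of_left
              exact not_lt_nil_right _ this
            · exfalso
              rw [h0, h3, List.append_assoc] at h1
              have := (show Lt (v ++ (t ++ s)) (v ++ []) by simpa using h1).of_left
              exact not_lt_nil_right _ this
          · right
            exact ⟨s ++ s', by simp [hs], by rw [h1, h0, List.append_assoc]⟩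
  obtain ⟨a, w', rfl⟩ := List.exists_cons_of_ne_nil hw.1
  have hw' : w' ≠ [] := by rintro rfl; simp at h2
  obtain ⟨u, v, h, hu, hv, hmin⟩ := key _ [a] w' rfl (by simp) hw' le_rfl
  refine ⟨u, v, ⟨hu, ?_⟩, ⟨hv, ?_⟩, h⟩
  · intro u1 u2 h1 hu1 hu2
    have hlt : Lt (u ++ v) (u2 ++ v) := by
      rw [← h]
      exact hw.2 u1 (u2 ++ v) (by rw [h, h1, List.append_assoc]) hu1 (by simp [hu2])
    rcases lt_trich u u2 with h3 | h3 | ⟨t, h3⟩ | ⟨t, h3⟩
    · exact h3
    · exact absurd (hlt.trans (h3.append v v)) (Lt.irrefl _)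
    · exfalso
      have := congrArg List.length h3
      have h4 := List.length_pos_iff.2 hu1
      rw [h1] at this
      simp at this; omega
    · exfalso
      rw [h3, List.append_assoc] at hlt
      have h5 := hlt.of_left
      refine (hmin u2 (t ++ v) (by rw [h, h3, List.append_assoc]) hu2 (by simp [hv])).1 h5
  · intro v1 v2 h1 hv1 hv2
    have hm := hmin (u ++ v1) v2 (by rw [h, h1, List.append_assoc]) (by simp [hu]) hv2
    have hlen : v2.length < v.length := by
      have h4 := List.length_pos_iff.2 hv1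
      rw [h1]; simp; omega
    rcases lt_trich v v2 with h3 | h3 | ⟨t, h3⟩ | ⟨t, h3⟩
    · exact h3
    · exact absurd h3 hm.1
    · exfalso
      have := congrArg List.length h3
      simp at this; omega
    · exfalso
      refine hm.2 t ?_ h3
      rintro rfl
      rw [List.append_nil] at h3
      rw [h3] at hlen
      exact lt_irrefl _ hlen

/-- `w` contains `u u` or `u v u` with `u`, `v` Lyndon. -/
def Pat (w : List A) : Prop :=
  ∃ α u v β : List A, w = α ++ (u ++ v ++ u) ++ β ∧ Lyn u ∧ (v = [] ∨ Lyn v)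

/-- The factor of length `m` of the sequence `ν` starting at position `q`. -/
def seg (ν : ℕ → A) (q m : ℕ) : List A := (List.range m).map fun i => ν (q + i)

theorem seg_length (ν : ℕ → A) (q m : ℕ) : (seg ν q m).length = m := by simp [seg]

theorem seg_add (ν : ℕ → A) (q m k : ℕ) :
    seg ν q (m + k) = seg ν q m ++ seg ν (q + m) k := by
  simp [seg, List.range_add, Nat.add_assoc]

theorem seg_one (ν : ℕ → A) (q : ℕ) : seg ν q 1 = [ν q] := by simp [seg]

theorem seg_congr {ν : ℕ → A} {q q' m : ℕ} (h : ∀ i < m, ν (q + i) = ν (q' + i)) :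
    seg ν q m = seg ν q' m := by
  unfold seg
  exact List.map_congr_left fun i hi => h i (List.mem_range.1 hi)

theorem seg_eq {ν : ℕ → A} {q q' m : ℕ} (h : seg ν q m = seg ν q' m) :
    ∀ i < m, ν (q + i) = ν (q' + i) := by
  intro i hi
  have := List.map_inj_left.1 h i (List.mem_range.2 hi)
  exact this

theorem seq_pat (ν : ℕ → A) [Finite A]
    (hmin : ∀ q i, (∀ j < i, ν (q + j) = ν j) → ν i ≤ ν (q + i))
    (hrec : ∀ m, ∃ q, 1 ≤ q ∧ ∀ j < m, ν (q + j) = ν j) :
    ∃ q m, Pat (seg ν q m) := by
  classical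
  -- unbordered initial segments are Lyndon
  let Bd : ℕ → Prop := fun p => ∀ i, 1 ≤ i → i < p → ¬ ∀ j < i, ν (p - i + j) = ν j
  have hlyn : ∀ p, 1 ≤ p → Bd p → Lyn (seg ν 0 p) := by
    intro p hp hb
    refine ⟨fun h => by have := seg_length ν 0 p; rw [h] at this; simp at this; omega, ?_⟩
    intro u v h hu hv
    have h1 := List.length_pos_iff.2 hu
    have h2 := List.length_pos_iff.2 hv
    have hl : u.length + v.length = p := by rw [← List.length_append, ← h, seg_length]
    have hv' : v = seg ν u.length v.length := by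
      have := seg_add ν 0 u.length v.length
      rw [hl, h, Nat.zero_add] at this
      exact (List.append_inj this (by rw [seg_length])).2
    have hex : ∃ j, j < v.length ∧ ν (u.length + j) ≠ ν j := by
      have := hb v.length h2 (by omega)
      push Not at this
      obtain ⟨j, hj, hne⟩ := this
      exact ⟨j, hj, by rwa [show p - v.length = u.length by omega] at hne⟩
    let j := Nat.find hex
    have hj : j < v.length ∧ ν (u.length + j) ≠ ν j := Nat.find_spec hex
    have hj' : ∀ i < j, ν (u.length + i) = ν i := fun i hi => by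
      have := Nat.find_min hex hi
      push Not at this
      exact this (hi.trans hj.1)
    refine ⟨seg ν 0 j, ν j, ν (u.length + j), seg ν (j + 1) (p - (j + 1)),
      seg ν (u.length + j + 1) (v.length - (j + 1)), ?_, ?_, lt_of_le_of_ne (hmin _ _ hj') hj.2.symm⟩
    · rw [show p = j + (1 + (p - (j + 1))) by omega, seg_add, seg_add, seg_one]
      simp only [Nat.zero_add, List.singleton_append]
      congr 3; omega
    · conv_lhs => rw [hv', show v.length = j + (1 + (v.length - (j + 1))) by omega, seg_add,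
        seg_add, seg_one]
      rw [seg_congr (q' := 0) (by simpa using hj')]
      simp
  -- every letter following an unbordered initial segment does so early
  have hJ : ∃ J, ∀ p, 1 ≤ p → Bd p → ∃ p', 1 ≤ p' ∧ p' ≤ J ∧ Bd p' ∧ ν p' = ν p := by
    have : ∀ a : A, ∃ J, (∃ p, 1 ≤ p ∧ Bd p ∧ ν p = a) → (1 ≤ J ∧ Bd J ∧ ν J = a) := by
      intro a
      by_cases h : ∃ p, 1 ≤ p ∧ Bd p ∧ ν p = a
      · obtain ⟨p, hp⟩ := h
        exact ⟨p, fun _ => hp⟩
      · exact ⟨0, fun h' => absurd h' h⟩
    choose f hf using this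
    obtain ⟨J, hJ⟩ := (Set.finite_range f).bddAbove
    refine ⟨J, fun p hp hb => ?_⟩
    have := hf (ν p) ⟨p, hp, hb, rfl⟩
    exact ⟨f (ν p), this.1, hJ ⟨_, rfl⟩, this.2⟩
  obtain ⟨J, hJ⟩ := hJ
  let q := Nat.find (hrec (J + 1))
  have hq : 1 ≤ q ∧ ∀ j < J + 1, ν (q + j) = ν j := Nat.find_spec (hrec (J + 1))
  have hqmin : ∀ q' < q, 1 ≤ q' → ¬ ∀ j < J + 1, ν (q' + j) = ν j := fun q' h1 h2 h3 =>
    Nat.find_min (hrec (J + 1)) h1 ⟨h2, h3⟩
  by_cases hq1 : q = 1
  · refine ⟨0, 2, [], [ν 0], [], [], ?_, lyn_single _, Or.inl rfl⟩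
    have := hq.2 0 (by omega)
    rw [hq1] at this
    simp [seg, List.range_succ, this]
  have hq2 : 1 ≤ q - 1 := by omega
  by_cases hb : Bd (q - 1)
  · obtain ⟨p, hp1, hpJ, hpb, hpe⟩ := hJ _ hq2 hb
    refine ⟨q - 1, 1 + (p + 1), [], [ν p], seg ν 0 p, [], ?_, lyn_single _,
      Or.inr (hlyn p hp1 hpb)⟩
    rw [seg_add, seg_add, seg_one, seg_one, show q - 1 + 1 = q by omega, hq.2 p (by omega),
      seg_congr (q := q) (q' := 0) (m := p) (fun i hi => by simpa using hq.2 i (by omega)), hpe]
    simp
  · have hex : ∃ i, 1 ≤ i ∧ i < q - 1 ∧ ∀ j < i, ν (q - 1 - i + j) = ν j := by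
      by_contra hc
      exact hb fun i h1 h2 h3 => hc ⟨i, h1, h2, h3⟩
    let i := Nat.find hex
    have hi : 1 ≤ i ∧ i < q - 1 ∧ ∀ j < i, ν (q - 1 - i + j) = ν j := Nat.find_spec hex
    have hib : Bd i := by
      intro i' h1 h2 h3
      refine Nat.find_min hex h2 ⟨h1, h2.trans hi.2.1, fun j hj => ?_⟩
      rw [← h3 j hj, ← hi.2.2 (i - i' + j) (by omega)]
      congr 1; omega
    have hiJ : i ≤ J + 1 := by
      by_contra hc
      exact hqmin (q - 1 - i) (by omega) (by omega) fun j hj => hi.2.2 j (by omega)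
    refine ⟨q - 1 - i, i + (1 + i), [], seg ν 0 i, [ν (q - 1)], [], ?_, hlyn i hi.1 hib,
      Or.inr (lyn_single _)⟩
    rw [seg_add, seg_add, seg_one, show q - 1 - i + i = q - 1 by omega,
      show q - 1 + 1 = q by omega,
      seg_congr (q := q) (q' := 0) (m := i) (fun j hj => by simpa using hq.2 j (by omega)),
      seg_congr (q := q - 1 - i) (q' := 0) (m := i) (fun j hj => by simpa using hi.2.2 j hj)]
    simp

end Pool.Agent.P.MP_25cc86_al
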